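import Pool.Agent.LOWD.Stmts

set_option autoImplicit false

/-! LOWD, module ALL: the theorem in all dimensions. -/

namespace LOWD

open CUB

namespace ALL

theorem cnt_mono (h : S_CNT) (d : ℕ) {j l : ℕ} (hjl : j ≤ l) : cnt j d ≤ cnt l d :=
  monotone_nat_of_le_succ (f := fun l => cnt l d) (fun l => h.2.2 l d) hjl

theorem low_zero (hZ : S_ZER) : LowR 0 := by
  intro k R E σ ι _ _ _ _ _ _ _ _ _ f d hd hlt c
  classical
  refine hZ k R E σ ι f (Finset.univ.filter fun i => d i ≠ 0) ?_ ?_ c
  · intro i hi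
    have h0 : d i = 0 := by
      by_contra hne
      exact hi (Finset.mem_filter.2 ⟨Finset.mem_univ _, hne⟩)
    have h1 : (f i).totalDegree = 0 := by
      have h2 := hd i
      omega
    exact ⟨_, MvPolynomial.totalDegree_eq_zero_iff_eq_C.1 h1⟩
  · have h3 : (Finset.univ.filter fun i => d i ≠ 0).card = ∑ i, cnt 0 (d i) := by
      rw [Finset.card_filter]
      refine Finset.sum_congr rfl fun i _ => ?_
      unfold cnt
      by_cases h : d i = 0
      · rw [if_neg (by simpa using h), if_pos h]
      · rw [if_pos h, if_neg h, Nat.choose_zero_right]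
    rw [h3]
    omega

theorem low (hZ : S_ZER) (hS : S_STP) (l : ℕ) : LowR l := by
  induction l with
  | zero => exact low_zero hZ
  | succ l ih => exact hS l ih

end ALL

theorem t_ALL : M_ALL := by
  intro hZ hS hC k R E σ ι _ _ _ _ _ _ _ _ _ f d hd l hlt j hj c
  refine ALL.low hZ hS j k R E σ ι f d hd (lt_of_le_of_lt ?_ hlt) c
  exact Nat.add_le_add hj (Finset.sum_le_sum fun i _ => ALL.cnt_mono hC (d i) hj)

end LOWD
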