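import Pool.Agent.LOWD.Stmts

/-!
# Cycles on the chart of lines (module CB)
-/

set_option autoImplicit false

open Polynomial

namespace LOWD

open CUB

namespace CB

lemma ft_X (k R : Type) [Field k] [CommRing R] [Algebra k R] [Algebra.FiniteType k R] :
    Algebra.FiniteType k R[X] :=
  Algebra.FiniteType.trans (S := R) inferInstance inferInstance

/-- The numerical condition for the equations with the coefficients. -/
lemma count (hCNT : S_CNT) (l : ℕ) {σ ι : Type} [Fintype σ] [Fintype ι] (d : ι → ℕ) (a : σ)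
    [Fintype {j : σ // j ≠ a}] (h : l + 1 + ∑ i, cnt (l + 1) (d i) < Fintype.card σ) :
    l + ∑ ie : (Σ i, Fin (d i + 1)), cnt l (d ie.1 - ie.2) < Fintype.card {j : σ // j ≠ a} := by
  have h1 : ∑ ie : (Σ i, Fin (d i + 1)), cnt l (d ie.1 - ie.2) = ∑ i, cnt (l + 1) (d i) := by
    rw [Fintype.sum_sigma]
    exact Finset.sum_congr rfl fun i _ => hCNT.1 l (d i)
  have h2 : Fintype.card {j : σ // j ≠ a} = Fintype.card σ - 1 := by
    classical
    rw [Fintype.card_congr (Equiv.refl _), Fintype.card_subtype_compl, Fintype.card_subtype_eq]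
  rw [h1, h2]
  omega

/-- Cycles on a polynomial ring are trivial if the cycles on the base are. -/
lemma line (hL0 : S_L0) (hGX : S_GX) (hFP : S_FP) (k A E : Type) [Field k] [CommRing A]
    [Algebra k A] [Algebra.FiniteType k A] [Field E] (l : ℕ)
    (h : ∀ v : RP k A l →₀ E, v ∈ rat k A E l) (c : RP k A[X] (l + 1) →₀ E) :
    c ∈ rat k A[X] E (l + 1) := by
  have := ft_X k A
  obtain ⟨v, d, hv, hd⟩ := (hL0 k A E).1 l c
  have h1 := hFP k A A[X] E 1 l (CC k A) (hGX.1 k A) ⊥ v d hv (h v)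
  rw [Ideal.map_bot] at h1
  have h2 := Submodule.add_mem _ hd h1
  rwa [sub_add_cancel] at h2

end CB

theorem t_CB : M_CB := by
  intro hPCO _ hL0 hGX hFP hSUB hDEG hCNT l hLow k R E σ ι _ _ _ _ _ _ _ _ _ f d hd hcard S a c
  classical
  obtain ⟨e⟩ := hSUB k R ι σ f d S a hd
  refine (hPCO.2.2.1 k (AR (gg f d S a))[X] (BR (GG f d) S a) E (l + 1) e.symm c).1 ?_
  refine CB.line hL0 hGX hFP k (AR (gg f d S a)) E l (fun v => ?_) _
  exact hLow k (RV R S a) E {j : σ // j ≠ a} (Σ i, Fin (d i + 1)) (gg f d S a)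
    (fun ie => d ie.1 - ie.2) (hDEG ι σ R f d S a hd) (CB.count hCNT l d a hcard) v

end LOWD
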