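import Pool.Agent.LOWD.Defs

/-!
# LOWD: statements

Module `X` proves `theorem t_X : M_X` (or `t_X : S_X` if there is no `M_X`) in the namespace `LOWD`, in the file
`Pool/Agent/LOWD/X.lean`, importing this file.  The hypotheses of `M_X` are statements of other modules; the statements `S_...` of `CUB`
which occur (`S_DIM1`, `S_DIM2`, `S_LENA`, `S_LENB`, `S_LENC`, `S_DVX`, `S_NORM`, `S_FIN`, ...) are proved in `Pool/Agent/CUB`.
Definitions: `rdim`, `RP`, `len`, `IsDv`, `rat` in `CUB/Defs.lean`; `IsNm` in `CUB/Defs3.lean`; `lC` in `CUB/StmtsR.lean`; `ln`, `AR`, `xx`, `GG`,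
`BR`, `BRh`, `vB`, `RV`, `vR`, `x0`, `gg`, `SolAt`, `relS`, `JJ`, `FinOn`, `rho`, `dg`, `cnt` in `LOWD/Defs.lean`.
-/

set_option autoImplicit false

open Polynomial

namespace LOWD

open CUB

/-! ## 1. Finite homomorphisms and norms -/

/-- LTH. Lengths over a subring. Let `Λ` be the set of the `D`-modules `M` (with the `C`-module structure given by `C → D`) of finite length over `D` such that `length_C M` is finite. CLAIM: for `M ∈ Λ` and every finite set `W` of maximal ideals of `D` which contains the support of `M`,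
`length_C M = ∑_{q ∈ W} length_(D_q) (M_q) * length_C (D / q)`, where the terms with `M_q = 0` are interpreted as `0`. Induction on a composition series (`IsFiniteLength` of Mathlib is an inductive predicate: `M` has a submodule `N` with `M / N` simple and `N` of finite length): lengths over `C` and over `D_q` are additive (`Module.length_eq_add_of_exact`), localisation is exact, and for a simple module
`M ≅ D / q₀`: `length_C M = length_C (D / q₀)`, `M_(q₀) ≅ D_(q₀) / q₀` has length one, `M_q = 0` for `q ≠ q₀` maximal (an element of `q₀` outside `q` acts as zero and invertibly). Apply the claim to `M = D / I` (`D / I` has finite length over `C`, hence over `D`, since `D`-submodules are `C`-submodules; all primes containing `I` are maximal); `len I q` is the length of `D_q / I D_q`, and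
`D_q / I D_q ≅ (D / I)_q`. -/
def S_LTH : Prop := ∀ (C D : Type) [CommRing C] [CommRing D] [Algebra C D] (I : Ideal D),
  Module.length C (D ⧸ I) ≠ ⊤ → ∀ W : Finset (PrimeSpectrum D),
  (∀ q : PrimeSpectrum D, q ∈ W ↔ (q.asIdeal.IsMaximal ∧ I ≤ q.asIdeal)) →
  lC C (D ⧸ I) = ∑ q ∈ W, len I q * lC C (D ⧸ q.asIdeal)

/-- DGL. `C` is local, `C → L` kills the maximal ideal, so its image is a subfield `K₀` of `L`. It contains `ρ(A)` and every element of it is a quotient of elements of `ρ(A)`, so `K₀ = Subfield.closure (range ρ)`. The length of the `C`-module `L` is its length over `C / m` (`Module.length_eq_of_surjective`), the dimension over `K₀` (`Module.length_eq_rank` or `length_eq_finrank`); if the dimension is infinite both sides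
are `0` (`toNat ⊤ = 0`, `finrank = 0`). -/
def S_DGL : Prop := ∀ (A C L : Type) [CommRing A] [CommRing C] [IsLocalRing C] [Field L]
  [Algebra A C] [Algebra C L] (ρ : A →+* L),
  (∀ a : A, ρ a = algebraMap C L (algebraMap A C a)) →
  (∀ x : C, ∃ a b : A, ρ b ≠ 0 ∧ algebraMap C L x * ρ b = ρ a) →
  (∀ x : C, x ∈ IsLocalRing.maximalIdeal C → algebraMap C L x = 0) →
  lC C L = Module.finrank (Subfield.closure (Set.range ρ)) L

/-- FLD. Residue fields of a finite homomorphism outside `V(J)`. `p = φ⁻¹(q)`, `h ∈ J ∖ p`, `M` the finite set given by `FinOn` for `h`. `L = κ(q)`, `F = Subfield.closure (range (rho φ q))`, which is the fraction field of `A / p` (every element of `F` is `ρ a / ρ b`: `Subfield.mem_closure_iff`, or closedness of the set of quotients). `ρ h ≠ 0`. For `b ∈ B`: `h^s b = ∑ φ(c_m) m`, so the image of `b` in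
`L` is in the `F`-span `V` of the (finite) image of `M`. So the `F`-span `B'` of the image of `B` is contained in `V`: a finite dimensional `F`-algebra and a domain (a subalgebra of `L`), so a field, and `L` is the fraction field of the image of `B`, so `L = B'` is finite over `F`. (1); (2) the dimension is not zero; (3) the transcendence degree of `A / p` over `k` is that of `F`, the one of `B / q` is that of `L`, and `L` is algebraic over
`F`; or directly: `A / p → B / q` is injective and every element of `B / q` is algebraic over `A / p`. (4) the norm of a nonzero element `x` to `F` is a nonzero element of `F`, so a quotient of elements of the image of `A`. -/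
def S_FLD : Prop := ∀ (k A B : Type) [Field k] [CommRing A] [CommRing B] [Algebra k A]
  [Algebra k B] (φ : A →ₐ[k] B) (J : Ideal A), FinOn φ J →
  ∀ q : PrimeSpectrum B, ¬ J ≤ (PrimeSpectrum.comap φ.toRingHom q).asIdeal →
  Module.Finite (Subfield.closure (Set.range (rho φ q))) q.asIdeal.ResidueField ∧
  dg φ q ≠ 0 ∧ rdim k (PrimeSpectrum.comap φ.toRingHom q) = rdim k q ∧
  ∀ x : q.asIdeal.ResidueField, x ≠ 0 → ∃ c d : A, IsNm (rho φ q) x c d

/-- FPD. Push-forward of a divisor. `P = φ⁻¹(Q)`, of dimension `n + 1` by S_FLD. `c, d ∉ P` since `IsNm` says `ρ c, ρ d ≠ 0` and the kernel of `ρ = rho φ Q` is `P`. If `P ⊄ p` both sides are `0` (S_LENC (2); if `q ∈ W` and `Q ⊆ q` then `P ⊆ p`). Let `P ⊆ p`, `T` the image of `A ∖ p` in `B / Q` (`P ⊆ p`, so `0 ∉ T`), `D` the localisation of `B / Q` at `T`, and `C` the localisation of `A / P` at the prime `p / P`: a Noetherian local domain,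
`C / x` has finite length for `x ≠ 0` (see the proof of S_LENC, `R_GREC.lean`, `R_NM.lean`: dimension one). `C → D` is injective and `D` is finite over `C`: for `h ∈ J ∖ p`, `h` is a unit in `C`, so `FinOn` gives generators. The fraction fields are `F = Subfield.closure (range ρ)` and `L = κ(Q)`, `L` finite over `F` (S_FLD). S_NORM for `C → D`, `x` = image of `b`, gives `length_C (D / b) + length_C (C / d) = length_C (C / c)`.
All lengths are finite. S_LTH for `I = (b)`: `length_C (D / b) = ∑_m len (b) m * length_C (D / m)`, the sum over the maximal ideals `m` of `D` containing `b`. Maximal ideals of `D` lie over the maximal ideal of `C` (integral), and the primes of `D` over the maximal ideal of `C` are maximal and correspond to the primes `q` of `B` with `q ⊇ Q`, `φ⁻¹(q) = p`; they have dimension `n` by S_FLD. `len (b) m = len (Q ⊔ (b)) q` (S_LENA for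
`B → B / Q`, S_LENB for the localisation `B / Q → D`, as in `R_GREC.lean`), `length_C (D / m) = dg φ q`: `D / m` is a field, isomorphic to `κ(q)` over `B` (both are generated as fields by the image of `B`, with kernel `q`), use S_DGL for `A → C → D / m`. `length_C (C / c) = len (P ⊔ (c)) p` by S_LENA, S_LENB (`C` is its own localisation at its maximal ideal). The terms of the sum over `W` with `q ⊉ Q` or `b ∉ q` are zero (S_LENC (2)). -/
def S_FPD : Prop := ∀ (k A B : Type) [Field k] [CommRing A] [CommRing B] [Algebra k A]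
  [Algebra k B] [Algebra.FiniteType k A] [Algebra.FiniteType k B] (φ : A →ₐ[k] B) (J : Ideal A),
  FinOn φ J → ∀ (n : ℕ) (Q : RP k B (n + 1)) (b : B) (c d : A), b ∉ Q.1.asIdeal →
  ¬ J ≤ (PrimeSpectrum.comap φ.toRingHom Q.1).asIdeal →
  IsNm (rho φ Q.1) (algebraMap B Q.1.asIdeal.ResidueField b) c d →
  ∀ p : RP k A n, ¬ J ≤ p.1.asIdeal → ∀ W : Finset (RP k B n),
  (∀ q ∈ W, PrimeSpectrum.comap φ.toRingHom q.1 = p.1) →
  (∀ q : RP k B n, PrimeSpectrum.comap φ.toRingHom q.1 = p.1 → Q.1.asIdeal ≤ q.1.asIdeal →
    b ∈ q.1.asIdeal → q ∈ W) →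
  ∑ q ∈ W, len (Q.1.asIdeal ⊔ Ideal.span {b}) q.1 * dg φ q.1 +
    len ((PrimeSpectrum.comap φ.toRingHom Q.1).asIdeal ⊔ Ideal.span {d}) p.1 =
    len ((PrimeSpectrum.comap φ.toRingHom Q.1).asIdeal ⊔ Ideal.span {c}) p.1

def M_FPD : Prop := S_DIM1 → S_DIM2 → S_LENA → S_LENB → S_LENC → S_NORM → S_LTH → S_DGL → S_FLD →
  S_FPD

open Classical in
/-- FPR. Push-forward of rational equivalences outside `V(J)`. The set of `z'` with the property is a subspace (linearity: `Finsupp.sum`), so let `z'` be the divisor of `b` on `V(Q)`. If `J ⊆ φ⁻¹(Q)` take `z = 0`: if `z' q ≠ 0` then `Q ⊆ q` (S_LENC (2)), so `J ⊆ φ⁻¹(q)`. Otherwise choose `c, d` with `IsNm` (S_FLD (4), `x` = image of `b`), `P = φ⁻¹(Q)` has dimension `n + 1` (S_FLD (3)), `c, d ∉ P`, let `z` be the divisor of `c` minus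
the divisor of `d` on `V(P)` (S_DVX). S_FPD with `W` = the `q` in the support of `z'` with `φ⁻¹(q) = p` (if `Q ⊆ q`, `b ∈ q` then `z' q ≠ 0` by S_LENC (3) since the characteristic of `E` is zero). -/
def S_FPR : Prop := ∀ (k A B E : Type) [Field k] [CommRing A] [CommRing B] [Algebra k A]
  [Algebra k B] [Algebra.FiniteType k A] [Algebra.FiniteType k B] [Field E] [CharZero E]
  (φ : A →ₐ[k] B) (J : Ideal A), FinOn φ J → ∀ (n : ℕ) (z' : RP k B n →₀ E), z' ∈ rat k B E n →
  ∃ z ∈ rat k A E n, ∀ p : RP k A n, ¬ J ≤ p.1.asIdeal →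
    z p = z'.sum (fun q e => if PrimeSpectrum.comap φ.toRingHom q.1 = p.1 then (dg φ q.1 : E) * e
      else 0)

def M_FPR : Prop := S_LENC → S_DVX → S_FLD → S_FPD → S_FPR

/-! ## 2. Zero-cycles -/

/-- CLF. Finiteness of the class group. Noether normalisation (`exists_integral_inj_algHom_of_fg`): an injective integral homomorphism `MvPolynomial (Fin s) k → B`; `s = trdeg k B = 1`, so an injective integral homomorphism `k[X] → B`. `B` is a finite module over `k[X]` (integral and of finite type), without torsion, so free. `k[X]` is a Euclidean domain with the admissible absolute value `Polynomial.cardPowDegree` (`Polynomial.cardPowDegreeIsAdmissible`), and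
`ClassGroup.fintypeOfAdmissibleOfAlgebraic` (or `ClassGroup.mkMMem_surjective`) applies: no separability is needed there. -/
def S_CLF : Prop := ∀ (k B : Type) [Field k] [Finite k] [CommRing B] [IsDedekindDomain B]
  [Algebra k B] [Algebra.FiniteType k B], Algebra.trdeg k B = 1 → Finite (ClassGroup B)

/-- CLG. Points on curves over a finite field are torsion. `D = A / q`, `K` its fraction field, `B` the integral closure of `D` in `K`, finite over `D` by S_FIN (a finite field is perfect), `φ : A → B`; so `FinOn φ ⊤` (`B` is a finite `A`-module) and `B` is of finite type over `k`. `0 ∈ RP k B 1` by S_FLD (3) (`φ⁻¹(0) = q`). `B` is a Dedekind domain: Noetherian, integrally closed, nonzero primes are maximal (S_DIM1: dimension zero, and a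
larger prime would have negative dimension). Let `P'` be a prime of `B` over `p` (lying over, `B` is integral over `D`), of dimension zero. By S_CLF some power `P' ^ h`, `h > 0`, is principal, generated by `b ≠ 0`. Let `c` be the divisor of `b` on `V(0)` (S_DVX): if `c P'' ≠ 0` then `b ∈ P''` (S_LENC (2)), so `P' ⊆ P''` and `P'' = P'` (S_DIM1), and `c P' ≠ 0` by S_LENC (3) and `CharZero E`. So `c = c(P') [P']` is in `rat`, and S_FPR for `J = ⊤`
gives `dg φ P' * c(P') [p] ∈ rat`, with `dg φ P' ≠ 0` (S_FLD). -/
def S_CLG : Prop := ∀ (k A E : Type) [Field k] [Finite k] [CommRing A] [Algebra k A]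
  [Algebra.FiniteType k A] [Field E] [CharZero E] (q : RP k A 1) (p : RP k A 0),
  q.1.asIdeal ≤ p.1.asIdeal → Finsupp.single p (1 : E) ∈ rat k A E 0

def M_CLG : Prop := S_DIM1 → S_LENC → S_DVX → S_FIN → S_FLD → S_FPR → S_CLF → S_CLG

/-- HTM. Krull. The height of a maximal ideal of `K[σ]` is the number `s` of variables (`Polynomial.height_eq_height_add_one` and induction, or S_DIM2 over the field `K` and chains: `trdeg K[σ] = s`). If there is no such `q` then `m` is a minimal prime over the ideal generated by the `F i`, so its height is at most `|κ| < s` (`Ideal.height_le_card_of_mem_minimalPrimes_span` or similar). -/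
def S_HTM : Prop := ∀ (K σ κ : Type) [Field K] [Fintype σ] [Fintype κ]
  (F : κ → MvPolynomial σ K) (m : Ideal (MvPolynomial σ K)), m.IsMaximal → (∀ i, F i ∈ m) →
  Fintype.card κ < Fintype.card σ →
  ∃ q : Ideal (MvPolynomial σ K), q.IsPrime ∧ q < m ∧ ∀ i, F i ∈ q

/-- ZER. Zero-cycles. It is enough to treat `[p]` for `p ∈ RP k (AR f) 0`. Let `P` be the preimage of `p` in `R[σ]`, `m = P ∩ R`. `R / m ⊆ R[σ] / P` are algebraic over `k` (transcendence degree zero), so fields; `K = R / m`. The image `P'` of `P` in `K[σ]` is a maximal ideal (`K[σ] / P' = R[σ] / P`). For `i ∉ S` the image of `f i = C c` in `K[σ]` is zero since `c ∈ m`. S_HTM for the images of the `f i`, `i ∈ S`, gives a prime `Q' < P'` containing the images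
of all `f i`; its preimage in `R[σ]` contains all `f i` and is strictly contained in `P`; let `q₀ < p` be its image, a prime of `AR f`. The ring is Noetherian, so there is a maximal element `q` among the primes with `q₀ ≤ q < p`; it is covered by `p`, so its dimension is `1` by S_DIM2. S_CLG. -/
def S_ZER : Prop := ∀ (k R E σ ι : Type) [Field k] [Finite k] [CommRing R] [Algebra k R]
  [Algebra.FiniteType k R] [Field E] [CharZero E] [Fintype σ] [Fintype ι]
  (f : ι → MvPolynomial σ R) (S : Finset ι), (∀ i, i ∉ S → ∃ c : R, f i = MvPolynomial.C c) →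
  S.card < Fintype.card σ → ∀ c : RP k (AR f) 0 →₀ E, c ∈ rat k (AR f) E 0

def M_ZER : Prop := S_DIM1 → S_DIM2 → S_HTM → S_CLG → S_ZER

/-! ## 3. Forms -/

/-- KRU. `K = κ(p)`, `F i ∈ K[σ]` the image of `G i`. `m` = the ideal of the polynomials vanishing at the origin, a maximal ideal, the ideal generated by the variables; `F i ∈ m` since `F i` is homogeneous of positive degree. S_HTM: a prime `q < m` containing all `F i`. Some variable `X j` is not in `q`. By the Nullstellensatz (`MvPolynomial.IsPrime.vanishingIdeal_zeroLocus` for the field extension `AlgebraicClosure K` of `K`; it is stated for an extension `K` of `k`)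
there is a zero `w` of `q` with `w j ≠ 0`. -/
def S_KRU : Prop := ∀ (A σ κ : Type) [CommRing A] [Fintype σ] [Fintype κ]
  (G : κ → MvPolynomial σ A) (e : κ → ℕ), (∀ i, (G i).IsHomogeneous (e i)) → (∀ i, 0 < e i) →
  Fintype.card κ < Fintype.card σ → ∀ p : PrimeSpectrum A, SolAt G Set.univ p

def M_KRU : Prop := S_HTM → S_KRU

/-- NUL. Let there be no nonzero solution at `p`. `K = κ(p)`, `K' = AlgebraicClosure K`, `I` the ideal of `K[σ]` generated by the images `F i` of the `G i` and the `X j`, `j ∉ S`. Its zeros over `K'` are contained in `{0}`, so by the Nullstellensatz (`MvPolynomial.vanishingIdeal_zeroLocus_eq_radical`) a power of every variable is in `I`, and all monomials of degree `≥ N` are in `I` for some `N` (for instance `N = ∑ N_j`). Let `B' = A[σ] / relS G S`, `θ : A[σ] → B'[T]` the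
homomorphism `X j ↦ x_j T`, `x_j` the class of `X j`. As `G i` is homogeneous, `θ(G i) = G i(x) T^(e i) = 0`, `θ(X j) = 0` for `j ∉ S`, so `θ` is zero on `relS G S`. Let `m` be a monomial of degree `N`. It is in `I`; clear denominators (elements of `K` are quotients of elements of `A / p`): there is `s ∉ p` and `s m ∈ relS G S + p A[σ]`. Write `s m = r + ∑_u π_u u`, a sum over monomials `u` with `π_u ∈ p`. The coefficient of `T^N` in `θ` of it:
`s m = ∑_{deg u = N} π_u u` in `B'`. So there is `s ∉ p` with `s W ⊆ p W`, where `W` is the (finitely generated) `A`-submodule of `B'` generated by the monomials of degree `N` (take the product of the `s` for the finitely many monomials). Cayley-Hamilton (determinant trick) for multiplication by `s` on `W` (`LinearMap.exists_monic_and_coeff_mem_pow_and_aeval_eq_zero_of_range_le_smul`, or Nakayama over the localisation `A_p`, or over `A[1/s]`): there is `h ∈ s^r + p`, so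
`h ∉ p`, with `h W = 0`. So `monomial m h ∈ relS G S` for all `m` of degree `N`, and hence for all `m` of degree `≥ N`: `h ∈ JJ G S`, `h ∉ p`. -/
def S_NUL : Prop := ∀ (A σ κ : Type) [CommRing A] [Fintype σ]
  (G : κ → MvPolynomial σ A) (e : κ → ℕ), (∀ i, (G i).IsHomogeneous (e i)) → ∀ (S : Set σ)
  (p : PrimeSpectrum A), ¬ SolAt G S p → ¬ JJ G S ≤ p.asIdeal

/-- FNT. `v j` = the class of `X j` in `BR G S a` (`vB G S a j`): `v a = 1`, `v j = 0` for `j ∉ S`, `j ≠ a`. `θ : A[σ] → (BR G S a)[T]`, `X j ↦ (v j) T`. `θ(G i) = G i(v) T^(e i) = 0`, `θ(X j) = 0` for `j ∉ S`, `j ≠ a`, `θ(X a) = T`. So every element of `θ(relS G S)` is `T * θ(F)` for some `F ∈ A[σ]` (span induction, or: `relS G S` is generated by `X a`, and elements in the kernel). For a monomial `m` the element `θ(monomial m c)` is `c v^m T^|m|`, so the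
coefficient of `T^D` in `θ(F)` is in the `A`-span `V_D` of the `v^m` with `|m| = D`. Let `h ∈ JJ G S`, with `N ≥ 1` as in the definition. For `|m| = D ≥ N`: `h v^m` is the coefficient of `T^D` in `θ(monomial m h) = T θ(F)`, so `h v^m ∈ V_(D - 1)`. By induction on `D`: for all `m` there is `s` with `h^s v^m ∈ V_0 + ... + V_(N - 1)`, the span of finitely many elements `M`. Every element of `BR G S a` is an `A`-linear combination of the `v^m`. -/
def S_FNT : Prop := ∀ (k A σ κ : Type) [Field k] [CommRing A] [Algebra k A] [Fintype σ]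
  (G : κ → MvPolynomial σ A) (e : κ → ℕ), (∀ i, (G i).IsHomogeneous (e i)) → ∀ (S : Set σ)
  (a : σ), a ∉ S → FinOn (BRh k G S a) (JJ G S)

/-- PTQ. Let `w` be a solution for `insert a S`. `w a ≠ 0`, otherwise it is a solution for `S`. Replace `w` by `w / w a` (the `G i` are homogeneous), so `w a = 1`. The homomorphism `A[σ] → K' = AlgebraicClosure κ(p)`, `X j ↦ w j`, factors through `ψ : BR G S a → K'`; `q` = its kernel. The preimage of `q` in `A` is the kernel of `A → κ(p) → K'`, which is `p`. `BR G S a / q` embeds in `K'`, which is algebraic over `A / p`; so the transcendence degrees of `A / p` and of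
`BR G S a / q` over `k` agree. -/
def S_PTQ : Prop := ∀ (k A σ κ : Type) [Field k] [CommRing A] [Algebra k A]
  (G : κ → MvPolynomial σ A) (e : κ → ℕ), (∀ i, (G i).IsHomogeneous (e i)) → ∀ (S : Set σ)
  (a : σ), a ∉ S → ∀ (n : ℕ) (p : RP k A n), SolAt G (insert a S) p.1 → ¬ SolAt G S p.1 →
  ∃ q : RP k (BR G S a) n, PrimeSpectrum.comap (BRh k G S a).toRingHom q.1 = p.1

/-! ## 4. The equations of lines -/

/-- HOM. The coefficient of `t ^ e` in `ln f (C x) X` is homogeneous of degree `e` (as a polynomial in the variables `v j = X j`): the set of `g` in `R[σ]` for which this holds for all `e` contains constants (`e = 0` and coefficient `C r`, zero for `e > 0`), is closed under sums, and under multiplication by a variable: `(C (x j) + X j t) * ∑ a_e t^e` has coefficients `C (x j) a_e + X j a_(e-1)` — so it is better to use the set of polynomials in `t` whose coefficient at `t^e` is homogeneous of degree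
`e` for all `e`: it is closed under sums and products, and contains `C (x j) + X j t` and the constants. -/
def S_HOM : Prop := ∀ (ι σ R : Type) [CommRing R] (f : ι → MvPolynomial σ R) (d : ι → ℕ)
  (ie : Σ i, Fin (d i)), (GG f d ie).IsHomogeneous (ie.2 + 1)

/-- DEG. Call `F ∈ R'[x'][t]` of size `≤ D` if for all `e` the coefficient of `t^e` is zero or `e + totalDegree (coefficient) ≤ D`. Sums: maximum; products: the sizes add; `x0 j + v j t` has size `≤ 1`, constants size `≤ 0`; so a monomial `c ∏ (x0 j + v j t)^(m j)` has size `≤ ∑ m j`, and `ln f ..` has size `≤ totalDegree f`. -/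
def S_DEG : Prop := ∀ (ι σ R : Type) [CommRing R] (f : ι → MvPolynomial σ R) (d : ι → ℕ)
  (S : Set σ) (a : σ), (∀ i, (f i).totalDegree ≤ d i) → ∀ ie : Σ i, Fin (d i + 1),
  (gg f d S a ie).totalDegree ≤ d ie.1 - ie.2

/-- SUB. The substitution `x = x' + y v`, where `x' a = 0`, `y = x a`. `B = BR (GG f d) S a` is the ring of pairs `(x, v)`, `v ∈ RV`, such that all coefficients of `f i (x + t v)` vanish: in `B[t]` we have `ln (f i) x v = 0` (coefficient `0` is `f i(x) = 0` by `ln_coeff_zero`, coefficients `1, ..., d i` are the relations, use `ln_map`, and the others vanish by `ln_coeff_eq_zero`). `C' = AR (gg f d S a)`, in which `ln (f i) x' v = 0` in `C'[t]` (the same; `x' a = 0`). Homomorphisms (of `R`-algebras): `Φ : B → C'[X]`: on `AR f`: `x j ↦ x' j + v j X`; well defined because `f i (x' + X v)`, an element of `C'[X]`, is `ln (f i) x' v = 0`;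
`v j ↦ v j`; the relation: the coefficients (with respect to `t`) of `ln (f i) (x' + X v) v`, which is `(ln (f i) x' v).comp (t + X)` by `ln_shift`, vanish (coefficients in `C'[X]`, use `ln_map` for `C' → C'[X]`). `Ψ : C'[X] → B`: `v j ↦ v j` (`RV → B`), `x' j ↦ x j - x a * v j` (`j ≠ a`; this is `0` for `j = a`, as `v a = 1`), well defined because `ln (f i) (x - x a v) v = (ln (f i) x v).comp (t - x a) = 0` in `B[t]`; `X ↦ x a`. `Φ ∘ Ψ` and `Ψ ∘ Φ` are the identity on generators: `x' j ↦ x j - x a v j ↦ x' j + v j X - (x' a + v a X) v j = x' j`;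
`X ↦ x a ↦ x' a + v a X = X`; `x j ↦ x' j + v j X ↦ x j - x a v j + v j x a = x j`. Restrict scalars to `k`. -/
def S_SUB : Prop := ∀ (k R ι σ : Type) [Field k] [CommRing R] [Algebra k R]
  (f : ι → MvPolynomial σ R) (d : ι → ℕ) (S : Set σ) (a : σ), (∀ i, (f i).totalDegree ≤ d i) →
  Nonempty (BR (GG f d) S a ≃ₐ[k] (AR (gg f d S a))[X])

/-- CNT. (1) `∑_{m = 1}^{d} (l + m - 1 choose l) = (l + d choose l + 1)` (hockey stick, `Nat.sum_range_choose_...` or induction on `d` with `Fin.sum_univ_succ`); for `d = 0` both sides are `0`. (2) `(l + d choose l + 1) = (l + d choose d - 1) ≥ d` for `d ≥ 1`. (3) Pascal. -/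
def S_CNT : Prop := (∀ l d : ℕ, ∑ e : Fin (d + 1), cnt l (d - e) = cnt (l + 1) d) ∧
  (∀ l d : ℕ, d ≤ cnt (l + 1) d) ∧ (∀ l d : ℕ, cnt l d ≤ cnt (l + 1) d)

/-! ## 5. The theorem -/

/-- The theorem in dimension `l`. -/
def LowR (l : ℕ) : Prop := ∀ (k R E σ ι : Type) [Field k] [Finite k] [CommRing R] [Algebra k R]
  [Algebra.FiniteType k R] [Field E] [CharZero E] [Fintype σ] [Fintype ι]
  (f : ι → MvPolynomial σ R) (d : ι → ℕ), (∀ i, (f i).totalDegree ≤ d i) →
  l + ∑ i, cnt l (d i) < Fintype.card σ → ∀ c : RP k (AR f) l →₀ E, c ∈ rat k (AR f) E l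

/-- CB. By S_SUB, S_PCO (3) (isomorphisms preserve `rat`; push-forward along an isomorphism is surjective) it is enough to treat the ring `C'[X]`, `C' = AR (gg f d S a)`. `C'` is of the form of the theorem: base ring `RV R S a`, variables `{j // j ≠ a}` (their number is `|σ| - 1`), equations `gg f d S a` with degrees `≤ d i - e` (S_DEG), and `l + ∑_(i, e) cnt l (d i - e) = l + ∑_i cnt (l + 1) (d i) < |σ| - 1` (S_CNT (1), `Fintype.sum_sigma`). So all cycles of dimension `l` on `C'` are in `rat`. By S_L0 (1) a cycle of dimension `l + 1` on `C'[X]` is, modulo `rat`, the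
pull-back of a cycle of dimension `l` on `C'`, which is in `rat`, so its pull-back is (S_FP with `I = ⊥`, S_GX (1)). -/
def S_CB : Prop := ∀ l : ℕ, LowR l → ∀ (k R E σ ι : Type) [Field k] [Finite k] [CommRing R]
  [Algebra k R] [Algebra.FiniteType k R] [Field E] [CharZero E] [Fintype σ] [Fintype ι]
  (f : ι → MvPolynomial σ R) (d : ι → ℕ), (∀ i, (f i).totalDegree ≤ d i) →
  l + 1 + ∑ i, cnt (l + 1) (d i) < Fintype.card σ → ∀ (S : Set σ) (a : σ)
  (c : RP k (BR (GG f d) S a) (l + 1) →₀ E), c ∈ rat k (BR (GG f d) S a) E (l + 1)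

def M_CB : Prop := S_PCO → S_PLIN → S_L0 → S_GX → S_FP → S_SUB → S_DEG → S_CNT → S_CB

/-- STP. `LowR l` implies `LowR (l + 1)`. `A = AR f`, `G = GG f d` (homogeneous of degrees `e + 1 > 0` by S_HOM). CLAIM: for every `S ⊆ σ` and `p ∈ RP k A (l + 1)` with `SolAt G S p` we have `[p] ∈ rat`. Induction on the finite set `S`. `S = ∅`: there is no nonzero solution. `insert a S`, `a ∉ S`: if `SolAt G S p` use the claim for `S`. Otherwise S_PTQ gives `q ∈ RP k (BR G S a) (l + 1)` over `p`, and `J = JJ G S` is not contained in `p` by S_NUL. `[q] ∈ rat` by S_CB. `FinOn (BRh k G S a) J` by S_FNT. S_FPR for `z' = [q]`: `z ∈ rat` with `z p = dg q` and `z p' = 0` for `p' ≠ p`, `J ⊄ p'`.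
So `z - dg q [p]` is a combination of the `[p']` with `J ⊆ p'`, which satisfy `SolAt G S p'` by S_NUL, so they are in `rat`. `dg q ≠ 0` by S_FLD. Finally every `p` satisfies `SolAt G Set.univ p` by S_KRU: the number of the forms is `∑ d i ≤ ∑ cnt (l + 1) (d i) < |σ|` (S_CNT (2)). -/
def S_STP : Prop := ∀ l : ℕ, LowR l → LowR (l + 1)

def M_STP : Prop := S_FLD → S_FPR → S_KRU → S_NUL → S_FNT → S_PTQ → S_HOM → S_CNT → S_CB → S_STP

/-- ALL. `LowR 0`: S_ZER with `S = {i | d i ≠ 0}`: `cnt 0 d = 1` for `d ≠ 0`; `totalDegree (f i) = 0` implies that `f i` is constant. Induction by S_STP; if `j ≤ l` the condition for `l` implies the one for `j` (S_CNT (3)). -/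
def S_ALL : Prop := ∀ (k R E σ ι : Type) [Field k] [Finite k] [CommRing R] [Algebra k R]
  [Algebra.FiniteType k R] [Field E] [CharZero E] [Fintype σ] [Fintype ι]
  (f : ι → MvPolynomial σ R) (d : ι → ℕ), (∀ i, (f i).totalDegree ≤ d i) → ∀ l : ℕ,
  l + ∑ i, cnt l (d i) < Fintype.card σ → ∀ j ≤ l, ∀ c : RP k (AR f) j →₀ E,
  c ∈ rat k (AR f) E j

def M_ALL : Prop := S_ZER → S_STP → S_CNT → S_ALL

end LOWD
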