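import Mathlib
import Pool.Agent.LOWD.Stmts

/-!
# LOWD, module CLF: the class group of a curve over a finite field is finite
-/

set_option autoImplicit false

open Polynomial

namespace LOWD

namespace CLF

/-- The class group is finite if the ring is a finite module over the polynomial ring. -/
theorem fin_of_poly (k B : Type) [Field k] [Finite k] [CommRing B] [IsDedekindDomain B]
    [Algebra k B] (φ : k[X] →ₐ[k] B) (hi : Function.Injective φ) (hf : φ.Finite) :
    Finite (ClassGroup B) := by
  classical
  let _ : Fintype k := Fintype.ofFinite k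
  let _ : Algebra k[X] B := φ.toRingHom.toAlgebra
  have : Module.Finite k[X] B := hf
  have : FaithfulSMul k[X] B := (faithfulSMul_iff_algebraMap_injective k[X] B).mpr hi
  have : Module.IsTorsionFree k[X] B := inferInstance
  have : Module.Free k[X] B := Module.free_of_finite_type_torsion_free'
  have : Algebra.IsIntegral k[X] B := Algebra.IsIntegral.of_finite k[X] B
  have : Algebra.IsAlgebraic k[X] B := Algebra.IsIntegral.isAlgebraic
  exact @Finite.of_fintype _ (ClassGroup.fintypeOfAdmissibleOfAlgebraic
    (Module.Free.chooseBasis k[X] B) (Polynomial.cardPowDegreeIsAdmissible :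
      AbsoluteValue.IsAdmissible (Polynomial.cardPowDegree : AbsoluteValue k[X] ℤ)))

end CLF

theorem t_CLF : S_CLF := by
  intro k B _ _ _ _ _ _ ht
  obtain ⟨s, g, hi, hf⟩ := exists_finite_inj_algHom_of_fg k B
  have hs : s = 1 := by
    let _ : Algebra (MvPolynomial (Fin s) k) B := g.toRingHom.toAlgebra
    have : IsScalarTower k (MvPolynomial (Fin s) k) B := IsScalarTower.of_algebraMap_eq fun x =>
      (g.commutes x).symm
    have : Module.Finite (MvPolynomial (Fin s) k) B := hf
    have : FaithfulSMul (MvPolynomial (Fin s) k) B :=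
      (faithfulSMul_iff_algebraMap_injective _ _).mpr hi
    have : Algebra.IsIntegral (MvPolynomial (Fin s) k) B := Algebra.IsIntegral.of_finite _ _
    have : Algebra.IsAlgebraic (MvPolynomial (Fin s) k) B := Algebra.IsIntegral.isAlgebraic
    have h1 := trdeg_add_eq k (MvPolynomial (Fin s) k) (A := B)
    rw [MvPolynomial.trdeg_of_isDomain, trdeg_eq_zero, ht, add_zero] at h1
    simpa using h1
  subst hs
  let e : MvPolynomial (Fin 1) k ≃ₐ[k] k[X] :=
    MvPolynomial.uniqueAlgEquiv k (Fin 1)
  refine CLF.fin_of_poly k B (g.comp e.symm.toAlgHom) ?_ ?_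
  · exact hi.comp e.symm.injective
  · have h2 : (e.symm : k[X] →+* MvPolynomial (Fin 1) k).Finite :=
      RingHom.Finite.of_surjective _ e.symm.surjective
    exact RingHom.Finite.comp hf h2

end LOWD
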