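import Pool.Agent.LOWD.Stmts

/-!
# LOWD, module CLG: points on curves over a finite field are torsion
-/

set_option autoImplicit false

namespace LOWD

open CUB

namespace CLG

open Classical

section Core

variable {k A B E : Type} [Field k] [Finite k] [CommRing A] [CommRing B] [Algebra k A]
  [Algebra k B] [Algebra.FiniteType k A] [Algebra.FiniteType k B] [Field E] [CharZero E]

lemma not_top_le (p : PrimeSpectrum A) : ¬ (⊤ : Ideal A) ≤ p.asIdeal :=
  fun h => p.2.ne_top (top_le_iff.1 h)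

/-- the case of a finite homomorphism to a Dedekind domain of dimension one -/
lemma core (hDIM1 : S_DIM1) (hLENC : S_LENC) (hDVX : S_DVX) (hFLD : S_FLD) (hFPR : S_FPR)
    (hCLF : S_CLF) [IsDomain B] [IsNoetherianRing B] [IsIntegrallyClosed B] (φ : A →ₐ[k] B)
    (hfin : FinOn φ ⊤) (q : RP k A 1) (p : RP k A 0)
    (P0 : PrimeSpectrum B) (hP0 : P0.asIdeal = ⊥)
    (hq : PrimeSpectrum.comap φ.toRingHom P0 = q.1)
    (P : PrimeSpectrum B) (hP : PrimeSpectrum.comap φ.toRingHom P = p.1) :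
    Finsupp.single p (1 : E) ∈ rat k A E 0 := by
  have hdim : ∀ Q : PrimeSpectrum B, rdim k (PrimeSpectrum.comap φ.toRingHom Q) = rdim k Q :=
    fun Q => (hFLD k A B φ ⊤ hfin Q (not_top_le _)).2.2.1
  have h0 : rdim k P0 = 1 := by
    rw [← hdim P0, hq]
    exact_mod_cast q.2
  have hPd : rdim k P = 0 := by
    rw [← hdim P, hP]
    exact_mod_cast p.2
  have hmax : ∀ Q : PrimeSpectrum B, Q.asIdeal ≠ ⊥ → Q.asIdeal.IsMaximal ∧ rdim k Q = 0 := by
    intro Q hQ
    have h1 : P0 < Q := by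
      refine lt_of_le_of_ne ?_ ?_
      · change P0.asIdeal ≤ Q.asIdeal
        rw [hP0]
        exact bot_le
      · rintro rfl
        exact hQ hP0
    have h2 := (hDIM1 k B P0).2 Q h1
    rw [h0] at h2
    have h3 : rdim k Q = 0 := Cardinal.lt_one_iff.1 h2
    refine ⟨?_, h3⟩
    obtain ⟨m, hm, hle⟩ := Q.asIdeal.exists_le_maximal Q.2.ne_top
    by_cases h4 : Q.asIdeal = m
    · rw [h4]
      exact hm
    · have h5 : Q < ⟨m, hm.isPrime⟩ := lt_of_le_of_ne hle fun h => h4 (congrArg _ h)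
      have h6 := (hDIM1 k B Q).2 _ h5
      rw [h3] at h6
      exact absurd h6 (by simp)
  have hdle : Ring.DimensionLEOne B :=
    ⟨fun {Q} hQ hQp => (hmax ⟨Q, hQp⟩ hQ).1⟩
  have : IsDedekindDomain B := { }
  have htr : Algebra.trdeg k B = 1 := by
    have e : (B ⧸ P0.asIdeal) ≃ₐ[k] B := by
      rw [hP0]
      exact AlgEquiv.quotientBot k B
    rw [← AlgEquiv.trdeg_eq e]
    exact h0
  have hcl : Finite (ClassGroup B) := hCLF k B htr
  have hPne : P.asIdeal ≠ ⊥ := by
    intro h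
    have h1 : P = P0 := PrimeSpectrum.ext (h.trans hP0.symm)
    rw [h1, h0] at hPd
    exact one_ne_zero hPd
  -- a power of `P` is principal
  obtain ⟨n, hn, b, hb⟩ : ∃ n : ℕ, 0 < n ∧ ∃ b : B, P.asIdeal ^ n = Ideal.span {b} := by
    let I : nonZeroDivisors (Ideal B) := ⟨P.asIdeal, mem_nonZeroDivisors_of_ne_zero hPne⟩
    have h1 := isOfFinOrder_of_finite (ClassGroup.mk0 I)
    obtain ⟨n, hn, h2⟩ := isOfFinOrder_iff_pow_eq_one.1 h1
    rw [← map_pow, ClassGroup.mk0_eq_one_iff] at h2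
    obtain ⟨b, hb⟩ := h2
    exact ⟨n, hn, b, hb⟩
  have hb0 : b ≠ 0 := by
    rintro rfl
    rw [Ideal.span_singleton_eq_bot.2 rfl] at hb
    exact hPne (pow_eq_zero_iff (M₀ := Ideal B) hn.ne' |>.1 hb)
  have hbP : b ∈ P.asIdeal := by
    have h1 : b ∈ P.asIdeal ^ n := by
      rw [hb]
      exact Ideal.mem_span_singleton_self b
    exact Ideal.pow_le_self hn.ne' h1
  have hPmem : ∀ Q : PrimeSpectrum B, b ∈ Q.asIdeal → rdim k Q = 0 → Q = P := by
    intro Q hQ _
    have h1 : P.asIdeal ^ n ≤ Q.asIdeal := by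
      rw [hb, Ideal.span_singleton_le_iff_mem]
      exact hQ
    have h2 : P.asIdeal ≤ Q.asIdeal := Q.2.le_of_pow_le h1
    exact PrimeSpectrum.ext ((hmax P hPne).1.eq_of_le Q.2.ne_top h2).symm
  let q0 : RP k B (0 + 1) := ⟨P0, by rw [h0]; norm_num⟩
  let P1 : RP k B 0 := ⟨P, by rw [hPd]; norm_num⟩
  have hbq : b ∉ q0.1.asIdeal := by
    change b ∉ P0.asIdeal
    rw [hP0]
    exact hb0
  obtain ⟨c, hc⟩ := hDVX k B E 0 q0 b hbq
  have hcrat : c ∈ rat k B E 0 := Submodule.subset_span ⟨q0, b, bot_le, hbq, hc⟩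
  have hcP : c P1 ≠ 0 := by
    rw [hc P1]
    have h1 := (hLENC k B 0 q0 P1).2.2.1 b hbq (by
      change P0.asIdeal ≤ P.asIdeal
      rw [hP0]
      exact bot_le) hbP
    exact_mod_cast h1
  have hcs : c = Finsupp.single P1 (c P1) := by
    ext Q
    by_cases hQ : Q = P1
    · rw [hQ, Finsupp.single_eq_same]
    · rw [Finsupp.single_eq_of_ne (by tauto)]
      by_contra hne
      rw [hc Q] at hne
      have h1 : len (q0.1.asIdeal ⊔ Ideal.span {b}) Q.1 ≠ 0 := by
        intro h
        exact hne (by rw [h]; norm_num)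
      have h2 := ((hLENC k B 0 q0 Q).2.1 b h1).2
      have h3 : rdim k Q.1 = 0 := by exact_mod_cast Q.2
      exact hQ (Subtype.ext (hPmem Q.1 h2 h3))
  obtain ⟨z, hz, hzv⟩ := hFPR k A B E φ ⊤ hfin 0 c hcrat
  have hdg : dg φ P ≠ 0 := (hFLD k A B φ ⊤ hfin P (not_top_le _)).2.1
  have hzs : z = Finsupp.single p ((dg φ P : E) * c P1) := by
    ext p'
    rw [hzv p' (not_top_le _), hcs, Finsupp.sum_single_index]
    · rw [Finsupp.single_eq_same]
      change (if PrimeSpectrum.comap φ.toRingHom P = p'.1 then _ else _) = _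
      rw [hP]
      by_cases h : p = p'
      · subst h
        rw [if_pos rfl, Finsupp.single_eq_same]
      · rw [if_neg (fun h' => h (Subtype.ext h')), Finsupp.single_eq_of_ne (by tauto)]
    · split_ifs <;> simp
  have hne : (dg φ P : E) * c P1 ≠ 0 := mul_ne_zero (by exact_mod_cast hdg) hcP
  have h1 : Finsupp.single p (1 : E) = ((dg φ P : E) * c P1)⁻¹ • z := by
    rw [hzs, Finsupp.smul_single, smul_eq_mul, inv_mul_cancel₀ hne]
  rw [h1]
  exact Submodule.smul_mem _ _ hz

end Core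

/-- a finite algebra over a quotient is finite outside the empty set -/
lemma finOn_top {k A B : Type} [Field k] [CommRing A] [CommRing B] [Algebra k A] [Algebra k B]
    (I : Ideal A) [Algebra (A ⧸ I) B] [Module.Finite (A ⧸ I) B] (φ : A →ₐ[k] B)
    (hφ : ∀ a, φ a = algebraMap (A ⧸ I) B (Ideal.Quotient.mk I a)) (J : Ideal A) :
    FinOn φ J := by
  intro h _
  obtain ⟨M, hM⟩ := (Module.Finite.fg_top : (⊤ : Submodule (A ⧸ I) B).FG)
  refine ⟨M, fun b => ?_⟩
  have hb : b ∈ Submodule.span (A ⧸ I) (M : Set B) := by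
    rw [hM]
    exact Submodule.mem_top
  obtain ⟨f, _, hf⟩ := Submodule.mem_span_finset.1 hb
  choose g hg using fun x : A ⧸ I => Ideal.Quotient.mk_surjective (I := I) x
  refine ⟨0, fun m => g (f m), ?_⟩
  rw [pow_zero, one_mul, ← hf]
  refine Finset.sum_congr rfl fun m _ => ?_
  rw [hφ, hg, Algebra.smul_def]

end CLG

open CLG in
/-- **Module CLG** -/
theorem t_CLG : M_CLG := by
  intro hDIM1 hLENC hDVX hFIN hFLD hFPR hCLF k A E _ _ _ _ _ _ _ q p hqp
  have := q.1.2
  have := p.1.2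
  have : PerfectField k := inferInstance
  let D := A ⧸ q.1.asIdeal
  let K := FractionRing D
  let B := integralClosure D K
  have hfinB : Module.Finite D B := hFIN k D K
  have hftD : Algebra.FiniteType k D := finiteType_quo k A q.1.asIdeal
  have : IsScalarTower k D B := inferInstance
  have hftB : Algebra.FiniteType k B := Algebra.FiniteType.trans (S := D) hftD inferInstance
  have : IsNoetherianRing A := Algebra.FiniteType.isNoetherianRing k A
  have : IsNoetherianRing B := IsNoetherianRing.of_finite D B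
  have : IsIntegrallyClosed B := integralClosure.isIntegrallyClosedOfFiniteExtension K
  let φ : A →ₐ[k] B := (IsScalarTower.toAlgHom k D B).comp (Ideal.Quotient.mkₐ k q.1.asIdeal)
  have hφ : ∀ a, φ a = algebraMap D B (Ideal.Quotient.mk q.1.asIdeal a) := fun a => rfl
  have hinj : Function.Injective (algebraMap D B) := by
    have h1 : Function.Injective (algebraMap D K) := IsFractionRing.injective D K
    exact Function.Injective.of_comp (f := algebraMap B K) h1
  have hker : RingHom.ker (algebraMap D B) = ⊥ := (RingHom.injective_iff_ker_eq_bot _).1 hinj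
  have hsurj : Function.Surjective (Ideal.Quotient.mk q.1.asIdeal) := Ideal.Quotient.mk_surjective
  have hcomap : ∀ Q : PrimeSpectrum B, (PrimeSpectrum.comap φ.toRingHom Q).asIdeal =
      (Q.asIdeal.comap (algebraMap D B)).comap (Ideal.Quotient.mk q.1.asIdeal) := fun Q => rfl
  have hpb : (p.1.asIdeal.map (Ideal.Quotient.mk q.1.asIdeal)).IsPrime :=
    Ideal.map_isPrime_of_surjective hsurj (by rw [Ideal.mk_ker]; exact hqp)
  have hpc : (p.1.asIdeal.map (Ideal.Quotient.mk q.1.asIdeal)).comap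
      (Ideal.Quotient.mk q.1.asIdeal) = p.1.asIdeal := by
    rw [Ideal.comap_map_of_surjective _ hsurj, ← RingHom.ker_eq_comap_bot, Ideal.mk_ker,
      sup_eq_left]
    exact hqp
  obtain ⟨P, _, hPp, hPc⟩ := Ideal.exists_ideal_over_prime_of_isIntegral
    (p.1.asIdeal.map (Ideal.Quotient.mk q.1.asIdeal)) (⊥ : Ideal B) (by
      rw [← RingHom.ker_eq_comap_bot, hker]
      exact bot_le)
  refine core (B := B) hDIM1 hLENC hDVX hFLD hFPR hCLF φ
    (finOn_top q.1.asIdeal φ hφ ⊤) q p ⟨⊥, Ideal.isPrime_bot⟩ rfl ?_ ⟨P, hPp⟩ ?_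
  · apply PrimeSpectrum.ext
    rw [hcomap]
    change ((⊥ : Ideal B).comap (algebraMap D B)).comap (Ideal.Quotient.mk q.1.asIdeal) = _
    rw [← RingHom.ker_eq_comap_bot, hker, ← RingHom.ker_eq_comap_bot, Ideal.mk_ker]
  · apply PrimeSpectrum.ext
    rw [hcomap]
    change (P.comap (algebraMap D B)).comap (Ideal.Quotient.mk q.1.asIdeal) = _
    rw [hPc, hpc]

end LOWD
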