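import Pool.Agent.LOWD.Stmts

/-!
# Binomial coefficients
-/

set_option autoImplicit false

namespace LOWD

namespace CNT

theorem cnt_zero (l : ℕ) : cnt l 0 = 0 := by
  unfold cnt
  simp

theorem cnt_succ (l d : ℕ) : cnt l (d + 1) = Nat.choose (l + d) l := by
  unfold cnt
  simp

theorem pascal (l d : ℕ) : cnt l (d + 1) + cnt (l + 1) d = cnt (l + 1) (d + 1) := by
  rw [cnt_succ, cnt_succ]
  cases d with
  | zero => simp [cnt_zero]
  | succ d =>
    rw [cnt_succ, show l + 1 + (d + 1) = (l + (d + 1)) + 1 by omega,
      show l + 1 + d = l + (d + 1) by omega]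
    exact (Nat.choose_succ_succ _ _).symm

theorem pos (l d : ℕ) : 1 ≤ cnt l (d + 1) := by
  rw [cnt_succ]
  exact Nat.choose_pos (by omega)

end CNT

open CNT in
theorem t_CNT : S_CNT := by
  refine ⟨fun l d => ?_, fun l d => ?_, fun l d => ?_⟩
  · induction d with
    | zero => simp [cnt_zero]
    | succ d ih =>
      rw [Fin.sum_univ_succ, ← pascal, ← ih]
      simp
  · induction d with
    | zero => omega
    | succ d ih =>
      have h1 := pascal l d
      have h2 := pos l d
      omega
  · cases d with
    | zero => simp [cnt_zero]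
    | succ d =>
      have h1 := pascal l d
      omega

end LOWD
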