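import Pool.Agent.LOWD.Stmts

/-!
# LOWD, module DEG

The coefficient of `t ^ e` in `f (x + t v)`, as a polynomial in the coordinates `x`, has total
degree at most `deg f - e`.
-/

set_option autoImplicit false

open Polynomial

namespace LOWD

namespace DEG

variable {τ R' : Type} [CommRing R']

/-- All monomials `x ^ m t ^ e` of `F` satisfy `e + |m| ≤ D`. -/
def Sz (D : ℕ) (F : (MvPolynomial τ R')[X]) : Prop :=
  ∀ (e : ℕ) (m : τ →₀ ℕ), MvPolynomial.coeff m (F.coeff e) ≠ 0 → e + m.degree ≤ D

lemma Sz.mono {D D' : ℕ} {F : (MvPolynomial τ R')[X]} (h : Sz D F) (hD : D ≤ D') : Sz D' F :=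
  fun e m hm => (h e m hm).trans hD

lemma Sz.zero (D : ℕ) : Sz D (0 : (MvPolynomial τ R')[X]) := by
  intro e m hm
  simp at hm

lemma Sz.add {D : ℕ} {F G : (MvPolynomial τ R')[X]} (hF : Sz D F) (hG : Sz D G) :
    Sz D (F + G) := by
  intro e m hm
  rw [coeff_add, MvPolynomial.coeff_add] at hm
  by_cases h : MvPolynomial.coeff m (F.coeff e) = 0
  · rw [h, zero_add] at hm
    exact hG e m hm
  · exact hF e m h

lemma Sz.sum {D : ℕ} {α : Type} (s : Finset α) (F : α → (MvPolynomial τ R')[X])
    (h : ∀ i ∈ s, Sz D (F i)) : Sz D (∑ i ∈ s, F i) := by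
  classical
  induction s using Finset.induction_on with
  | empty => simpa using Sz.zero D
  | insert i s hi ih =>
    rw [Finset.sum_insert hi]
    exact (h i (Finset.mem_insert_self i s)).add
      (ih fun j hj => h j (Finset.mem_insert_of_mem hj))

lemma Sz.mul {D E : ℕ} {F G : (MvPolynomial τ R')[X]} (hF : Sz D F) (hG : Sz E G) :
    Sz (D + E) (F * G) := by
  classical
  intro e m hm
  rw [coeff_mul, MvPolynomial.coeff_sum] at hm
  obtain ⟨p, hp, h1⟩ := Finset.exists_ne_zero_of_sum_ne_zero hm
  rw [MvPolynomial.coeff_mul] at h1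
  obtain ⟨q, hq, h2⟩ := Finset.exists_ne_zero_of_sum_ne_zero h1
  have h3 := hF p.1 q.1 (left_ne_zero_of_mul h2)
  have h4 := hG p.2 q.2 (right_ne_zero_of_mul h2)
  rw [Finset.HasAntidiagonal.mem_antidiagonal] at hp hq
  have h5 : m.degree = q.1.degree + q.2.degree := by
    rw [← hq, map_add]
  omega

lemma Sz.one : Sz 0 (1 : (MvPolynomial τ R')[X]) := by
  classical
  intro e m hm
  rw [coeff_one] at hm
  split_ifs at hm with h
  · rw [MvPolynomial.coeff_one] at hm
    split_ifs at hm with h'
    · subst h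
      subst h'
      simp
    · exact absurd rfl hm
  · simp at hm

lemma Sz.pow {D : ℕ} {F : (MvPolynomial τ R')[X]} (hF : Sz D F) (n : ℕ) :
    Sz (n * D) (F ^ n) := by
  induction n with
  | zero => simpa using Sz.one
  | succ n ih =>
    rw [pow_succ]
    exact (ih.mul hF).mono (by rw [Nat.succ_mul])

lemma Sz.prod {α : Type} (s : Finset α) (F : α → (MvPolynomial τ R')[X]) (D : α → ℕ)
    (h : ∀ i ∈ s, Sz (D i) (F i)) : Sz (∑ i ∈ s, D i) (∏ i ∈ s, F i) := by
  classical
  induction s using Finset.induction_on with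
  | empty => simpa using Sz.one
  | insert i s hi ih =>
    rw [Finset.sum_insert hi, Finset.prod_insert hi]
    exact (h i (Finset.mem_insert_self i s)).mul
      (ih fun j hj => h j (Finset.mem_insert_of_mem hj))

lemma Sz.const (c : R') : Sz 0 (C (MvPolynomial.C c) : (MvPolynomial τ R')[X]) := by
  classical
  intro e m hm
  rw [coeff_C] at hm
  split_ifs at hm with h
  · rw [MvPolynomial.coeff_C] at hm
    split_ifs at hm with h'
    · subst h
      subst h'
      simp
    · exact absurd rfl hm
  · simp at hm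

lemma Sz.var (j : τ) : Sz 1 (C (MvPolynomial.X j) : (MvPolynomial τ R')[X]) := by
  classical
  intro e m hm
  rw [coeff_C] at hm
  split_ifs at hm with h
  · rw [MvPolynomial.coeff_X] at hm
    split_ifs at hm with h'
    · subst h
      subst h'
      simp
    · exact absurd rfl hm
  · simp at hm

lemma Sz.t : Sz 1 (X : (MvPolynomial τ R')[X]) := by
  classical
  intro e m hm
  rw [coeff_X] at hm
  split_ifs at hm with h
  · rw [MvPolynomial.coeff_one] at hm
    split_ifs at hm with h'
    · subst h
      subst h'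
      simp
    · exact absurd rfl hm
  · simp at hm

/-- The total degree of the coefficients. -/
lemma Sz.totalDegree_le {D : ℕ} {F : (MvPolynomial τ R')[X]} (h : Sz D F) (e : ℕ) :
    (F.coeff e).totalDegree ≤ D - e := by
  rw [MvPolynomial.totalDegree]
  refine Finset.sup_le fun m hm => ?_
  have h1 := h e m (MvPolynomial.mem_support_iff.mp hm)
  have h2 : (m.sum fun _ n => n) = m.degree := by
    rfl
  omega

variable {σ R : Type} [CommRing R] [Algebra R R']

/-- `ln f x v` has size at most the total degree of `f`, if the `x j` have degree at most `1` and the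
`v j` are constants. -/
lemma sz_ln (f : MvPolynomial σ R) (x : σ → MvPolynomial τ R') (v : σ → R')
    (hx : ∀ j, Sz 1 (C (x j))) :
    Sz f.totalDegree (ln f x (fun j => MvPolynomial.C (v j))) := by
  unfold ln
  rw [MvPolynomial.aeval_def, MvPolynomial.eval₂_eq]
  refine Sz.sum _ _ fun m hm => ?_
  have h1 : Sz 0 (algebraMap R (MvPolynomial τ R')[X] (MvPolynomial.coeff m f)) := by
    rw [Polynomial.algebraMap_apply, MvPolynomial.algebraMap_apply]
    exact Sz.const _
  have h2 : Sz (∑ i ∈ m.support, m i) (∏ i ∈ m.support,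
      (C (x i) + C (MvPolynomial.C (v i)) * X : (MvPolynomial τ R')[X]) ^ m i) := by
    refine Sz.prod _ _ _ fun i _ => ?_
    have h3 : Sz 1 (C (x i) + C (MvPolynomial.C (v i)) * X : (MvPolynomial τ R')[X]) :=
      (hx i).add (by simpa using (Sz.const (τ := τ) (v i)).mul Sz.t)
    simpa using h3.pow (m i)
  refine (h1.mul h2).mono ?_
  rw [zero_add]
  exact MvPolynomial.le_totalDegree hm

end DEG

open DEG in
theorem t_DEG : S_DEG := by
  classical
  intro ι σ R _ f d S a hd ie
  have hx : ∀ j, Sz 1 (C (x0 R S a j)) := by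
    intro j
    unfold x0
    split_ifs with h
    · exact Sz.var _
    · rw [map_zero]
      exact Sz.zero 1
  have h := sz_ln (f ie.1) (x0 R S a) (vR R S a) hx
  exact (h.totalDegree_le ie.2).trans (Nat.sub_le_sub_right (hd ie.1) _)

end LOWD
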