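import Pool.Agent.LOWD.Stmts

/-!
# LOWD: the residue degree as a length (module DGL)
-/

set_option autoImplicit false

namespace LOWD

namespace DGL

/-- The image of a local ring in a field, when the maximal ideal is killed, is a subfield. -/
def imageField (C L : Type) [CommRing C] [IsLocalRing C] [Field L] [Algebra C L]
    (h : ∀ x : C, x ∈ IsLocalRing.maximalIdeal C → algebraMap C L x = 0) : Subfield L where
  toSubring := (algebraMap C L).range
  inv_mem' := by
    rintro y ⟨x, rfl⟩
    by_cases hx : x ∈ IsLocalRing.maximalIdeal C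
    · refine ⟨0, ?_⟩
      rw [h x hx, map_zero, inv_zero]
    · have hu : IsUnit x := by
        by_contra hc
        exact hx ((IsLocalRing.mem_maximalIdeal x).2 hc)
      obtain ⟨u, rfl⟩ := hu
      refine ⟨((u⁻¹ : Cˣ) : C), ?_⟩
      refine eq_inv_of_mul_eq_one_left ?_
      rw [← map_mul, Units.inv_mul, map_one]

theorem mem_imageField (C L : Type) [CommRing C] [IsLocalRing C] [Field L] [Algebra C L]
    (h : ∀ x : C, x ∈ IsLocalRing.maximalIdeal C → algebraMap C L x = 0) (y : L) :
    y ∈ imageField C L h ↔ ∃ x : C, algebraMap C L x = y := Iff.rfl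

end DGL

open DGL in
theorem t_DGL : S_DGL := by
  intro A C L _ _ _ _ _ _ ρ h1 h2 h3
  set K : Subfield L := Subfield.closure (Set.range ρ) with hK
  have hin : ∀ x : C, algebraMap C L x ∈ K := by
    intro x
    obtain ⟨a, b, hb, hab⟩ := h2 x
    have ha' : ρ a ∈ K := Subfield.subset_closure ⟨a, rfl⟩
    have hb' : ρ b ∈ K := Subfield.subset_closure ⟨b, rfl⟩
    have : algebraMap C L x = ρ a / ρ b := by
      rw [← hab]
      field_simp
    rw [this]
    exact K.div_mem ha' hb'
  have hle : K ≤ imageField C L h3 := by
    rw [hK, Subfield.closure_le]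
    rintro _ ⟨a, rfl⟩
    exact (mem_imageField C L h3 _).2 ⟨algebraMap A C a, (h1 a).symm⟩
  let f : C →+* K := (algebraMap C L).codRestrict K.toSubring hin
  letI : Algebra C K := f.toAlgebra
  haveI : IsScalarTower C K L := IsScalarTower.of_algebraMap_eq (fun x => rfl)
  have hs : Function.Surjective (algebraMap C K) := by
    rintro ⟨y, hy⟩
    obtain ⟨x, hx⟩ := (mem_imageField C L h3 y).1 (hle hy)
    exact ⟨x, Subtype.ext hx⟩
  have hl : Module.length C L = Module.length K L :=
    Module.length_eq_of_surjective (R := K) (S := C) (M := L) hs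
  unfold CUB.lC
  rw [hl, Module.length_eq_rank, Module.finrank]
  exact Cardinal.toNat_toENat _

end LOWD
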