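import Pool.Agent.LOWD.Stmts
import Pool.Agent.CUB.R_GTD
import Pool.Agent.CUB.B_INFD

/-!
# LOWD, module FLD: residue fields of a finite homomorphism outside a closed subset
-/

set_option autoImplicit false

namespace LOWD

open CUB

namespace FLD

/-- Elements of the subfield generated by the image of a ring are quotients. -/
lemma exists_frac {A L : Type} [CommRing A] [Field L] (ρ : A →+* L) (x : L)
    (hx : x ∈ Subfield.closure (Set.range ρ)) : ∃ a b : A, ρ b ≠ 0 ∧ x * ρ b = ρ a := by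
  rw [Subfield.mem_closure_iff] at hx
  obtain ⟨y, hy, z, hz, hyz⟩ := hx
  have hcl : Subring.closure (Set.range ρ) = ρ.range := by
    rw [← RingHom.coe_range, Subring.closure_eq]
  rw [hcl] at hy hz
  obtain ⟨b, rfl⟩ := hy
  obtain ⟨c, rfl⟩ := hz
  by_cases hc : ρ c = 0
  · refine ⟨0, 1, by simp, ?_⟩
    rw [hc, div_zero] at hyz
    rw [← hyz]
    simp
  · exact ⟨b, c, hc, by rw [← hyz, div_mul_cancel₀ _ hc]⟩

/-- If the image of `B` is in a finite dimensional subspace then the fraction field is finite. -/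
lemma core {B L : Type} [CommRing B] [Field L] (F : Subfield L) (σ : B →+* L)
    (hfr : ∀ x : L, ∃ b t : B, σ t ≠ 0 ∧ x * σ t = σ b) (M : Finset B)
    (hM : ∀ b : B, σ b ∈ Submodule.span F (σ '' M)) : Module.Finite F L := by
  let S : Subalgebra F L := Algebra.adjoin F (Set.range σ)
  have hS : Subalgebra.toSubmodule S ≤ Submodule.span F (σ '' M) := by
    rw [Algebra.adjoin_eq_span]
    apply Submodule.span_le.mpr
    intro x hx
    have h1 : Submonoid.closure (Set.range σ) ≤ MonoidHom.mrange (σ : B →* L) := by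
      rw [Submonoid.closure_le]
      rintro _ ⟨b, rfl⟩
      exact ⟨b, rfl⟩
    obtain ⟨b, rfl⟩ := h1 hx
    exact hM b
  have hfg : (Subalgebra.toSubmodule S).FG :=
    Submodule.FG.of_le (Submodule.fg_span (M.finite_toSet.image σ)) hS
  have hmem : ∀ b : B, σ b ∈ S := fun b => Algebra.subset_adjoin ⟨b, rfl⟩
  have htop : S = ⊤ := by
    rw [eq_top_iff]
    intro x _
    obtain ⟨b, t, ht, hx⟩ := hfr x
    have h0 : IsIntegral F (σ t) := IsIntegral.of_mem_of_fg S hfg _ (hmem t)
    have h1 : (σ t)⁻¹ ∈ S :=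
      Subalgebra.inv_mem_of_algebraic (A := S) (x := ⟨σ t, hmem t⟩) h0.isAlgebraic
    have h2 : x = σ b * (σ t)⁻¹ := by
      rw [← hx, mul_inv_cancel_right₀ ht]
    rw [h2]
    exact S.mul_mem (hmem b) h1
  rw [htop] at hfg
  exact Module.finite_def.mpr (by simpa using hfg)

end FLD

theorem t_FLD : S_FLD := by
  intro k A B _ _ _ _ _ φ J hJ q hq
  set p := PrimeSpectrum.comap φ.toRingHom q with hp
  obtain ⟨h, hhJ, hhp⟩ := SetLike.not_le_iff_exists.mp hq
  set L := q.asIdeal.ResidueField with hL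
  let σ : B →ₐ[k] L := IsScalarTower.toAlgHom k B L
  have hσ : ∀ b : B, σ b = algebraMap B L b := fun b => rfl
  have hρ : ∀ a : A, rho φ q a = σ (φ a) := fun a => rfl
  have hker : ∀ b : B, σ b = 0 ↔ b ∈ q.asIdeal := fun b =>
    Ideal.algebraMap_residueField_eq_zero
  have hfr : ∀ x : L, ∃ b t : B, σ t ≠ 0 ∧ x * σ t = σ b := by
    intro x
    obtain ⟨⟨b, t⟩, hx⟩ := IsLocalization.surj (nonZeroDivisors (B ⧸ q.asIdeal)) x
    obtain ⟨t, ht⟩ := t
    obtain ⟨b, rfl⟩ := Ideal.Quotient.mk_surjective b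
    obtain ⟨t, rfl⟩ := Ideal.Quotient.mk_surjective t
    refine ⟨b, t, ?_, hx⟩
    rw [Ne, hker, ← Ideal.Quotient.eq_zero_iff_mem]
    exact nonZeroDivisors.ne_zero ht
  have hhL : σ (φ h) ≠ 0 := by
    rw [Ne, hker]
    exact hhp
  let F : Subfield L := Subfield.closure (Set.range (rho φ q))
  have hρF : ∀ a : A, rho φ q a ∈ F := fun a => Subfield.subset_closure ⟨a, rfl⟩
  obtain ⟨M, hM⟩ := hJ h hhJ
  have hfin : Module.Finite F L := by
    refine FLD.core F σ.toRingHom hfr M ?_
    intro b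
    obtain ⟨s, c, hc⟩ := hM b
    have h1 : σ (φ h) ^ s * σ b = ∑ m ∈ M, σ (φ (c m)) * σ m := by
      rw [← map_pow, ← map_mul, hc, map_sum]
      simp only [map_mul]
    have h2 : σ b = ∑ m ∈ M, ((⟨rho φ q (c m), hρF _⟩ : F) * ((⟨rho φ q h, hρF h⟩ : F) ^ s)⁻¹) •
        σ m := by
      have h3 : σ b = (σ (φ h) ^ s)⁻¹ * ∑ m ∈ M, σ (φ (c m)) * σ m := by
        rw [← h1, inv_mul_cancel_left₀ (pow_ne_zero s hhL)]
      rw [h3, Finset.mul_sum]
      refine Finset.sum_congr rfl fun m _ => ?_
      rw [Subfield.smul_def, smul_eq_mul]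
      push_cast
      rw [hρ, hρ]
      ring
    change σ b ∈ _
    rw [h2]
    refine Submodule.sum_mem _ fun m hm => Submodule.smul_mem _ _ (Submodule.subset_span ?_)
    exact ⟨m, hm, rfl⟩
  refine ⟨hfin, ?_, ?_, fun x hx => CUB.GTD.exists_nm (rho φ q) x hx⟩
  · exact (Module.finrank_pos (R := F) (M := L)).ne'
  · let ρF : A →+* F := (rho φ q).codRestrict F hρF
    let algF : Algebra k F := (ρF.comp (algebraMap k A)).toAlgebra
    have hst : IsScalarTower k F L := IsScalarTower.of_algebraMap_eq (by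
      intro r
      change algebraMap k L r = σ (φ (algebraMap k A r))
      rw [AlgHom.commutes, AlgHom.commutes])
    let ρk : A →ₐ[k] F := { ρF with commutes' := fun r => rfl }
    have h1 : rdim k p = Algebra.trdeg k F := by
      refine CUB.INFD.quot ρk p ?_ ?_
      · ext a
        have h2 : ρk a = 0 ↔ σ (φ a) = 0 := by
          rw [← hρ]
          exact Subtype.ext_iff
        rw [RingHom.mem_ker]
        change ρk a = 0 ↔ φ a ∈ q.asIdeal
        rw [h2, hker]
      · intro x
        obtain ⟨a, b, hb, hx⟩ := FLD.exists_frac (rho φ q) x.1 x.2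
        refine ⟨a, b, ?_, Subtype.ext hx⟩
        intro h0
        exact hb (congrArg Subtype.val h0)
    have h2 : rdim k q = Algebra.trdeg k L := by
      refine CUB.INFD.quot σ q ?_ hfr
      ext b
      rw [RingHom.mem_ker]
      exact hker b
    have : FaithfulSMul k F := (faithfulSMul_iff_algebraMap_injective k F).mpr
      (algebraMap k F).injective
    have : Algebra.IsAlgebraic F L := Algebra.IsAlgebraic.of_finite F L
    have h3 := _root_.trdeg_add_eq k F (A := L)
    rw [_root_.trdeg_eq_zero (R := F) (A := L), add_zero] at h3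
    rw [h1, h2, h3]

end LOWD
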