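import Pool.Agent.LOWD.Stmts

/-!
# LOWD, module FNT

`BR G S a` is a finite algebra over `A` outside the closed subset `V(JJ G S)`.
-/

set_option autoImplicit false

open Polynomial

namespace LOWD

namespace FNT

section General

variable {σ A B : Type} [CommRing A] [CommRing B] [Algebra A B]

/-- The homomorphism `A[σ] → B[T]`, `X j ↦ v j T`. -/
noncomputable def th (v : σ → B) : MvPolynomial σ A →ₐ[A] B[X] :=
  MvPolynomial.aeval (fun j => C (v j) * X)

/-- The monomials in the `v j`. -/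
noncomputable def vm (v : σ → B) (m : σ →₀ ℕ) : B := m.prod fun j n => v j ^ n

/-- The span of the monomials of degree `≤ D`. -/
noncomputable def W (A : Type) [CommRing A] [Algebra A B] (v : σ → B) (D : ℕ) : Submodule A B :=
  Submodule.span A (vm v '' {m | m.degree ≤ D})

lemma vm_mem {v : σ → B} {m : σ →₀ ℕ} {D : ℕ} (h : m.degree ≤ D) : vm v m ∈ W A v D :=
  Submodule.subset_span ⟨m, h, rfl⟩

lemma W_mono (v : σ → B) {D D' : ℕ} (h : D ≤ D') : W A v D ≤ W A v D' :=
  Submodule.span_mono (Set.image_mono fun _ hm => le_trans hm h)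

lemma aeval_mon (v : σ → B) (m : σ →₀ ℕ) (c : A) :
    MvPolynomial.aeval v (MvPolynomial.monomial m c) = c • vm v m := by
  rw [MvPolynomial.aeval_monomial, Algebra.smul_def]
  rfl

lemma th_mon (v : σ → B) (m : σ →₀ ℕ) (c : A) :
    th v (MvPolynomial.monomial m c) = C (c • vm v m) * X ^ m.degree := by
  unfold th
  rw [MvPolynomial.aeval_monomial, Algebra.smul_def, Polynomial.algebraMap_apply, C_mul, mul_assoc]
  congr 1
  unfold vm Finsupp.prod
  rw [map_prod, Finsupp.degree_apply, ← Finset.prod_pow_eq_pow_sum, ← Finset.prod_mul_distrib]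
  refine Finset.prod_congr rfl fun i _ => ?_
  change (C (v i) * X) ^ m i = C (v i ^ m i) * X ^ m i
  rw [mul_pow, C_pow]

lemma th_hom (v : σ → B) (F : MvPolynomial σ A) (n : ℕ) (hF : F.IsHomogeneous n) :
    th v F = C (MvPolynomial.aeval v F) * X ^ n := by
  conv_lhs => rw [MvPolynomial.as_sum F]
  conv_rhs => rw [MvPolynomial.as_sum F]
  rw [map_sum, map_sum, map_sum, Finset.sum_mul]
  refine Finset.sum_congr rfl fun m hm => ?_
  rw [th_mon, aeval_mon]
  congr 2
  have h := hF (MvPolynomial.mem_support_iff.mp hm)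
  rw [Finsupp.degree_eq_weight_one]
  exact h

lemma th_coeff (v : σ → B) (F : MvPolynomial σ A) (D : ℕ) : (th v F).coeff D ∈ W A v D := by
  rw [MvPolynomial.as_sum F, map_sum, finsetSum_coeff]
  refine Submodule.sum_mem _ fun m _ => ?_
  rw [th_mon, coeff_C_mul, coeff_X_pow]
  split_ifs with h
  · rw [mul_one]
    exact Submodule.smul_mem _ _ (vm_mem h.ge)
  · rw [mul_zero]
    exact Submodule.zero_mem _

end General

section Main

variable {σ κ A : Type} [CommRing A] (G : κ → MvPolynomial σ A) (S : Set σ) (a : σ)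

lemma aeval_vB (F : MvPolynomial σ A) :
    MvPolynomial.aeval (vB G S a) F = Ideal.Quotient.mk (relB G S a) F := by
  have h : (MvPolynomial.aeval (vB G S a) : MvPolynomial σ A →ₐ[A] BR G S a) =
      Ideal.Quotient.mkₐ A _ := by
    apply MvPolynomial.algHom_ext
    intro j
    simp [vB]
  rw [h]
  rfl

lemma aeval_G (i : κ) : MvPolynomial.aeval (vB G S a) (G i) = 0 := by
  rw [aeval_vB]
  exact Ideal.Quotient.eq_zero_iff_mem.mpr (Ideal.subset_span (Or.inr (Or.inr ⟨i, rfl⟩)))

lemma vB_a : vB G S a a = 1 := by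
  have h : Ideal.Quotient.mk (relB G S a) (MvPolynomial.X a - 1) = 0 :=
    Ideal.Quotient.eq_zero_iff_mem.mpr (Ideal.subset_span (Or.inl rfl))
  rw [map_sub, map_one, sub_eq_zero] at h
  exact h

lemma vB_zero (j : σ) (h : j ∉ S) (h' : j ≠ a) : vB G S a j = 0 :=
  Ideal.Quotient.eq_zero_iff_mem.mpr
    (Ideal.subset_span (Or.inr (Or.inl ⟨j, ⟨h, h'⟩, rfl⟩)))

/-- The image of `relS G S` consists of multiples of `T`. -/
lemma th_relS (e : κ → ℕ) (hG : ∀ i, (G i).IsHomogeneous (e i)) (F : MvPolynomial σ A)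
    (hF : F ∈ relS G S) : ∃ F' : MvPolynomial σ A, th (vB G S a) F = X * th (vB G S a) F' := by
  unfold relS at hF
  induction hF using Submodule.span_induction with
  | mem x hx =>
    rcases hx with ⟨j, hj, rfl⟩ | ⟨i, rfl⟩
    · by_cases h : j = a
      · refine ⟨1, ?_⟩
        subst h
        simp [th, vB_a]
      · refine ⟨0, ?_⟩
        simp [th, vB_zero G S a j hj h]
    · refine ⟨0, ?_⟩
      rw [th_hom _ _ _ (hG i), aeval_G]
      simp
  | zero => exact ⟨0, by simp⟩
  | add x y _ _ hx hy =>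
    obtain ⟨F, hF⟩ := hx
    obtain ⟨F', hF'⟩ := hy
    exact ⟨F + F', by rw [map_add, map_add, hF, hF', mul_add]⟩
  | smul c x _ hx =>
    obtain ⟨F, hF⟩ := hx
    exact ⟨c * F, by rw [smul_eq_mul, map_mul, map_mul, hF]; ring⟩

variable {G S}

lemma step (e : κ → ℕ) (hG : ∀ i, (G i).IsHomogeneous (e i)) (h : A) (N : ℕ)
    (hN : ∀ m : σ →₀ ℕ, N ≤ m.degree → MvPolynomial.monomial m h ∈ relS G S) (D : ℕ)
    (hD : N ≤ D + 1) (b : BR G S a) (hb : b ∈ W A (vB G S a) (D + 1)) :
    h • b ∈ W A (vB G S a) D := by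
  have key : W A (vB G S a) (D + 1) ≤
      (W A (vB G S a) D).comap (LinearMap.lsmul A (BR G S a) h) := by
    refine Submodule.span_le.mpr ?_
    rintro _ ⟨m, hm, rfl⟩
    change h • vm (vB G S a) m ∈ W A (vB G S a) D
    rcases Nat.lt_or_ge m.degree (D + 1) with h1 | h1
    · exact Submodule.smul_mem _ _ (vm_mem (Nat.lt_succ_iff.mp h1))
    · have h2 : m.degree = D + 1 := le_antisymm hm h1
      obtain ⟨F', hF'⟩ := th_relS G S a e hG _ (hN m (hD.trans h1))
      have h3 : (th (vB G S a) (MvPolynomial.monomial m h)).coeff (D + 1) =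
          h • vm (vB G S a) m := by
        rw [th_mon, h2, coeff_C_mul, coeff_X_pow, if_pos rfl, mul_one]
      rw [← h3, hF', coeff_X_mul]
      exact th_coeff _ _ _
  exact key hb

lemma exists_pow (e : κ → ℕ) (hG : ∀ i, (G i).IsHomogeneous (e i)) (h : A) (N : ℕ)
    (hN : ∀ m : σ →₀ ℕ, N ≤ m.degree → MvPolynomial.monomial m h ∈ relS G S) (D : ℕ) :
    ∀ b ∈ W A (vB G S a) (N + D), ∃ s : ℕ, h ^ s • b ∈ W A (vB G S a) N := by
  induction D with
  | zero => exact fun b hb => ⟨0, by simpa using hb⟩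
  | succ D ih =>
    intro b hb
    obtain ⟨s, hs⟩ := ih (h • b) (step a e hG h N hN (N + D) (by omega) b hb)
    exact ⟨s + 1, by rw [pow_succ, mul_smul]; exact hs⟩

end Main

end FNT

open FNT in
theorem t_FNT : S_FNT := by
  classical
  intro k A σ κ _ _ _ _ G e hG S a _ h hh
  obtain ⟨N, hN⟩ := (mem_JJ G S h).mp hh
  have hfin : (vm (vB G S a) '' {m : σ →₀ ℕ | m.degree ≤ N}).Finite :=
    (Finsupp.finite_of_degree_le N).image _
  refine ⟨hfin.toFinset, fun b => ?_⟩
  obtain ⟨F, rfl⟩ := Ideal.Quotient.mk_surjective b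
  have h1 : Ideal.Quotient.mk (relB G S a) F ∈ W A (vB G S a) (N + F.totalDegree) := by
    rw [← aeval_vB, MvPolynomial.as_sum F, map_sum]
    refine Submodule.sum_mem _ fun m hm => ?_
    rw [aeval_mon]
    refine Submodule.smul_mem _ _ (vm_mem ?_)
    have h2 := MvPolynomial.le_totalDegree hm
    rw [← MvPolynomial.as_sum F]
    exact (show m.degree ≤ F.totalDegree from h2).trans (Nat.le_add_left _ _)
  obtain ⟨s, hs⟩ := exists_pow a e hG h N hN F.totalDegree _ h1
  have h3 : h ^ s • Ideal.Quotient.mk (relB G S a) F ∈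
      Submodule.span A (hfin.toFinset : Set (BR G S a)) := by
    rw [Set.Finite.coe_toFinset]
    exact hs
  obtain ⟨c, -, hc⟩ := Submodule.mem_span_finset.mp h3
  refine ⟨s, c, ?_⟩
  have h4 : ∀ x : A, BRh k G S a x = algebraMap A (BR G S a) x := fun _ => rfl
  simp only [h4]
  rw [← map_pow, ← Algebra.smul_def, ← hc]
  refine Finset.sum_congr rfl fun m _ => ?_
  exact Algebra.smul_def (c m) m

end LOWD
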