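import Pool.Agent.LOWD.Stmts
import Pool.Agent.CUB.R_GREC
import Pool.Agent.CUB.R_NM
import Pool.Agent.CUB.A_LENC
import Pool.Agent.CUB.Dim1

set_option autoImplicit false

/-!
# LOWD, module FPD: push-forward of a divisor
-/

namespace LOWD

open CUB

namespace FPD

section Ch

variable {k A B D : Type} [Field k] [CommRing A] [CommRing B] [Algebra k A] [Algebra k B]
  [CommRing D]

/-- `D` is the ring of `V(Q)` localised along the fibre of `p`. -/
structure ChD (φ : A →ₐ[k] B) (Q : PrimeSpectrum B) (p : PrimeSpectrum A) (δ : B →+* D) :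
    Prop where
  ker : ∀ b, δ b = 0 ↔ b ∈ Q.asIdeal
  unit : ∀ a, a ∉ p.asIdeal → IsUnit (δ (φ a))
  frac : ∀ x : D, ∃ b t, t ∉ p.asIdeal ∧ δ (φ t) * x = δ b
  lenT : ∀ I : Ideal B, Q.asIdeal ≤ I → ∀ z : PrimeSpectrum D,
    len (I.map δ) z = len I (PrimeSpectrum.comap δ z)
  lift : ∀ (R : Type) [CommRing R] (f : B →+* R), (∀ b ∈ Q.asIdeal, f b = 0) →
    (∀ a, a ∉ p.asIdeal → IsUnit (f (φ a))) → ∃ g : D →+* R, ∀ b, g (δ b) = f b

variable {φ : A →ₐ[k] B} {Q : PrimeSpectrum B} {p : PrimeSpectrum A} {δ : B →+* D}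

theorem mc (H : ChD φ Q p δ) (I : Ideal D) : (I.comap δ).map δ = I := by
  apply le_antisymm Ideal.map_comap_le
  intro x hx
  obtain ⟨b, t, ht, h⟩ := H.frac x
  have h1 : δ b ∈ (I.comap δ).map δ := by
    apply Ideal.mem_map_of_mem
    rw [Ideal.mem_comap, ← h]
    exact I.mul_mem_left _ hx
  rw [← h] at h1
  exact (Ideal.unit_mul_mem_iff_mem _ (H.unit t ht)).mp h1

theorem eq_of_comap (H : ChD φ Q p δ) {z z' : PrimeSpectrum D}
    (h : PrimeSpectrum.comap δ z = PrimeSpectrum.comap δ z') : z = z' := by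
  have h1 : z.asIdeal.comap δ = z'.asIdeal.comap δ := congrArg PrimeSpectrum.asIdeal h
  apply PrimeSpectrum.ext
  rw [← mc H z.asIdeal, ← mc H z'.asIdeal, h1]

theorem le_comap (H : ChD φ Q p δ) (z : PrimeSpectrum D) :
    Q.asIdeal ≤ (PrimeSpectrum.comap δ z).asIdeal := by
  intro s hs
  have h : δ s ∈ z.asIdeal := by
    rw [(H.ker s).mpr hs]
    exact z.asIdeal.zero_mem
  exact h

theorem len_z (H : ChD φ Q p δ) (b : B) (z : PrimeSpectrum D) :
    len (Ideal.span {δ b}) z = len (Q.asIdeal ⊔ Ideal.span {b}) (PrimeSpectrum.comap δ z) := by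
  have h1 : Q.asIdeal.map δ = ⊥ := by
    rw [eq_bot_iff, Ideal.map_le_iff_le_comap]
    intro s hs
    rw [Ideal.mem_comap, (H.ker s).mpr hs]
    exact Ideal.zero_mem _
  rw [← H.lenT _ le_sup_left, Ideal.map_sup, h1, bot_sup_eq, Ideal.map_span,
    Set.image_singleton]

/-- the homomorphism to the residue field of a prime over `p` -/
theorem exists_tau (H : ChD φ Q p δ) (q : PrimeSpectrum B) (hQ : Q.asIdeal ≤ q.asIdeal)
    (hq : PrimeSpectrum.comap φ.toRingHom q = p) :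
    ∃ τ : D →+* q.asIdeal.ResidueField,
      (∀ b, τ (δ b) = algebraMap B q.asIdeal.ResidueField b) ∧
      ∀ x, τ x = 0 → ∀ z : PrimeSpectrum D, PrimeSpectrum.comap δ z = q → x ∈ z.asIdeal := by
  obtain ⟨τ, hτ⟩ := H.lift q.asIdeal.ResidueField (algebraMap B q.asIdeal.ResidueField)
    (fun b hb => Ideal.algebraMap_residueField_eq_zero.mpr (hQ hb)) (fun a ha => by
      apply IsUnit.mk0
      intro h
      rw [Ideal.algebraMap_residueField_eq_zero] at h
      apply ha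
      rw [← hq]
      exact h)
  refine ⟨τ, hτ, ?_⟩
  intro x hx z hz
  obtain ⟨b, t, ht, h⟩ := H.frac x
  have h1 : τ (δ b) = 0 := by rw [← h, map_mul, hx, mul_zero]
  rw [hτ, Ideal.algebraMap_residueField_eq_zero, ← hz] at h1
  have h2 : δ b ∈ z.asIdeal := h1
  rw [← h] at h2
  exact (Ideal.unit_mul_mem_iff_mem _ (H.unit t ht)).mp h2

theorem exists_prime (H : ChD φ Q p δ) (q : PrimeSpectrum B) (hQ : Q.asIdeal ≤ q.asIdeal)
    (hq : PrimeSpectrum.comap φ.toRingHom q = p) :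
    ∃ z : PrimeSpectrum D, PrimeSpectrum.comap δ z = q := by
  obtain ⟨τ, hτ, -⟩ := exists_tau H q hQ hq
  refine ⟨PrimeSpectrum.comap τ ⊥, ?_⟩
  apply PrimeSpectrum.ext
  ext b
  have h1 : b ∈ (PrimeSpectrum.comap δ (PrimeSpectrum.comap τ ⊥)).asIdeal ↔ τ (δ b) = 0 := Iff.rfl
  rw [h1, hτ, Ideal.algebraMap_residueField_eq_zero]

end Ch

section Two

variable {k A B C D K : Type} [Field k] [CommRing A] [CommRing B] [Algebra k A] [Algebra k B]
  [CommRing C] [IsDomain C] [IsLocalRing C] [CommRing D] [Algebra C D] [Field K] [Algebra k K]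
  [Algebra C K] {φ : A →ₐ[k] B} {Q : PrimeSpectrum B} {P p : PrimeSpectrum A} {δ : B →+* D}
  {γ : A →+* C} {θ : A →ₐ[k] K}

omit [IsDomain C] [IsLocalRing C] in
theorem comap_comap (hγ : ∀ a, algebraMap C D (γ a) = δ (φ a)) (z : PrimeSpectrum D) :
    PrimeSpectrum.comap φ.toRingHom (PrimeSpectrum.comap δ z) =
      PrimeSpectrum.comap γ (PrimeSpectrum.comap (algebraMap C D) z) := by
  apply PrimeSpectrum.ext
  ext a
  have h1 : a ∈ (PrimeSpectrum.comap φ.toRingHom (PrimeSpectrum.comap δ z)).asIdeal ↔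
      δ (φ a) ∈ z.asIdeal := Iff.rfl
  have h2 : a ∈ (PrimeSpectrum.comap γ (PrimeSpectrum.comap (algebraMap C D) z)).asIdeal ↔
      algebraMap C D (γ a) ∈ z.asIdeal := Iff.rfl
  rw [h1, h2, hγ]

theorem max_iff [Algebra.IsIntegral C D] (H : GREC.Chart θ P p γ)
    (hγ : ∀ a, algebraMap C D (γ a) = δ (φ a)) (z : PrimeSpectrum D) :
    z.asIdeal.IsMaximal ↔
      PrimeSpectrum.comap φ.toRingHom (PrimeSpectrum.comap δ z) = p := by
  rw [comap_comap hγ, ← GREC.max_iff H]
  constructor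
  · intro h
    exact Ideal.isMaximal_comap_of_isIntegral_of_isMaximal z.asIdeal
  · intro h
    exact Ideal.isMaximal_of_isIntegral_of_isMaximal_comap z.asIdeal h

omit [IsDomain C] [IsLocalRing C] in
theorem length_ker {L : Type} [CommRing L] [Algebra C L] (f : D →ₐ[C] L)
    (hf : Function.Surjective f) (I : Ideal D) (hI : RingHom.ker f = I) :
    Module.length C (D ⧸ I) = Module.length C L := by
  subst hI
  exact (Ideal.quotientKerAlgEquivOfSurjective (f := f) hf).toLinearEquiv.length_eq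

theorem lC_dg (hDGL : S_DGL) [Algebra.IsIntegral C D] (H : GREC.Chart θ P p γ)
    (HD : ChD φ Q p δ) (hγ : ∀ a, algebraMap C D (γ a) = δ (φ a)) (z : PrimeSpectrum D)
    (q : PrimeSpectrum B) (hz : PrimeSpectrum.comap δ z = q)
    (hq : PrimeSpectrum.comap φ.toRingHom q = p) : lC C (D ⧸ z.asIdeal) = dg φ q := by
  have hQ : Q.asIdeal ≤ q.asIdeal := by
    rw [← hz]
    exact le_comap HD z
  obtain ⟨τ, hτ, hτ0⟩ := exists_tau HD q hQ hq
  have hmax : z.asIdeal.IsMaximal := by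
    rw [max_iff H hγ, hz, hq]
  have hmem : ∀ b, b ∈ q.asIdeal ↔ δ b ∈ z.asIdeal := by
    intro b
    rw [← hz]
    exact Iff.rfl
  have hφ : ∀ a, a ∉ p.asIdeal → φ a ∉ q.asIdeal := by
    intro a ha h
    apply ha
    rw [← hq]
    exact h
  have hker : RingHom.ker τ = z.asIdeal := by
    ext x
    rw [RingHom.mem_ker]
    constructor
    · intro hx
      exact hτ0 x hx z hz
    · intro hx
      obtain ⟨b, t, ht, h⟩ := HD.frac x
      have h1 : δ b ∈ z.asIdeal := by
        rw [← h]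
        exact z.asIdeal.mul_mem_left _ hx
      rw [← hmem, ← Ideal.algebraMap_residueField_eq_zero, ← hτ, ← h, map_mul, hτ] at h1
      refine (mul_eq_zero.mp h1).resolve_left ?_
      rw [Ideal.algebraMap_residueField_eq_zero]
      exact hφ t ht
  have hsurj : Function.Surjective τ := by
    intro y
    obtain ⟨b1, b2, hb2, hy⟩ := IsFractionRing.div_surjective (A := B ⧸ q.asIdeal) y
    obtain ⟨b1, rfl⟩ := Ideal.Quotient.mk_surjective b1
    obtain ⟨b2, rfl⟩ := Ideal.Quotient.mk_surjective b2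
    rw [Ideal.algebraMap_quotient_residueField_mk, Ideal.algebraMap_quotient_residueField_mk,
      ← hτ, ← hτ] at hy
    have hb2' : b2 ∉ q.asIdeal := by
      intro h
      rw [Ideal.Quotient.eq_zero_iff_mem.mpr h] at hb2
      exact zero_notMem_nonZeroDivisors hb2
    have h1 : δ b2 ∉ z.asIdeal := fun h => hb2' ((hmem b2).mpr h)
    obtain ⟨x, hx⟩ := hmax.exists_inv h1
    obtain ⟨i, hi, hxi⟩ := hx
    have h2 : τ x * τ (δ b2) = 1 := by
      rw [← hker] at hi
      rw [← map_mul, ← add_zero (τ (x * δ b2)), ← (RingHom.mem_ker.mp hi), ← map_add, hxi, map_one]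
    refine ⟨δ b1 * x, ?_⟩
    rw [← hy, map_mul, div_eq_mul_inv, ← eq_inv_of_mul_eq_one_left h2]
  let _ : Algebra C q.asIdeal.ResidueField := (τ.comp (algebraMap C D)).toAlgebra
  let _ : Algebra A C := γ.toAlgebra
  let τa : D →ₐ[C] q.asIdeal.ResidueField := { τ with commutes' := fun _ => rfl }
  have hτa : ∀ x, τa x = τ x := fun _ => rfl
  have hker2 : RingHom.ker τa = z.asIdeal := by
    rw [← hker]
    rfl
  have h1 : lC C (D ⧸ z.asIdeal) = lC C q.asIdeal.ResidueField := by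
    unfold lC
    rw [length_ker τa hsurj z.asIdeal hker2]
  rw [h1]
  refine hDGL A C q.asIdeal.ResidueField (rho φ q) ?_ ?_ ?_
  · intro a
    change algebraMap B q.asIdeal.ResidueField (φ a) = τ (algebraMap C D (γ a))
    rw [hγ, hτ]
  · intro x
    obtain ⟨s, t, ht, h⟩ := H.frac x
    refine ⟨s, t, ?_, ?_⟩
    · change algebraMap B q.asIdeal.ResidueField (φ t) ≠ 0
      rw [Ne, Ideal.algebraMap_residueField_eq_zero]
      exact hφ t ht
    · change τ (algebraMap C D x) * algebraMap B q.asIdeal.ResidueField (φ t) =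
        algebraMap B q.asIdeal.ResidueField (φ s)
      rw [← hτ, ← hτ, ← hγ, ← hγ, ← map_mul, ← map_mul, ← h, mul_comm]
  · intro x hx
    change τ (algebraMap C D x) = 0
    rw [← RingHom.mem_ker, hker]
    have h2 : (PrimeSpectrum.comap (algebraMap C D) z).asIdeal.IsMaximal := by
      rw [GREC.max_iff H, ← comap_comap hγ, hz, hq]
    have h3 := IsLocalRing.eq_maximalIdeal h2
    rw [← h3] at hx
    exact hx

end Two

section Krull

variable {k A C K : Type} [Field k] [CommRing A] [Algebra k A] [Algebra.FiniteType k A]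
  [CommRing C] [IsDomain C] [IsLocalRing C] [IsNoetherianRing C] [Field K] [Algebra k K]
  [Algebra C K] {n : ℕ} {P : RP k A (n + 1)} {p : RP k A n} {γ : A →+* C} {θ : A →ₐ[k] K}

omit [IsNoetherianRing C] in
theorem krull (h1 : S_DIM1) (H : GREC.Chart θ P.1 p.1 γ) : Ring.KrullDimLE 1 C := by
  apply Ring.KrullDimLE.mk₁'
  intro I hI hIp
  have h2 := (GREC.max_iff H ⟨I, hIp⟩).mpr ?_
  · exact h2
  apply LENC.between h1 P p _ _ (GREC.comap_le H _)
  refine lt_of_le_of_ne (GREC.le_comap H _) ?_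
  intro h
  exact hI ((GREC.bot_iff H ⟨I, hIp⟩).mpr h.symm)

theorem len_fin (h1 : S_DIM1) (H : GREC.Chart θ P.1 p.1 γ) {x : C} (hx : x ≠ 0) :
    Module.length C (C ⧸ Ideal.span {x}) ≠ ⊤ := by
  have := krull h1 H
  exact Ring.ord_ne_top (mem_nonZeroDivisors_of_ne_zero hx)

end Krull

section Core

variable {k A B C D K : Type} [Field k] [CommRing A] [CommRing B] [Algebra k A] [Algebra k B]
  [Algebra.FiniteType k A] [Algebra.FiniteType k B]
  [CommRing C] [IsDomain C] [IsLocalRing C] [IsNoetherianRing C] [CommRing D] [IsDomain D]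
  [Algebra C D] [Module.Finite C D] [Field K] [Algebra k K] [Algebra C K] {φ : A →ₐ[k] B}
  {n : ℕ} {Q : RP k B (n + 1)} {P : RP k A (n + 1)} {p : RP k A n} {δ : B →+* D} {γ : A →+* C}
  {θ : A →ₐ[k] K}

omit [Algebra.FiniteType k B] in
/-- the norm formula -/
theorem norm_formula (h1 : S_DIM1) (hN : S_NORM) (hP : P.1 = PrimeSpectrum.comap φ.toRingHom Q.1)
    (hPp : P.1.asIdeal ≤ p.1.asIdeal) (H : GREC.Chart θ P.1 p.1 γ) (HD : ChD φ Q.1 p.1 δ)
    (hγ : ∀ a, algebraMap C D (γ a) = δ (φ a)) (b : B) (c d : A) (hb : b ∉ Q.1.asIdeal)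
    (hnm : IsNm (rho φ Q.1) (algebraMap B Q.1.asIdeal.ResidueField b) c d) :
    Module.length C (D ⧸ Ideal.span {δ b}) ≠ ⊤ ∧
    lC C (D ⧸ Ideal.span {δ b}) + len (P.1.asIdeal ⊔ Ideal.span {d}) p.1 =
      len (P.1.asIdeal ⊔ Ideal.span {c}) p.1 := by
  have hPQ : ∀ a, a ∈ P.1.asIdeal ↔ φ a ∈ Q.1.asIdeal := by
    intro a
    rw [hP]
    exact Iff.rfl
  obtain ⟨σ, hσ⟩ := HD.lift Q.1.asIdeal.ResidueField (algebraMap B Q.1.asIdeal.ResidueField)
    (fun b hb => Ideal.algebraMap_residueField_eq_zero.mpr hb) (fun a ha => by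
      apply IsUnit.mk0
      intro h
      rw [Ideal.algebraMap_residueField_eq_zero, ← hPQ] at h
      exact ha (hPp h))
  have hσ0 : ∀ x, σ x = 0 ↔ x ∈ (⊥ : Ideal D) := by
    intro x
    rw [Ideal.mem_bot]
    constructor
    · intro hx
      obtain ⟨b', t, ht, h⟩ := HD.frac x
      have h2 : σ (δ b') = 0 := by rw [← h, map_mul, hx, mul_zero]
      rw [hσ, Ideal.algebraMap_residueField_eq_zero, ← HD.ker, ← h] at h2
      exact (mul_eq_zero.mp h2).resolve_left (HD.unit t ht).ne_zero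
    · intro hx
      rw [hx, map_zero]
  have hinj : ∀ x : C, algebraMap C D x = 0 → x = 0 := by
    intro x hx
    obtain ⟨s, t, ht, h⟩ := H.frac x
    have h2 : algebraMap C D (γ s) = 0 := by rw [← h, map_mul, hx, mul_zero]
    rw [hγ, HD.ker, ← hPQ, ← H.ker, ← h] at h2
    exact (mul_eq_zero.mp h2).resolve_left (H.unit t ht).ne_zero
  have hbot : (⊥ : Ideal D).comap (algebraMap C D) = ⊥ := by
    rw [eq_bot_iff]
    intro x hx
    exact hinj x hx
  have hfrac : ∀ y : Q.1.asIdeal.ResidueField, ∃ a a' : D, σ a' ≠ 0 ∧ y * σ a' = σ a := by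
    intro y
    obtain ⟨b1, b2, hb2, hy⟩ := IsFractionRing.div_surjective (A := B ⧸ Q.1.asIdeal) y
    obtain ⟨b1, rfl⟩ := Ideal.Quotient.mk_surjective b1
    obtain ⟨b2, rfl⟩ := Ideal.Quotient.mk_surjective b2
    rw [Ideal.algebraMap_quotient_residueField_mk, Ideal.algebraMap_quotient_residueField_mk,
      ← hσ, ← hσ] at hy
    have hb2' : b2 ∉ Q.1.asIdeal := by
      intro h
      rw [Ideal.Quotient.eq_zero_iff_mem.mpr h] at hb2
      exact zero_notMem_nonZeroDivisors hb2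
    have h2 : σ (δ b2) ≠ 0 := by
      rw [hσ, Ne, Ideal.algebraMap_residueField_eq_zero]
      exact hb2'
    exact ⟨δ b1, δ b2, h2, by rw [← hy, div_mul_cancel₀ _ h2]⟩
  have hnm2 : IsNm (σ.comp (algebraMap C D)) (σ (δ b)) (γ c) (γ d) := by
    rw [hσ]
    refine GREC.nm_C H (rho φ Q.1) (σ.comp (algebraMap C D)) ?_ hnm
    intro a
    change algebraMap B Q.1.asIdeal.ResidueField (φ a) = σ (algebraMap C D (γ a))
    rw [hγ, hσ]
  have hb0 : δ b ∉ (⊥ : Ideal D) := by
    rw [Ideal.mem_bot, HD.ker]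
    exact hb
  have key := NM.core hN (⊥ : Ideal D) (σ.comp (algebraMap C D)) σ (fun _ => rfl) hσ0 hfrac
    (by
      intro x hx
      rw [hbot] at hx ⊢
      rw [bot_sup_eq]
      exact len_fin h1 H (fun h => hx (by rw [h]; exact Ideal.zero_mem _)))
    (δ b) (γ c) (γ d) hb0 hnm2
  rw [hbot, bot_sup_eq, bot_sup_eq, bot_sup_eq] at key
  -- the elements `c`, `d`
  have hc : c ∉ P.1.asIdeal := by
    intro h
    exact hnm.1 (Ideal.algebraMap_residueField_eq_zero.mpr ((hPQ c).mp h))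
  have hd : d ∉ P.1.asIdeal := by
    intro h
    exact hnm.2.1 (Ideal.algebraMap_residueField_eq_zero.mpr ((hPQ d).mp h))
  have hc' : γ c ≠ 0 := fun h => hc ((H.ker c).mp h)
  have hd' : γ d ≠ 0 := fun h => hd ((H.ker d).mp h)
  have fc := len_fin h1 H hc'
  have fd := len_fin h1 H hd'
  have hfin : Module.length C (D ⧸ Ideal.span {δ b}) ≠ ⊤ := by
    intro h
    rw [h, top_add] at key
    exact fc key.symm
  have hb2 : (⊥ : PrimeSpectrum C).asIdeal = ⊥ := rfl
  have hP2 : PrimeSpectrum.comap γ (⊥ : PrimeSpectrum C) = P.1 :=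
    (GREC.bot_iff H ⊥).mp hb2
  have ec := GREC.len_m H c (⊥ : PrimeSpectrum C)
  have ed := GREC.len_m H d (⊥ : PrimeSpectrum C)
  rw [hP2, hb2, bot_sup_eq] at ec ed
  refine ⟨hfin, ?_⟩
  rw [ec, ed]
  unfold lC
  rw [← ENat.toNat_add hfin fd, key]

omit [Algebra.FiniteType k B] in
theorem core (h1 : S_DIM1) (hN : S_NORM) (hLTH : S_LTH) (hDGL : S_DGL)
    (hr : ∀ q : PrimeSpectrum B, PrimeSpectrum.comap φ.toRingHom q = p.1 → rdim k q = n)
    (hP : P.1 = PrimeSpectrum.comap φ.toRingHom Q.1)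
    (hPp : P.1.asIdeal ≤ p.1.asIdeal) (H : GREC.Chart θ P.1 p.1 γ) (HD : ChD φ Q.1 p.1 δ)
    (hγ : ∀ a, algebraMap C D (γ a) = δ (φ a)) (b : B) (c d : A) (hb : b ∉ Q.1.asIdeal)
    (hnm : IsNm (rho φ Q.1) (algebraMap B Q.1.asIdeal.ResidueField b) c d)
    (W : Finset (RP k B n)) (hW1 : ∀ q ∈ W, PrimeSpectrum.comap φ.toRingHom q.1 = p.1)
    (hW2 : ∀ q : RP k B n, PrimeSpectrum.comap φ.toRingHom q.1 = p.1 →
      Q.1.asIdeal ≤ q.1.asIdeal → b ∈ q.1.asIdeal → q ∈ W) :
    ∑ q ∈ W, len (Q.1.asIdeal ⊔ Ideal.span {b}) q.1 * dg φ q.1 +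
      len (P.1.asIdeal ⊔ Ideal.span {d}) p.1 = len (P.1.asIdeal ⊔ Ideal.span {c}) p.1 := by
  classical
  obtain ⟨hfin, hkey⟩ := norm_formula h1 hN hP hPp H HD hγ b c d hb hnm
  rw [← hkey]
  congr 1
  have hmem : ∀ z : PrimeSpectrum D, Ideal.span {δ b} ≤ z.asIdeal ↔
      b ∈ (PrimeSpectrum.comap δ z).asIdeal := by
    intro z
    rw [Ideal.span_singleton_le_iff_mem]
    exact Iff.rfl
  have hin : ∀ z : PrimeSpectrum D, z.asIdeal.IsMaximal → Ideal.span {δ b} ≤ z.asIdeal →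
      ∃ q ∈ W, q.1 = PrimeSpectrum.comap δ z := by
    intro z hz1 hz2
    rw [max_iff H hγ] at hz1
    rw [hmem] at hz2
    exact ⟨⟨PrimeSpectrum.comap δ z, hr _ hz1⟩, hW2 _ hz1 (le_comap HD z) hz2, rfl⟩
  have hfs : {z : PrimeSpectrum D | z.asIdeal.IsMaximal ∧
      Ideal.span {δ b} ≤ z.asIdeal}.Finite := by
    have h2 : {z : PrimeSpectrum D | z.asIdeal.IsMaximal ∧ Ideal.span {δ b} ≤ z.asIdeal} ⊆
        (PrimeSpectrum.comap δ) ⁻¹' (Subtype.val '' (W : Set (RP k B n))) := by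
      rintro z ⟨hz1, hz2⟩
      obtain ⟨q, hq, hqz⟩ := hin z hz1 hz2
      exact ⟨q, hq, hqz⟩
    refine Set.Finite.subset (Set.Finite.preimage ?_ (W.finite_toSet.image _)) h2
    intro z _ z' _ h
    exact eq_of_comap HD h
  have hW' : ∀ z : PrimeSpectrum D, z ∈ hfs.toFinset ↔ (z.asIdeal.IsMaximal ∧
      Ideal.span {δ b} ≤ z.asIdeal) := by
    intro z
    exact Set.Finite.mem_toFinset _
  rw [hLTH C D (Ideal.span {δ b}) hfin hfs.toFinset hW']
  let G : PrimeSpectrum B → ℕ := fun q => len (Q.1.asIdeal ⊔ Ideal.span {b}) q * dg φ q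
  have h2 : ∑ q ∈ W, G q.1 = ∑ q ∈ W.map ⟨Subtype.val, Subtype.val_injective⟩, G q :=
    (Finset.sum_map W ⟨Subtype.val, Subtype.val_injective⟩ G).symm
  change ∑ q ∈ W, G q.1 = _
  rw [h2]
  symm
  apply Finset.sum_of_injOn (PrimeSpectrum.comap δ)
  · intro z _ z' _ h
    exact eq_of_comap HD h
  · intro z hz
    obtain ⟨hz1, hz2⟩ := (hW' z).mp hz
    obtain ⟨q, hq, hqz⟩ := hin z hz1 hz2
    rw [Finset.mem_coe]
    exact Finset.mem_map.mpr ⟨q, hq, hqz⟩
  · intro q' hq' hq2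
    obtain ⟨q, hq, rfl⟩ := Finset.mem_map.mp hq'
    by_contra h3
    apply hq2
    have h4 := left_ne_zero_of_mul h3
    have h6 : Q.1.asIdeal ⊔ Ideal.span {b} ≤ q.1.asIdeal := by
      by_contra h7
      exact h4 (GREC.len_top _ _ h7)
    obtain ⟨z, hz⟩ := exists_prime HD q.1 (le_sup_left.trans h6) (hW1 q hq)
    refine ⟨z, ?_, hz⟩
    rw [Finset.mem_coe, hW', max_iff H hγ, hz, hmem, hz]
    exact ⟨hW1 q hq, h6 (Ideal.mem_sup_right (Ideal.mem_span_singleton_self _))⟩
  · intro z hz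
    obtain ⟨hz1, hz2⟩ := (hW' z).mp hz
    rw [max_iff H hγ] at hz1
    change _ = len (Q.1.asIdeal ⊔ Ideal.span {b}) (PrimeSpectrum.comap δ z) *
      dg φ (PrimeSpectrum.comap δ z)
    rw [len_z HD, lC_dg hDGL H HD hγ z _ rfl hz1]

end Core

section Inst

/-- lengths for the localisation at a submonoid -/
theorem lenD (hLA : S_LENA) (hLB : S_LENB) {S B D : Type} [CommRing S] [CommRing B] [CommRing D]
    [Algebra B D] (T : Submonoid B) [IsLocalization T D] (π : S →+* B)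
    (hπ : Function.Surjective π) (I : Ideal S) (hI : RingHom.ker π ≤ I) (z : PrimeSpectrum D) :
    len (I.map ((algebraMap B D).comp π)) z =
      len I (PrimeSpectrum.comap ((algebraMap B D).comp π) z) := by
  have hflat : (algebraMap B D).Flat := by
    have h1 : Module.Flat B D := IsLocalization.flat _ T
    exact (RingHom.flat_algebraMap_iff).mpr h1
  have hmax : IsLocalRing.maximalIdeal (Localization.AtPrime z.asIdeal) ≤
      (PrimeSpectrum.comap (algebraMap B D) z).asIdeal.map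
        ((algebraMap D (Localization.AtPrime z.asIdeal)).comp (algebraMap B D)) := by
    have h1 : (PrimeSpectrum.comap (algebraMap B D) z).asIdeal.map (algebraMap B D) = z.asIdeal :=
      IsLocalization.map_under T D z.asIdeal
    rw [← Ideal.map_map, h1, Localization.AtPrime.map_eq_maximalIdeal]
  have e1 := hLB B D (algebraMap B D) z hflat hmax (I.map π)
  have e2 := hLA S B π hπ (I.map π) (PrimeSpectrum.comap (algebraMap B D) z)
  have h3 : (I.map π).comap π = I := by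
    rw [Ideal.comap_map_of_surjective π hπ]
    exact sup_eq_left.mpr hI
  rw [h3] at e2
  rw [← Ideal.map_map, e1, ← e2]
  rfl

variable {k A B : Type} [Field k] [CommRing A] [CommRing B] [Algebra k A] [Algebra k B]

theorem chD (hLA : S_LENA) (hLB : S_LENB) (φ : A →ₐ[k] B) (Q : PrimeSpectrum B)
    (p : PrimeSpectrum A) (T : Submonoid (B ⧸ Q.asIdeal))
    (hT : ∀ x, x ∈ T ↔ ∃ a, a ∉ p.asIdeal ∧ Ideal.Quotient.mk Q.asIdeal (φ a) = x)
    (hT0 : T ≤ nonZeroDivisors (B ⧸ Q.asIdeal)) :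
    ChD φ Q p ((algebraMap (B ⧸ Q.asIdeal) (Localization T)).comp
      (Ideal.Quotient.mk Q.asIdeal)) := by
  have hinj : Function.Injective (algebraMap (B ⧸ Q.asIdeal) (Localization T)) :=
    IsLocalization.injective (Localization T) hT0
  have hu : ∀ a, a ∉ p.asIdeal → Ideal.Quotient.mk Q.asIdeal (φ a) ∈ T := by
    intro a ha
    rw [hT]
    exact ⟨a, ha, rfl⟩
  refine ⟨?_, ?_, ?_, ?_, ?_⟩
  · intro b
    rw [RingHom.comp_apply, map_eq_zero_iff _ hinj, Ideal.Quotient.eq_zero_iff_mem]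
  · intro a ha
    exact IsLocalization.map_units (Localization T) (⟨_, hu a ha⟩ : T)
  · intro x
    obtain ⟨b', u, rfl⟩ := IsLocalization.exists_mk'_eq T x
    obtain ⟨b, rfl⟩ := Ideal.Quotient.mk_surjective b'
    obtain ⟨a, ha, hau⟩ := (hT u.1).mp u.2
    refine ⟨b, a, ha, ?_⟩
    rw [RingHom.comp_apply, RingHom.comp_apply, hau, IsLocalization.mk'_spec']
  · intro I hI z
    exact lenD hLA hLB T _ Ideal.Quotient.mk_surjective I (by rw [Ideal.mk_ker]; exact hI) z
  · intro R _ f hf hfu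
    have hun : ∀ y : T, IsUnit (Ideal.Quotient.lift Q.asIdeal f hf y) := by
      intro y
      obtain ⟨a, ha, hay⟩ := (hT y.1).mp y.2
      rw [← hay, Ideal.Quotient.lift_mk]
      exact hfu a ha
    refine ⟨IsLocalization.lift hun, ?_⟩
    intro b
    rw [RingHom.comp_apply, IsLocalization.lift_eq, Ideal.Quotient.lift_mk]

theorem inst [Algebra.FiniteType k A] (h1 : S_DIM1) (hLA : S_LENA) (hLB : S_LENB)
    (hN : S_NORM) (hLTH : S_LTH) (hDGL : S_DGL) (φ : A →ₐ[k] B) (J : Ideal A) (hJ : FinOn φ J)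
    {n : ℕ} {Q : RP k B (n + 1)} {P : RP k A (n + 1)} {p : RP k A n} (hJp : ¬ J ≤ p.1.asIdeal)
    (hr : ∀ q : PrimeSpectrum B, PrimeSpectrum.comap φ.toRingHom q = p.1 → rdim k q = n)
    (hP : P.1 = PrimeSpectrum.comap φ.toRingHom Q.1)
    (hPp : P.1.asIdeal ≤ p.1.asIdeal) (b : B) (c d : A) (hb : b ∉ Q.1.asIdeal)
    (hnm : IsNm (rho φ Q.1) (algebraMap B Q.1.asIdeal.ResidueField b) c d)
    (W : Finset (RP k B n)) (hW1 : ∀ q ∈ W, PrimeSpectrum.comap φ.toRingHom q.1 = p.1)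
    (hW2 : ∀ q : RP k B n, PrimeSpectrum.comap φ.toRingHom q.1 = p.1 →
      Q.1.asIdeal ≤ q.1.asIdeal → b ∈ q.1.asIdeal → q ∈ W) :
    ∑ q ∈ W, len (Q.1.asIdeal ⊔ Ideal.span {b}) q.1 * dg φ q.1 +
      len (P.1.asIdeal ⊔ Ideal.span {d}) p.1 = len (P.1.asIdeal ⊔ Ideal.span {c}) p.1 := by
  classical
  have hPQ : ∀ a, a ∈ P.1.asIdeal ↔ φ a ∈ Q.1.asIdeal := by
    intro a
    rw [hP]
    exact Iff.rfl
  have hPpr : P.1.asIdeal.IsPrime := P.1.isPrime
  have hQpr : Q.1.asIdeal.IsPrime := Q.1.isPrime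
  -- the ring `C`
  have hMp : (p.1.asIdeal.map (Ideal.Quotient.mk P.1.asIdeal)).IsPrime := by
    apply Ideal.map_isPrime_of_surjective Ideal.Quotient.mk_surjective
    rw [Ideal.mk_ker]
    exact hPp
  obtain ⟨M, hMdef⟩ : ∃ M : Ideal (A ⧸ P.1.asIdeal),
      M = p.1.asIdeal.map (Ideal.Quotient.mk P.1.asIdeal) := ⟨_, rfl⟩
  rw [← hMdef] at hMp
  have hM : M.comap (Ideal.Quotient.mk P.1.asIdeal) = p.1.asIdeal := by
    rw [hMdef]
    exact Ideal.comap_map_mk hPp
  have hmM : ∀ s, s ∈ p.1.asIdeal ↔ Ideal.Quotient.mk P.1.asIdeal s ∈ M := by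
    intro s
    rw [← hM]
    exact Iff.rfl
  have hle : M.primeCompl ≤ nonZeroDivisors (A ⧸ P.1.asIdeal) :=
    M.primeCompl_le_nonZeroDivisors
  let _ : Algebra (Localization.AtPrime M) (FractionRing (A ⧸ P.1.asIdeal)) :=
    IsLocalization.localizationAlgebraOfSubmonoidLe (Localization.AtPrime M)
      (FractionRing (A ⧸ P.1.asIdeal)) M.primeCompl (nonZeroDivisors (A ⧸ P.1.asIdeal)) hle
  have hst : IsScalarTower (A ⧸ P.1.asIdeal) (Localization.AtPrime M)
      (FractionRing (A ⧸ P.1.asIdeal)) :=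
    IsLocalization.localization_isScalarTower_of_submonoid_le (Localization.AtPrime M)
      (FractionRing (A ⧸ P.1.asIdeal)) M.primeCompl (nonZeroDivisors (A ⧸ P.1.asIdeal)) hle
  have hdom : IsDomain (Localization.AtPrime M) := IsLocalization.isDomain_localization hle
  have hNB : IsNoetherianRing (A ⧸ P.1.asIdeal) := Algebra.FiniteType.isNoetherianRing k _
  have hNC : IsNoetherianRing (Localization.AtPrime M) :=
    IsLocalization.isNoetherianRing M.primeCompl _ hNB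
  have hinj : Function.Injective (algebraMap (A ⧸ P.1.asIdeal) (Localization.AtPrime M)) :=
    IsLocalization.injective (Localization.AtPrime M) hle
  have H : GREC.Chart ((IsScalarTower.toAlgHom k (A ⧸ P.1.asIdeal)
      (FractionRing (A ⧸ P.1.asIdeal))).comp (Ideal.Quotient.mkₐ k P.1.asIdeal)) P.1 p.1
      ((algebraMap (A ⧸ P.1.asIdeal) (Localization.AtPrime M)).comp
        (Ideal.Quotient.mk P.1.asIdeal)) := by
    refine ⟨?_, ?_, ?_, ?_, ?_, ?_⟩
    · intro s
      rw [RingHom.comp_apply, ← IsScalarTower.algebraMap_apply]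
      rfl
    · intro s
      rw [RingHom.comp_apply, map_eq_zero_iff _ hinj, Ideal.Quotient.eq_zero_iff_mem]
    · intro s hs
      rw [hmM] at hs
      exact IsLocalization.map_units (Localization.AtPrime M)
        (⟨Ideal.Quotient.mk P.1.asIdeal s, hs⟩ : M.primeCompl)
    · intro c
      obtain ⟨b, u, rfl⟩ := IsLocalization.exists_mk'_eq M.primeCompl c
      obtain ⟨s, rfl⟩ := Ideal.Quotient.mk_surjective b
      obtain ⟨t', ht'⟩ := Ideal.Quotient.mk_surjective u.1
      refine ⟨s, t', ?_, ?_⟩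
      · rw [hmM, ht']
        exact u.2
      · rw [RingHom.comp_apply, RingHom.comp_apply, ht', IsLocalization.mk'_spec']
    · intro s hs
      rw [hmM] at hs
      exact (IsLocalization.AtPrime.to_map_mem_maximal_iff (Localization.AtPrime M) M
        (Ideal.Quotient.mk P.1.asIdeal s)).mpr hs
    · intro I hI z
      exact GREC.lenB hLA hLB (Ideal.Quotient.mk P.1.asIdeal) Ideal.Quotient.mk_surjective M I
        (by rw [Ideal.mk_ker]; exact hI) z
  -- the ring `D`
  have hPle : P.1.asIdeal ≤ Q.1.asIdeal.comap φ.toRingHom := by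
    intro a ha
    exact (hPQ a).mp ha
  let ψ : (A ⧸ P.1.asIdeal) →+* (B ⧸ Q.1.asIdeal) :=
    Ideal.quotientMap Q.1.asIdeal φ.toRingHom hPle
  have hψ : ∀ a, ψ (Ideal.Quotient.mk P.1.asIdeal a) = Ideal.Quotient.mk Q.1.asIdeal (φ a) :=
    fun a => Ideal.quotientMap_mk
  let T : Submonoid (B ⧸ Q.1.asIdeal) := M.primeCompl.map ψ
  have hT : ∀ x, x ∈ T ↔ ∃ a, a ∉ p.1.asIdeal ∧ Ideal.Quotient.mk Q.1.asIdeal (φ a) = x := by
    intro x
    constructor
    · rintro ⟨y, hy, rfl⟩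
      obtain ⟨a, rfl⟩ := Ideal.Quotient.mk_surjective y
      refine ⟨a, ?_, (hψ a).symm⟩
      rw [hmM]
      exact hy
    · rintro ⟨a, ha, rfl⟩
      rw [hmM] at ha
      exact ⟨Ideal.Quotient.mk P.1.asIdeal a, ha, hψ a⟩
  have hT0 : T ≤ nonZeroDivisors (B ⧸ Q.1.asIdeal) := by
    intro x hx
    obtain ⟨a, ha, rfl⟩ := (hT x).mp hx
    apply mem_nonZeroDivisors_of_ne_zero
    rw [Ne, Ideal.Quotient.eq_zero_iff_mem, ← hPQ]
    exact fun h => ha (hPp h)
  have hdomD : IsDomain (Localization T) := IsLocalization.isDomain_localization hT0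
  have HD := chD hLA hLB φ Q.1 p.1 T hT hT0
  have hun : ∀ y : M.primeCompl, IsUnit (((algebraMap (B ⧸ Q.1.asIdeal)
      (Localization T)).comp ψ) y) := by
    intro y
    exact IsLocalization.map_units (Localization T) (⟨ψ y, ⟨y.1, y.2, rfl⟩⟩ : T)
  let _ : Algebra (Localization.AtPrime M) (Localization T) :=
    (IsLocalization.lift (S := Localization.AtPrime M) hun).toAlgebra
  have hγ : ∀ a, algebraMap (Localization.AtPrime M) (Localization T)
      (((algebraMap (A ⧸ P.1.asIdeal) (Localization.AtPrime M)).comp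
        (Ideal.Quotient.mk P.1.asIdeal)) a) =
      ((algebraMap (B ⧸ Q.1.asIdeal) (Localization T)).comp
        (Ideal.Quotient.mk Q.1.asIdeal)) (φ a) := by
    intro a
    have h2 : algebraMap (Localization.AtPrime M) (Localization T)
      (algebraMap (A ⧸ P.1.asIdeal) (Localization.AtPrime M) (Ideal.Quotient.mk P.1.asIdeal a)) =
      algebraMap (B ⧸ Q.1.asIdeal) (Localization T) (ψ (Ideal.Quotient.mk P.1.asIdeal a)) :=
      IsLocalization.lift_eq hun _
    rw [RingHom.comp_apply, RingHom.comp_apply, h2, hψ]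
  obtain ⟨h, hhJ, hhp⟩ := Set.not_subset.mp hJp
  obtain ⟨M₀, hM₀⟩ := hJ h hhJ
  have hfinD : Module.Finite (Localization.AtPrime M) (Localization T) := by
    rw [Module.finite_def]
    refine ⟨M₀.image ((algebraMap (B ⧸ Q.1.asIdeal) (Localization T)).comp
        (Ideal.Quotient.mk Q.1.asIdeal)), ?_⟩
    rw [eq_top_iff]
    intro x _
    obtain ⟨b', t, ht, hx⟩ := HD.frac x
    obtain ⟨s, c', hc'⟩ := hM₀ b'
    have hst' : h ^ s * t ∉ p.1.asIdeal := by
      intro h2
      rcases p.1.isPrime.mem_or_mem h2 with h3 | h3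
      · exact hhp (p.1.isPrime.mem_of_pow_mem s h3)
      · exact ht h3
    obtain ⟨u, hu⟩ := H.unit _ hst'
    have h3 : (u : Localization.AtPrime M) • x ∈ Submodule.span (Localization.AtPrime M)
        ((M₀.image ((algebraMap (B ⧸ Q.1.asIdeal) (Localization T)).comp
        (Ideal.Quotient.mk Q.1.asIdeal)) : Finset (Localization T)) : Set (Localization T)) := by
      rw [Algebra.smul_def, hu, hγ, map_mul φ, map_mul, mul_assoc, hx, ← map_mul, map_pow φ, hc',
        map_sum]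
      apply Submodule.sum_mem
      intro m hm
      rw [map_mul, ← hγ, ← Algebra.smul_def]
      apply Submodule.smul_mem
      apply Submodule.subset_span
      rw [Finset.mem_coe]
      exact Finset.mem_image_of_mem _ hm
    have h4 : x = (↑u⁻¹ : Localization.AtPrime M) • ((u : Localization.AtPrime M) • x) := by
      rw [smul_smul, Units.inv_mul, one_smul]
    rw [h4]
    exact Submodule.smul_mem _ _ h3
  exact core h1 hN hLTH hDGL hr hP hPp H HD hγ b c d hb hnm W hW1 hW2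

end Inst

end FPD

theorem t_FPD : M_FPD := by
  intro h1 _ hLA hLB hLC hN hLTH hDGL hFLD k A B _ _ _ _ _ _ _ φ J hJ n Q b c d hb hJQ hnm p hJp
    W hW1 hW2
  have hPd := (hFLD k A B φ J hJ Q.1 hJQ).2.2.1
  have hr : ∀ q : PrimeSpectrum B, PrimeSpectrum.comap φ.toRingHom q = p.1 → rdim k q = n := by
    intro q hq
    have h2 := (hFLD k A B φ J hJ q (by rw [hq]; exact hJp)).2.2.1
    rw [← h2, hq, p.2]
  obtain ⟨P, hP⟩ : ∃ P : RP k A (n + 1), P.1 = PrimeSpectrum.comap φ.toRingHom Q.1 :=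
    ⟨⟨PrimeSpectrum.comap φ.toRingHom Q.1, by rw [hPd, Q.2]⟩, rfl⟩
  rw [← hP]
  by_cases hPp : P.1.asIdeal ≤ p.1.asIdeal
  · exact FPD.inst h1 hLA hLB hN hLTH hDGL φ J hJ hJp hr hP hPp b c d hb hnm W hW1 hW2
  · have h3 : ∀ x : A, len (P.1.asIdeal ⊔ Ideal.span {x}) p.1 = 0 := by
      intro x
      exact GREC.len_top _ _ (fun h => hPp (le_sup_left.trans h))
    rw [h3, h3, add_zero]
    apply Finset.sum_eq_zero
    intro q hq
    rw [GREC.len_top, zero_mul]
    intro h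
    apply hPp
    rw [hP, ← hW1 q hq]
    exact Ideal.comap_mono (le_sup_left.trans h)

end LOWD
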