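import Pool.Agent.LOWD.Stmts

/-!
# LOWD, module FPR: push-forward of rational equivalences outside `V(J)`
-/

set_option autoImplicit false

namespace LOWD

open CUB

namespace FPR

open Classical in
/-- The coefficient of the push-forward at `p`. -/
noncomputable def pf {k A B : Type} (E : Type) [Field k] [CommRing A] [CommRing B] [Algebra k A]
    [Algebra k B] [Field E] (φ : A →ₐ[k] B) {n : ℕ} (p : RP k A n) :
    (RP k B n →₀ E) →ₗ[E] E :=
  Finsupp.linearCombination E (fun q : RP k B n =>
    if PrimeSpectrum.comap φ.toRingHom q.1 = p.1 then (dg φ q.1 : E) else 0)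

open Classical in
lemma pf_eq {k A B E : Type} [Field k] [CommRing A] [CommRing B] [Algebra k A]
    [Algebra k B] [Field E] (φ : A →ₐ[k] B) {n : ℕ} (p : RP k A n) (z : RP k B n →₀ E) :
    z.sum (fun q e => if PrimeSpectrum.comap φ.toRingHom q.1 = p.1 then (dg φ q.1 : E) * e
      else 0) = pf E φ p z := by
  rw [pf, Finsupp.linearCombination_apply]
  refine Finsupp.sum_congr fun q _ => ?_
  split_ifs with h
  · rw [smul_eq_mul, mul_comm]
  · simp

open Classical in
lemma pf_filter {k A B E : Type} [Field k] [CommRing A] [CommRing B] [Algebra k A]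
    [Algebra k B] [Field E] (φ : A →ₐ[k] B) {n : ℕ} (p : RP k A n) (z : RP k B n →₀ E) :
    pf E φ p z = ∑ q ∈ z.support.filter (fun q => PrimeSpectrum.comap φ.toRingHom q.1 = p.1),
      z q * (dg φ q.1 : E) := by
  rw [pf, Finsupp.linearCombination_apply, Finsupp.sum, Finset.sum_filter]
  refine Finset.sum_congr rfl fun q _ => ?_
  split_ifs with h
  · rw [smul_eq_mul]
  · simp

end FPR

open FPR

open Classical in
theorem t_FPR : M_FPR := by
  intro hLENC hDVX hFLD hFPD k A B E _ _ _ _ _ _ _ _ _ φ J hfin n z' hz'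
  have main : ∃ z ∈ rat k A E n, ∀ p : RP k A n, ¬ J ≤ p.1.asIdeal → z p = pf E φ p z' := by
    refine Submodule.span_induction (p := fun z' _ =>
      ∃ z ∈ rat k A E n, ∀ p : RP k A n, ¬ J ≤ p.1.asIdeal → z p = pf E φ p z') ?_ ?_ ?_ ?_ hz'
    · rintro y ⟨Q, b, -, hb, hdv⟩
      by_cases hJ : J ≤ (PrimeSpectrum.comap φ.toRingHom Q.1).asIdeal
      · refine ⟨0, Submodule.zero_mem _, fun p hp => ?_⟩
        rw [pf_filter, Finsupp.zero_apply, eq_comm]
        refine Finset.sum_eq_zero fun q hq => ?_
        exfalso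
        rw [Finset.mem_filter, Finsupp.mem_support_iff] at hq
        have h1 : len (Q.1.asIdeal ⊔ Ideal.span {b}) q.1 ≠ 0 := by
          intro h
          apply hq.1
          rw [hdv q, h, Nat.cast_zero]
        have h2 := ((hLENC k B n Q q).2.1 b h1).1
        apply hp
        rw [← hq.2]
        intro x hx
        exact h2 (hJ hx)
      · obtain ⟨-, -, hdim, hnm⟩ := hFLD k A B φ J hfin Q.1 hJ
        have hx : algebraMap B Q.1.asIdeal.ResidueField b ≠ 0 := by
          rw [Ne, Ideal.algebraMap_residueField_eq_zero]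
          exact hb
        obtain ⟨c, d, hcd⟩ := hnm _ hx
        let P : RP k A (n + 1) := ⟨PrimeSpectrum.comap φ.toRingHom Q.1, by rw [hdim]; exact Q.2⟩
        have hker : ∀ a : A, rho φ Q.1 a ≠ 0 → a ∉ P.1.asIdeal := by
          intro a ha hmem
          apply ha
          have h3 : φ.toRingHom a ∈ Q.1.asIdeal := hmem
          show algebraMap B Q.1.asIdeal.ResidueField (φ.toRingHom a) = 0
          rw [Ideal.algebraMap_residueField_eq_zero]
          exact h3
        have hcP := hker c hcd.1
        have hdP := hker d hcd.2.1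
        obtain ⟨zc, hzc⟩ := hDVX k A E n P c hcP
        obtain ⟨zd, hzd⟩ := hDVX k A E n P d hdP
        refine ⟨zc - zd, Submodule.sub_mem _ (Submodule.subset_span ⟨P, c, bot_le, hcP, hzc⟩)
          (Submodule.subset_span ⟨P, d, bot_le, hdP, hzd⟩), fun p hp => ?_⟩
        have key := hFPD k A B φ J hfin n Q b c d hb hJ hcd p hp
          (y.support.filter (fun q => PrimeSpectrum.comap φ.toRingHom q.1 = p.1))
          (fun q hq => (Finset.mem_filter.1 hq).2)
          (fun q h1 h2 h3 => by
            rw [Finset.mem_filter, Finsupp.mem_support_iff]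
            refine ⟨?_, h1⟩
            rw [hdv q]
            exact Nat.cast_ne_zero.2 ((hLENC k B n Q q).2.2.1 b hb h2 h3))
        have key' := congrArg (Nat.cast : ℕ → E) key
        push_cast at key'
        rw [Finsupp.sub_apply, hzc p, hzd p, pf_filter]
        have h4 : ∑ q ∈ y.support.filter
            (fun q => PrimeSpectrum.comap φ.toRingHom q.1 = p.1), y q * (dg φ q.1 : E) =
            ∑ q ∈ y.support.filter
            (fun q => PrimeSpectrum.comap φ.toRingHom q.1 = p.1),
              (len (Q.1.asIdeal ⊔ Ideal.span {b}) q.1 : E) * (dg φ q.1 : E) :=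
          Finset.sum_congr rfl fun q _ => by rw [hdv q]
        rw [h4]
        exact sub_eq_of_eq_add key'.symm
    · exact ⟨0, Submodule.zero_mem _, fun p _ => by simp⟩
    · rintro x y - - ⟨z1, h1, h1'⟩ ⟨z2, h2, h2'⟩
      exact ⟨z1 + z2, Submodule.add_mem _ h1 h2, fun p hp => by
        rw [Finsupp.add_apply, h1' p hp, h2' p hp, map_add]⟩
    · rintro a x - ⟨z1, h1, h1'⟩
      exact ⟨a • z1, Submodule.smul_mem _ _ h1, fun p hp => by
        rw [Finsupp.smul_apply, h1' p hp, map_smul]⟩
  obtain ⟨z, hz, h⟩ := main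
  exact ⟨z, hz, fun p hp => by rw [h p hp, ← pf_eq]⟩

end LOWD
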