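import Pool.Agent.LOWD.StmtsH

/-!
# LOWD: module HEX, homology of affine varieties
-/

set_option autoImplicit false

open Polynomial CategoryTheory AlgebraicGeometry

namespace LOWD

open CUB Pool.Agent.Lib_helper55.Beil

universe v

namespace HEX

variable {k E : Type} [Field k] [Field E] {i : ℕ} (T : Homology.{v} k E i)

lemma sub_X (m : ℕ) {Z U X : Var k} (a : ClosedIn Z X) (j : OpenIn U X) (h : Complementary a j)
    (hZ : Subsingleton (T.H m Z)) (hU : Subsingleton (T.H m U)) : Subsingleton (T.H m X) := by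
  refine subsingleton_of_forall_eq 0 fun x => ?_
  obtain ⟨z, hz⟩ := (T.exact_X m a j h x).1 (Subsingleton.elim _ _)
  rw [← hz, Subsingleton.elim z 0, map_zero]

lemma sub_Z (m : ℕ) {Z U X : Var k} (a : ClosedIn Z X) (j : OpenIn U X) (h : Complementary a j)
    (hU : Subsingleton (T.H (m + 1) U)) (hX : Subsingleton (T.H m X)) :
    Subsingleton (T.H m Z) := by
  obtain ⟨bd, hbd⟩ := (T.localisation m Z U X a j h).2
  refine subsingleton_of_forall_eq 0 fun z => ?_
  obtain ⟨u, hu⟩ := (hbd z).1 (Subsingleton.elim _ _)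
  rw [← hu, Subsingleton.elim u 0, map_zero]

lemma sub_iso (m : ℕ) (A B : Type) [CommRing A] [CommRing B] [Algebra k A] [Algebra k B]
    [Algebra.FiniteType k A] [Algebra.FiniteType k B] (e : A ≃ₐ[k] B)
    (h : Subsingleton (T.H m (aff k A))) : Subsingleton (T.H m (aff k B)) :=
  (push_viso_bijective T m (viso e)).injective.subsingleton

lemma empty_aff (m : ℕ) (A : Type) [CommRing A] [Algebra k A] [Algebra.FiniteType k A]
    (h : Subsingleton A) : Subsingleton (T.H m (aff k A)) := by
  apply T.empty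
  exact ⟨fun x => by
    have h1 : PrimeSpectrum A := ofPt (k := k) x
    exact h1.2.ne_top (Subsingleton.elim _ _)⟩

lemma sub_nil (m : ℕ) (A Z : Type) [CommRing A] [CommRing Z] [Algebra k A] [Algebra k Z]
    [Algebra.FiniteType k A] [Algebra.FiniteType k Z] (ζ : A →ₐ[k] Z)
    (hζ : Function.Surjective ζ) (hn : ∀ x, ζ x = 0 → IsNilpotent x)
    (h : Subsingleton (T.H m (aff k Z))) : Subsingleton (T.H m (aff k A)) := by
  have h0 := isLocalization_awayHom (k := k) (0 : A)
  have hc : Complementary (clo ζ hζ) (opn (awayHom k (0 : A)) (isOpenImmersion_spm _ 0 h0)) := by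
    have h1 : Set.range (clo ζ hζ).g =
        (Set.range (PrimeSpectrum.comap ζ.toRingHom) : Set (PrimeSpectrum A)) := rfl
    have h2 : Set.range (opn (awayHom k (0 : A)) (isOpenImmersion_spm _ 0 h0)).g =
        (Set.range (PrimeSpectrum.comap (awayHom k (0 : A)).toRingHom) :
          Set (PrimeSpectrum A)) := rfl
    have h3 : (Set.range (PrimeSpectrum.comap ζ.toRingHom) : Set (PrimeSpectrum A)) =
        (Set.range (PrimeSpectrum.comap (awayHom k (0 : A)).toRingHom))ᶜ := by
      rw [range_spm_surj ζ hζ, range_spm_away _ 0 h0]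
      ext p
      simp only [Set.mem_compl_iff, Set.mem_ofPred_eq, Submodule.zero_mem, not_true_eq_false,
        not_false_eq_true, iff_true]
      intro x hx
      obtain ⟨n, hn⟩ := hn x hx
      have h4 : x ^ n ∈ p.asIdeal := by
        rw [hn]
        exact p.asIdeal.zero_mem
      exact p.2.mem_of_pow_mem _ h4
    unfold Complementary
    rw [h1, h2]
    exact h3
  refine sub_X T m _ _ hc h (empty_aff T m _ ?_)
  exact IsLocalization.subsingleton (M := Submonoid.powers (0 : A)) (Submonoid.mem_powers _)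

end HEX

open HEX in
theorem t_HEX : S_HEX.{v} := by
  intro k E _ _ i T m
  refine ⟨?_, ?_, ?_, ?_, ?_⟩
  · intro A B _ _ _ _ _ _ e h
    exact sub_iso T m A B e h
  · intro A Z U _ _ _ _ _ _ _ _ _ a ζ υ hζ hk hl
    have hc := complementary_away υ a hl ζ hζ hk
    exact ⟨fun hZ hU => sub_X T m _ _ hc hZ hU, fun hU hA => sub_Z T m _ _ hc hU hA⟩
  · intro A Z _ _ _ _ _ _ ζ hζ hn h
    exact sub_nil T m A Z ζ hζ hn h
  · intro A _ _ _ h
    exact empty_aff T m A h
  · intro A _ _ _ _ _ h
    refine T.artin m (aff k A) inferInstance inferInstance ?_ ?_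
    · exact (HasRingHomProperty.Spec_iff (P := @Smooth)).2 (RingHom.smooth_algebraMap.2 inferInstance)
    · rw [dim_generic_aff]
      exact h

end LOWD
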