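import Pool.Agent.LOWD.Stmts

/-!
# LOWD: the module HOM
-/

set_option autoImplicit false

open Polynomial

namespace LOWD

open CUB

namespace HOM

variable {σ A : Type} [CommRing A]

/-- The coefficient at `t ^ e` is homogeneous of degree `e`. -/
def Hg (P : (MvPolynomial σ A)[X]) : Prop := ∀ e : ℕ, (P.coeff e).IsHomogeneous e

lemma Hg.add {P Q : (MvPolynomial σ A)[X]} (hP : Hg P) (hQ : Hg Q) : Hg (P + Q) := by
  intro e
  rw [coeff_add]
  exact (hP e).add (hQ e)

lemma Hg.mul {P Q : (MvPolynomial σ A)[X]} (hP : Hg P) (hQ : Hg Q) : Hg (P * Q) := by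
  intro e
  rw [coeff_mul]
  apply MvPolynomial.IsHomogeneous.sum
  rintro ⟨i, j⟩ hij
  rw [Finset.HasAntidiagonal.mem_antidiagonal] at hij
  have := (hP i).mul (hQ j)
  rw [hij] at this
  exact this

lemma Hg_C (r : A) : Hg (C (MvPolynomial.C r) : (MvPolynomial σ A)[X]) := by
  intro e
  rw [coeff_C]
  split_ifs with h
  · rw [h]
    exact MvPolynomial.isHomogeneous_C σ r
  · exact MvPolynomial.isHomogeneous_zero σ A e

lemma Hg_X (j : σ) : Hg (C (MvPolynomial.X j) * X : (MvPolynomial σ A)[X]) := by
  intro e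
  rw [coeff_C_mul, coeff_X]
  split_ifs with h
  · rw [← h, mul_one]
    exact MvPolynomial.isHomogeneous_X A j
  · rw [mul_zero]
    exact MvPolynomial.isHomogeneous_zero σ A e

end HOM

open HOM in
theorem t_HOM : S_HOM := by
  intro ι σ R _ f d ie
  have key : ∀ g : MvPolynomial σ R,
      Hg (ln g (fun j => MvPolynomial.C (xx f j)) (fun j => MvPolynomial.X j) :
        (MvPolynomial σ (AR f))[X]) := by
    intro g
    unfold ln
    induction g using MvPolynomial.induction_on with
    | C r =>
      have h : (MvPolynomial.aeval (fun j => C (MvPolynomial.C (xx f j)) +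
          C (MvPolynomial.X j) * X : σ → (MvPolynomial σ (AR f))[X])) (MvPolynomial.C r) =
          C (MvPolynomial.C (algebraMap R (AR f) r)) := by
        rw [MvPolynomial.algHom_C, Polynomial.algebraMap_apply]
        rfl
      rw [h]
      exact Hg_C _
    | add p q hp hq =>
      rw [map_add]
      exact hp.add hq
    | mul_X p j hp =>
      rw [map_mul, MvPolynomial.aeval_X]
      exact hp.mul ((Hg_C _).add (Hg_X j))
  exact key (f ie.1) (ie.2 + 1)

end LOWD
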