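import Pool.Agent.LOWD.Stmts

/-!
# LOWD: module HTM (Krull)
-/

set_option autoImplicit false

namespace LOWD

namespace HTM

/-- The height of a maximal ideal of a polynomial ring over a field is the number of variables. -/
theorem height_max (K : Type) [Field K] (σ : Type) [Finite σ] :
    ∀ m : Ideal (MvPolynomial σ K), m.IsMaximal → m.height = (Nat.card σ : ℕ∞) := by
  induction σ using Finite.induction_empty_option with
  | of_equiv e H =>
    intro m hm
    have h := RingEquiv.height_comap (MvPolynomial.renameEquiv K e).toRingEquiv m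
    rw [← h, H _ (Ideal.comap_isMaximal_of_equiv (MvPolynomial.renameEquiv K e).toRingEquiv),
      Nat.card_congr e]
  | h_empty =>
    intro m hm
    have h1 : (m.height : WithBot ℕ∞) ≤ ringKrullDim (MvPolynomial PEmpty K) :=
      Ideal.height_le_ringKrullDim_of_ne_top hm.ne_top
    rw [MvPolynomial.ringKrullDim_of_isNoetherianRing] at h1
    simp at h1
    simpa using h1
  | @h_option σ _ IH =>
    intro m hm
    set e := (MvPolynomial.optionEquivLeft K σ).toRingEquiv with he
    have h := RingEquiv.height_map e m
    have hM : (m.map e).IsMaximal := Ideal.map_isMaximal_of_equiv e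
    have hp : ((m.map e).under (MvPolynomial σ K)).IsMaximal :=
      Polynomial.isMaximal_comap_C_of_isJacobsonRing _
    have h2 := Polynomial.height_eq_height_add_one ((m.map e).under (MvPolynomial σ K)) (m.map e)
    rw [← h, h2, IH _ hp]
    simp

end HTM

theorem t_HTM : S_HTM := by
  intro K σ κ _ _ _ F m hm hF hlt
  by_contra hcon
  push Not at hcon
  have hmin : m ∈ (Ideal.span (Set.range F)).minimalPrimes := by
    refine ⟨⟨hm.isPrime, Ideal.span_le.2 ?_⟩, ?_⟩
    · rintro _ ⟨i, rfl⟩
      exact hF i
    · intro q hq hqm
      by_contra hmq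
      obtain ⟨i, hi⟩ := hcon q hq.1 (lt_of_le_not_ge hqm hmq)
      exact hi (hq.2 (Ideal.subset_span ⟨i, rfl⟩))
  have h1 := Ideal.height_le_card_of_mem_minimalPrimes_span (Set.finite_range F) hmin
  rw [HTM.height_max K σ m hm] at h1
  have h2 : (Set.range F).ncard ≤ Fintype.card κ := by
    rw [← Set.image_univ, ← Nat.card_eq_fintype_card, ← Set.ncard_univ]
    exact Set.ncard_image_le (Set.finite_univ)
  have h3 : Nat.card σ ≤ (Set.range F).ncard := by exact_mod_cast h1
  rw [Nat.card_eq_fintype_card] at h3
  omega

end LOWD
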