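import Pool.Agent.LOWD.Stmts

/-!
# LOWD: fewer forms than variables have a common zero
-/

set_option autoImplicit false

open Polynomial

namespace LOWD

open CUB

namespace KRU

/-- A prime ideal which contains all the variables contains the polynomials vanishing at `0`. -/
lemma sub_mem {K σ : Type} [Field K] (q : Ideal (MvPolynomial σ K))
    (hX : ∀ j, MvPolynomial.X j ∈ q) (f : MvPolynomial σ K) :
    f - MvPolynomial.C (MvPolynomial.constantCoeff f) ∈ q := by
  induction f using MvPolynomial.induction_on with
  | C a => simp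
  | add f g hf hg =>
    have h : f + g - MvPolynomial.C (MvPolynomial.constantCoeff (f + g)) =
        (f - MvPolynomial.C (MvPolynomial.constantCoeff f)) +
          (g - MvPolynomial.C (MvPolynomial.constantCoeff g)) := by
      rw [map_add, map_add]
      ring
    rw [h]
    exact q.add_mem hf hg
  | mul_X f j _ =>
    have h : MvPolynomial.constantCoeff (f * MvPolynomial.X j) = 0 := by simp
    rw [h, map_zero, sub_zero]
    exact q.mul_mem_left _ (hX j)

end KRU

open KRU in
theorem t_KRU : M_KRU := by
  intro hHTM A σ κ _ _ _ G e hG he hcard p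
  set K := p.asIdeal.ResidueField with hK
  have hF : ∀ i, (G i).map (algebraMap A K) ∈
      RingHom.ker (MvPolynomial.constantCoeff : MvPolynomial σ K →+* K) := by
    intro i
    rw [RingHom.mem_ker, MvPolynomial.constantCoeff_map]
    have h : MvPolynomial.constantCoeff (G i) = 0 := by
      rw [MvPolynomial.constantCoeff_eq]
      apply (hG i).coeff_eq_zero
      rw [map_zero]
      exact (he i).ne
    rw [h, map_zero]
  have hmax : (RingHom.ker (MvPolynomial.constantCoeff : MvPolynomial σ K →+* K)).IsMaximal := by
    apply RingHom.ker_isMaximal_of_surjective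
    intro c
    exact ⟨MvPolynomial.C c, MvPolynomial.constantCoeff_C σ c⟩
  obtain ⟨q, hq, hlt, hFq⟩ := hHTM K σ κ (fun i => (G i).map (algebraMap A K)) _ hmax hF hcard
  have hj : ∃ j, MvPolynomial.X j ∉ q := by
    by_contra hcon
    push Not at hcon
    apply hlt.not_ge
    intro f hf
    have h := sub_mem q hcon f
    rw [RingHom.mem_ker.1 hf, map_zero, sub_zero] at h
    exact h
  obtain ⟨j, hj⟩ := hj
  have hw : ∃ w ∈ MvPolynomial.zeroLocus (AlgebraicClosure K) q, w j ≠ 0 := by
    by_contra hcon
    push Not at hcon
    apply hj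
    rw [← MvPolynomial.IsPrime.vanishingIdeal_zeroLocus (K := AlgebraicClosure K) q]
    intro x hx
    rw [MvPolynomial.aeval_X]
    exact hcon x hx
  obtain ⟨w, hw, hwj⟩ := hw
  refine ⟨w, fun h => hwj (by rw [h]; rfl), fun j hj => absurd (Set.mem_univ j) hj, fun i => ?_⟩
  have h := hw _ (hFq i)
  rw [MvPolynomial.aeval_map_algebraMap] at h
  exact h

end LOWD
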