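import Pool.Agent.LOWD.StmtsH

/-!
# LOWD, part 2: NICE

A nonzero reduced algebra of finite type over a perfect field has a nonzero localisation which is a
smooth domain.
-/

set_option autoImplicit false

namespace LOWD

namespace NICE

/-- In a reduced Noetherian ring a minimal prime is annihilated by an element outside of it. -/
theorem exists_ann {A : Type} [CommRing A] [IsNoetherianRing A] [IsReduced A] (p : Ideal A)
    (hp : p ∈ minimalPrimes A) : ∃ g : A, g ∉ p ∧ ∀ x ∈ p, g * x = 0 := by
  classical
  have hpp : p.IsPrime := Ideal.IsMinimalPrime.isPrime hp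
  have hfin : (minimalPrimes A).Finite := Ideal.finite_minimalPrimes_of_isNoetherianRing A ⊥
  let T : Finset (Ideal A) := hfin.toFinset.erase p
  have hT : ¬ T.inf id ≤ p := by
    rw [Ideal.IsPrime.inf_le' hpp]
    rintro ⟨q, hq, hqp⟩
    have h1 : q ≠ p := Finset.ne_of_mem_erase hq
    have h2 : q ∈ minimalPrimes A := by
      have := Finset.mem_of_mem_erase hq
      simpa using this
    apply h1
    refine le_antisymm hqp ?_
    exact hp.2 h2.1 hqp
  obtain ⟨g, hg, hgp⟩ := SetLike.not_le_iff_exists.1 hT
  refine ⟨g, hgp, fun x hx => ?_⟩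
  have : g * x ∈ nilradical A := by
    rw [nilradical, ← Ideal.sInf_minimalPrimes, Ideal.mem_sInf]
    intro q hq
    by_cases hqp : q = p
    · subst hqp
      exact Ideal.mul_mem_left _ _ hx
    · refine Ideal.mul_mem_right _ _ ?_
      have hqT : q ∈ T := by
        refine Finset.mem_erase.2 ⟨hqp, ?_⟩
        simpa using hq
      exact (Finset.inf_le (f := id) hqT : T.inf id ≤ id q) hg
  rw [nilradical_eq_zero] at this
  simpa using this

theorem isDomain_away {A : Type} [CommRing A] (p : Ideal A) [p.IsPrime] (h : A) (hp : h ∉ p)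
    (hx : ∀ x ∈ p, h * x = 0) : IsDomain (Localization.Away h) := by
  have hpow : ∀ m : Submonoid.powers h, (m : A) ∉ p := by
    rintro ⟨m, n, rfl⟩ hm
    exact hp (Ideal.IsPrime.mem_of_pow_mem inferInstance n hm)
  have key : ∀ (x : A) (s : Submonoid.powers h), x ∈ p →
      IsLocalization.mk' (Localization.Away h) x s = 0 := by
    intro x s hxp
    rw [IsLocalization.mk'_eq_zero_iff]
    exact ⟨⟨h, Submonoid.mem_powers h⟩, hx x hxp⟩
  have : Nontrivial (Localization.Away h) := by
    rw [← not_subsingleton_iff_nontrivial, 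
      IsLocalization.subsingleton_iff (M := Submonoid.powers h)]
    intro h0
    exact hpow ⟨0, h0⟩ (Ideal.zero_mem p)
  have : NoZeroDivisors (Localization.Away h) := by
    refine ⟨fun {a b} hab => ?_⟩
    obtain ⟨x, s, rfl⟩ := IsLocalization.exists_mk'_eq (Submonoid.powers h) a
    obtain ⟨y, t, rfl⟩ := IsLocalization.exists_mk'_eq (Submonoid.powers h) b
    rw [← IsLocalization.mk'_mul, IsLocalization.mk'_eq_zero_iff] at hab
    obtain ⟨m, hm⟩ := hab
    have h1 : (m : A) * (x * y) ∈ p := by rw [hm]; exact Ideal.zero_mem p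
    rcases Ideal.IsPrime.mem_or_mem inferInstance h1 with h2 | h2
    · exact absurd h2 (hpow m)
    · rcases Ideal.IsPrime.mem_or_mem inferInstance h2 with h3 | h3
      · exact Or.inl (key x s h3)
      · exact Or.inr (key y t h3)
  exact NoZeroDivisors.to_isDomain _

theorem isField_atPrime {A : Type} [CommRing A] (p : Ideal A) [p.IsPrime] (g : A) (hp : g ∉ p)
    (hx : ∀ x ∈ p, g * x = 0) : IsField (Localization.AtPrime p) := by
  rw [IsLocalRing.isField_iff_maximalIdeal_eq, eq_bot_iff]
  intro a ha
  obtain ⟨x, s, rfl⟩ := IsLocalization.exists_mk'_eq p.primeCompl a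
  rw [Ideal.mem_bot, IsLocalization.mk'_eq_zero_iff]
  refine ⟨⟨g, hp⟩, hx x ?_⟩
  exact (IsLocalization.AtPrime.mk'_mem_maximal_iff (Localization.AtPrime p) p x s).1 ha

theorem smoothAt {k A : Type} [Field k] [PerfectField k] [CommRing A] [Algebra k A]
    [Algebra.FiniteType k A] (p : Ideal A) [p.IsPrime] (hf : IsField (Localization.AtPrime p)) :
    Algebra.IsSmoothAt k p := by
  have : Algebra.EssFiniteType k (Localization.AtPrime p) := inferInstance
  let : Field (Localization.AtPrime p) := hf.toField
  exact Algebra.FormallySmooth.of_perfectField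

end NICE

theorem t_NICE : S_NICE := by
  intro k A _ _ _ _ _ _ _
  have : IsNoetherianRing A := Algebra.FiniteType.isNoetherianRing k A
  have : Algebra.FinitePresentation k A := Algebra.FinitePresentation.of_finiteType.1 inferInstance
  obtain ⟨p, hp⟩ := Ideal.nonempty_minimalPrimes (I := (⊥ : Ideal A)) bot_ne_top
  have hpp : p.IsPrime := Ideal.IsMinimalPrime.isPrime hp
  obtain ⟨g, hg, hgx⟩ := NICE.exists_ann p hp
  have hsm : Algebra.IsSmoothAt k p := NICE.smoothAt p (NICE.isField_atPrime p g hg hgx)
  obtain ⟨f, hf, hs⟩ := Algebra.IsSmoothAt.exists_notMem_smooth k p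
  refine ⟨f * g, NICE.isDomain_away p (f * g) ?_ ?_, ?_⟩
  · intro h
    rcases Ideal.IsPrime.mem_or_mem hpp h with h1 | h1
    · exact hf h1
    · exact hg h1
  · intro x hx
    rw [mul_assoc, hgx x hx, mul_zero]
  · rw [← Algebra.basicOpen_subset_smoothLocus_iff_smooth] at hs ⊢
    refine Set.Subset.trans ?_ hs
    intro q hq
    exact (PrimeSpectrum.basicOpen_mul_le_left f g) hq

end LOWD
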