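import Pool.Agent.LOWD.Stmts

/-!
# LOWD: the module NUL
-/

set_option autoImplicit false

namespace LOWD

namespace NUL

open MvPolynomial

section Gr

attribute [local instance] MvPolynomial.gradedAlgebra

variable {A σ κ : Type} [CommRing A]

lemma hom_relS {G : κ → MvPolynomial σ A} {e : κ → ℕ} (hG : ∀ i, (G i).IsHomogeneous (e i))
    (S : Set σ) : (relS G S).IsHomogeneous (homogeneousSubmodule σ A) := by
  unfold relS
  refine Ideal.homogeneous_span _ _ ?_
  rintro x (⟨j, -, rfl⟩ | ⟨i, rfl⟩)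
  · exact ⟨1, isHomogeneous_X A j⟩
  · exact ⟨e i, hG i⟩

lemma comp_mem {G : κ → MvPolynomial σ A} {e : κ → ℕ} (hG : ∀ i, (G i).IsHomogeneous (e i))
    {S : Set σ} {r : MvPolynomial σ A} (hr : r ∈ relS G S) (n : ℕ) :
    homogeneousComponent n r ∈ relS G S :=
  homogeneousComponent_mem_of_mem (hom_relS hG S) hr n

end Gr

variable {A σ κ : Type} [CommRing A]

/-- The image of the ideal over the residue field. -/
noncomputable def II (G : κ → MvPolynomial σ A) (S : Set σ) (p : PrimeSpectrum A) :
    Ideal (MvPolynomial σ p.asIdeal.ResidueField) :=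
  (relS G S).map (MvPolynomial.map (algebraMap A p.asIdeal.ResidueField))

lemma zero_of {G : κ → MvPolynomial σ A} {S : Set σ} {p : PrimeSpectrum A}
    (h : ¬ SolAt G S p) {x : σ → AlgebraicClosure p.asIdeal.ResidueField}
    (hx : x ∈ zeroLocus (AlgebraicClosure p.asIdeal.ResidueField) (II G S p)) : x = 0 := by
  by_contra h0
  refine h ⟨x, h0, fun j hj => ?_, fun i => ?_⟩
  · have h1 : MvPolynomial.map (algebraMap A p.asIdeal.ResidueField) (X j : MvPolynomial σ A) ∈
        II G S p := Ideal.mem_map_of_mem _ (Ideal.subset_span (Or.inl ⟨j, hj, rfl⟩))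
    have h2 := hx _ h1
    rwa [map_X, aeval_X] at h2
  · have h1 : MvPolynomial.map (algebraMap A p.asIdeal.ResidueField) (G i) ∈
        II G S p := Ideal.mem_map_of_mem _ (Ideal.subset_span (Or.inr ⟨i, rfl⟩))
    have h2 := hx _ h1
    rwa [aeval_map_algebraMap] at h2

lemma X_rad [Finite σ] {G : κ → MvPolynomial σ A} {S : Set σ} {p : PrimeSpectrum A}
    (h : ¬ SolAt G S p) (j : σ) : ∃ n : ℕ, (X j : MvPolynomial σ p.asIdeal.ResidueField) ^ n ∈
      II G S p := by
  have h1 := vanishingIdeal_zeroLocus_eq_radical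
    (K := AlgebraicClosure p.asIdeal.ResidueField) (II G S p)
  have h2 : (X j : MvPolynomial σ p.asIdeal.ResidueField) ∈ (II G S p).radical := by
    rw [← h1]
    intro x hx
    rw [zero_of h hx, aeval_X]
    rfl
  exact h2

/-- All monomials of large degree are in the ideal. -/
lemma mono_mem [Fintype σ] {G : κ → MvPolynomial σ A} {S : Set σ} {p : PrimeSpectrum A}
    (h : ¬ SolAt G S p) : ∃ N : ℕ, ∀ m : σ →₀ ℕ, N ≤ m.degree →
      monomial m (1 : p.asIdeal.ResidueField) ∈ II G S p := by
  choose n hn using X_rad h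
  refine ⟨∑ j, n j + 1, fun m hm => ?_⟩
  obtain ⟨j, hj⟩ : ∃ j, n j ≤ m j := by
    by_contra hc
    push Not at hc
    have h1 : m.degree ≤ ∑ j, n j := by
      rw [Finsupp.degree_eq_sum]
      exact Finset.sum_le_sum fun j _ => (hc j).le
    omega
  have h2 : Finsupp.single j (n j) + (m - Finsupp.single j (n j)) = m :=
    add_tsub_cancel_of_le (Finsupp.single_le_iff.2 hj)
  have h3 : monomial m (1 : p.asIdeal.ResidueField) =
      monomial (m - Finsupp.single j (n j)) 1 * X j ^ n j := by
    rw [X_pow_eq_monomial, monomial_mul, add_comm, h2, one_mul]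
  rw [h3]
  exact Ideal.mul_mem_left _ _ (hn j)

/-- Denominators of an element of the residue field. -/
lemma den (p : PrimeSpectrum A) (z : p.asIdeal.ResidueField) : ∃ s ∉ p.asIdeal, ∃ a : A,
    algebraMap A p.asIdeal.ResidueField s * z = algebraMap A p.asIdeal.ResidueField a := by
  obtain ⟨w, rfl⟩ := IsLocalRing.residue_surjective z
  obtain ⟨⟨a, s⟩, h⟩ := IsLocalization.surj p.asIdeal.primeCompl w
  refine ⟨s, s.2, a, ?_⟩
  have h1 : ∀ x : A, algebraMap A p.asIdeal.ResidueField x =
      IsLocalRing.residue _ (algebraMap A (Localization.AtPrime p.asIdeal) x) := fun x => rfl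
  rw [h1, h1, ← map_mul, mul_comm, h]

lemma mul_not_mem {p : PrimeSpectrum A} {s t : A} (hs : s ∉ p.asIdeal) (ht : t ∉ p.asIdeal) :
    s * t ∉ p.asIdeal := fun h => (p.isPrime.mem_or_mem h).elim hs ht

/-- Denominators of a polynomial over the residue field. -/
lemma denP (p : PrimeSpectrum A) (z : MvPolynomial σ p.asIdeal.ResidueField) :
    ∃ s ∉ p.asIdeal, ∃ a : MvPolynomial σ A,
      C (algebraMap A p.asIdeal.ResidueField s) * z =
        MvPolynomial.map (algebraMap A p.asIdeal.ResidueField) a := by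
  induction z using MvPolynomial.induction_on with
  | C z =>
    obtain ⟨s, hs, a, h⟩ := den p z
    exact ⟨s, hs, C a, by rw [← C_mul, h, map_C]⟩
  | add z z' h h' =>
    obtain ⟨s, hs, a, h⟩ := h
    obtain ⟨s', hs', a', h'⟩ := h'
    refine ⟨s * s', mul_not_mem hs hs', C s' * a + C s * a', ?_⟩
    simp only [map_add, map_mul, map_C]
    linear_combination C (algebraMap A p.asIdeal.ResidueField s') * h +
      C (algebraMap A p.asIdeal.ResidueField s) * h'
  | mul_X z j h =>
    obtain ⟨s, hs, a, h⟩ := h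
    refine ⟨s, hs, a * X j, ?_⟩
    rw [map_mul, map_X, ← h, mul_assoc]

/-- Denominators of an element of the ideal. -/
lemma denI {G : κ → MvPolynomial σ A} {S : Set σ} {p : PrimeSpectrum A}
    {y : MvPolynomial σ p.asIdeal.ResidueField} (hy : y ∈ II G S p) :
    ∃ s ∉ p.asIdeal, ∃ r ∈ relS G S, C (algebraMap A p.asIdeal.ResidueField s) * y =
        MvPolynomial.map (algebraMap A p.asIdeal.ResidueField) r := by
  have h1 : (1 : A) ∉ p.asIdeal := (Ideal.ne_top_iff_one _).1 p.isPrime.ne_top
  unfold II Ideal.map at hy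
  induction hy using Submodule.span_induction with
  | mem y hy =>
    obtain ⟨r, hr, rfl⟩ := hy
    exact ⟨1, h1, r, hr, by rw [map_one, C_1, one_mul]⟩
  | zero => exact ⟨1, h1, 0, Ideal.zero_mem _, by rw [mul_zero, map_zero]⟩
  | add y y' _ _ h h' =>
    obtain ⟨s, hs, r, hr, h⟩ := h
    obtain ⟨s', hs', r', hr', h'⟩ := h'
    refine ⟨s * s', mul_not_mem hs hs', C s' * r + C s * r',
      Ideal.add_mem _ (Ideal.mul_mem_left _ _ hr) (Ideal.mul_mem_left _ _ hr'), ?_⟩
    simp only [map_add, map_mul, map_C]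
    linear_combination C (algebraMap A p.asIdeal.ResidueField s') * h +
      C (algebraMap A p.asIdeal.ResidueField s) * h'
  | smul z y _ h =>
    obtain ⟨s, hs, r, hr, h⟩ := h
    obtain ⟨t, ht, a, h'⟩ := denP p z
    refine ⟨t * s, mul_not_mem ht hs, a * r, Ideal.mul_mem_left _ _ hr, ?_⟩
    simp only [map_mul, smul_eq_mul, ← h, ← h']
    ring

/-- A multiple of a monomial is in the ideal modulo `p`. -/
lemma mono_p [Fintype σ] {G : κ → MvPolynomial σ A} {e : κ → ℕ}
    (hG : ∀ i, (G i).IsHomogeneous (e i)) {S : Set σ} {p : PrimeSpectrum A} {m : σ →₀ ℕ} {N : ℕ}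
    (hm : m.degree = N) (h : monomial m (1 : p.asIdeal.ResidueField) ∈ II G S p) :
    ∃ s ∉ p.asIdeal, ∃ π : MvPolynomial σ A, monomial m s - π ∈ relS G S ∧
      (∀ u, coeff u π ∈ p.asIdeal) ∧ ∀ u, u.degree ≠ N → coeff u π = 0 := by
  classical
  obtain ⟨s, hs, r, hr, h1⟩ := denI h
  refine ⟨s, hs, monomial m s - homogeneousComponent N r, ?_, fun u => ?_, fun u hu => ?_⟩
  · rw [sub_sub_cancel]
    exact comp_mem hG hr N
  · rw [coeff_sub, coeff_homogeneousComponent]
    have h2 : algebraMap A p.asIdeal.ResidueField (coeff u (monomial m s - r)) = 0 := by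
      rw [← coeff_map, map_sub, ← h1, map_monomial, C_mul_monomial, mul_one, sub_self, coeff_zero]
    rw [Ideal.algebraMap_residueField_eq_zero, coeff_sub] at h2
    by_cases hu : u.degree = N
    · rw [if_pos hu]
      exact h2
    · rw [if_neg hu, coeff_monomial, if_neg (by rintro rfl; exact hu hm), sub_zero]
      exact Ideal.zero_mem _
  · rw [coeff_sub, coeff_homogeneousComponent, if_neg hu, coeff_monomial,
      if_neg (by rintro rfl; exact hu hm), sub_zero]

lemma finite_deg [Fintype σ] (N : ℕ) : {m : σ →₀ ℕ | m.degree = N}.Finite := by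
  classical
  have h : {m : σ →₀ ℕ | m.degree = N} ⊆ Set.Icc 0 (Finsupp.equivFunOnFinite.symm fun _ => N) := by
    intro m hm
    refine ⟨zero_le, fun j => ?_⟩
    have h1 : m.degree = N := hm
    rw [Finsupp.degree_eq_sum] at h1
    have h2 : m j ≤ ∑ i, m i := Finset.single_le_sum (f := fun i => m i) (fun _ _ => Nat.zero_le _)
      (Finset.mem_univ j)
    exact h2.trans_eq h1
  exact (Set.finite_Icc _ _).subset h

/-- The common denominator. -/
lemma common [Fintype σ] {G : κ → MvPolynomial σ A} {e : κ → ℕ}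
    (hG : ∀ i, (G i).IsHomogeneous (e i)) {S : Set σ} {p : PrimeSpectrum A} {N : ℕ}
    (h : ∀ m : σ →₀ ℕ, N ≤ m.degree → monomial m (1 : p.asIdeal.ResidueField) ∈ II G S p) :
    ∃ s ∉ p.asIdeal, ∀ m : σ →₀ ℕ, m.degree = N → ∃ π : MvPolynomial σ A,
      monomial m s - π ∈ relS G S ∧ (∀ u, coeff u π ∈ p.asIdeal) ∧
        ∀ u, u.degree ≠ N → coeff u π = 0 := by
  have key : ∀ W : Finset (σ →₀ ℕ), (∀ m ∈ W, m.degree = N) → ∃ s ∉ p.asIdeal, ∀ m ∈ W,
      ∃ π : MvPolynomial σ A, monomial m s - π ∈ relS G S ∧ (∀ u, coeff u π ∈ p.asIdeal) ∧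
        ∀ u, u.degree ≠ N → coeff u π = 0 := by
    classical
    intro W
    induction W using Finset.induction_on with
    | empty =>
      intro _
      exact ⟨1, (Ideal.ne_top_iff_one _).1 p.isPrime.ne_top, fun m hm => absurd hm (by simp)⟩
    | insert m W _ ih =>
      intro hW
      obtain ⟨s, hs, h1⟩ := ih fun u hu => hW u (Finset.mem_insert_of_mem hu)
      have hm := hW m (Finset.mem_insert_self _ _)
      obtain ⟨t, ht, π, q1, q2, q3⟩ := mono_p hG hm (h m hm.ge)
      have hmul : ∀ (u : σ →₀ ℕ) (a b : A) (π : MvPolynomial σ A),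
          monomial u (a * b) - C a * π = C a * (monomial u b - π) := by
        intro u a b π
        rw [mul_sub, C_mul_monomial]
      refine ⟨t * s, mul_not_mem ht hs, fun u hu => ?_⟩
      rcases Finset.mem_insert.1 hu with rfl | hu
      · refine ⟨C s * π, ?_, fun v => ?_, fun v hv => ?_⟩
        · rw [mul_comm t s, hmul]
          exact Ideal.mul_mem_left _ _ q1
        · rw [coeff_C_mul]
          exact Ideal.mul_mem_left _ _ (q2 v)
        · rw [coeff_C_mul, q3 v hv, mul_zero]
      · obtain ⟨π', q1', q2', q3'⟩ := h1 u hu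
        refine ⟨C t * π', ?_, fun v => ?_, fun v hv => ?_⟩
        · rw [hmul]
          exact Ideal.mul_mem_left _ _ q1'
        · rw [coeff_C_mul]
          exact Ideal.mul_mem_left _ _ (q2' v)
        · rw [coeff_C_mul, q3' v hv, mul_zero]
  obtain ⟨s, hs, h1⟩ := key (finite_deg N).toFinset fun m hm => (finite_deg N).mem_toFinset.1 hm
  exact ⟨s, hs, fun m hm => h1 m ((finite_deg N).mem_toFinset.2 hm)⟩

/-- The determinant trick. -/
lemma det_trick {M : Type} [AddCommGroup M] [Module A M] (p : PrimeSpectrum A)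
    (W : Submodule A M) (hW : W.FG) {s : A} (hs : s ∉ p.asIdeal)
    (h : ∀ w ∈ W, s • w ∈ p.asIdeal • W) : ∃ a ∉ p.asIdeal, ∀ w ∈ W, a • w = 0 := by
  have hf : Module.Finite A W := Module.Finite.iff_fg.2 hW
  have h1 : LinearMap.range (algebraMap A (Module.End A W) s) ≤ p.asIdeal • (⊤ : Submodule A W) := by
    rintro _ ⟨w, rfl⟩
    rw [Submodule.mem_smul_top_iff, Module.algebraMap_end_apply]
    exact h w w.2
  obtain ⟨P, hP, -, hc, h0⟩ :=
    LinearMap.exists_monic_and_natDegree_eq_and_coeff_mem_pow_and_aeval_eq_zero A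
      (algebraMap A (Module.End A W) s) p.asIdeal h1
  rw [Polynomial.aeval_algebraMap_apply] at h0
  refine ⟨Polynomial.aeval s P, fun ha => ?_, fun w hw => ?_⟩
  · rw [Polynomial.aeval_def, Polynomial.eval₂_eq_sum_range, Finset.sum_range_succ] at ha
    have h2 : ∑ i ∈ Finset.range P.natDegree, (algebraMap A A) (P.coeff i) * s ^ i ∈
        p.asIdeal := by
      refine Ideal.sum_mem _ fun i hi => Ideal.mul_mem_right _ _ ?_
      have h3 : P.coeff i ∈ p.asIdeal ^ (P.natDegree - i) := (hc i)
      exact Ideal.pow_le_self (by have := Finset.mem_range.1 hi; omega) h3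
    have h4 := (Ideal.add_mem_iff_right _ h2).1 ha
    have h5 : P.coeff P.natDegree = 1 := hP
    rw [h5, map_one, one_mul] at h4
    exact hs (p.isPrime.mem_of_pow_mem _ h4)
  · have h2 := LinearMap.congr_fun h0 ⟨w, hw⟩
    rw [Module.algebraMap_end_apply] at h2
    exact congrArg Subtype.val h2

end NUL

open NUL MvPolynomial in
theorem t_NUL : S_NUL := by
  intro A σ κ _ _ G e hG S p hS hle
  obtain ⟨N, hN⟩ := mono_mem hS
  obtain ⟨s, hs, h1⟩ := common hG hN
  let W : Submodule A (MvPolynomial σ A ⧸ relS G S) :=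
    Submodule.span A ((fun m : σ →₀ ℕ => Ideal.Quotient.mk (relS G S) (monomial m (1 : A))) ''
      {m : σ →₀ ℕ | m.degree = N})
  have hW : W.FG := Submodule.fg_span ((finite_deg N).image _)
  have hmk : ∀ (m : σ →₀ ℕ) (a : A), Ideal.Quotient.mk (relS G S) (monomial m a) =
      a • Ideal.Quotient.mk (relS G S) (monomial m (1 : A)) := by
    intro m a
    have h2 : monomial m a = a • monomial m (1 : A) := by
      rw [smul_monomial, smul_eq_mul, mul_one]
    rw [h2]
    rfl
  have hgen : ∀ m : σ →₀ ℕ, m.degree = N →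
      Ideal.Quotient.mk (relS G S) (monomial m (1 : A)) ∈ W := fun m hm =>
    Submodule.subset_span ⟨m, hm, rfl⟩
  obtain ⟨a, ha, h2⟩ := det_trick p W hW hs (by
    intro w hw
    induction hw using Submodule.span_induction with
    | mem w hw =>
      obtain ⟨m, hm, rfl⟩ := hw
      obtain ⟨π, q1, q2, q3⟩ := h1 m hm
      show s • Ideal.Quotient.mk (relS G S) (monomial m (1 : A)) ∈ _
      rw [← hmk m s, Ideal.Quotient.eq.2 q1]
      rw [π.as_sum, map_sum]
      refine Submodule.sum_mem _ fun u hu => ?_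
      rw [hmk]
      refine Submodule.smul_mem_smul (q2 u) (hgen u ?_)
      by_contra hne
      exact (mem_support_iff.1 hu) (q3 u hne)
    | zero => rw [smul_zero]; exact Submodule.zero_mem _
    | add x y _ _ hx hy => rw [smul_add]; exact Submodule.add_mem _ hx hy
    | smul b x _ hx => rw [smul_comm]; exact Submodule.smul_mem _ _ hx)
  refine ha (hle ?_)
  rw [mem_JJ]
  refine ⟨N, ?_⟩
  have h3 : ∀ n : ℕ, ∀ m : σ →₀ ℕ, m.degree = N + n → monomial m a ∈ relS G S := by
    intro n
    induction n with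
    | zero =>
      intro m hm
      rw [← Ideal.Quotient.eq_zero_iff_mem, hmk]
      exact h2 _ (hgen m hm)
    | succ n ih =>
      intro m hm
      obtain ⟨j, hj⟩ : ∃ j, m j ≠ 0 := by
        by_contra hc
        push Not at hc
        have h4 : m = 0 := Finsupp.ext hc
        rw [h4, map_zero] at hm
        omega
      have h5 : Finsupp.single j 1 + (m - Finsupp.single j 1) = m :=
        add_tsub_cancel_of_le (Finsupp.single_le_iff.2 (Nat.one_le_iff_ne_zero.2 hj))
      have h6 : (m - Finsupp.single j 1).degree = N + n := by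
        have h7 := congrArg Finsupp.degree h5
        rw [map_add, Finsupp.degree_single] at h7
        omega
      have h8 : monomial m a = X j * monomial (m - Finsupp.single j 1) a := by
        rw [X, monomial_mul, h5, one_mul]
      rw [h8]
      exact Ideal.mul_mem_left _ _ (ih _ h6)
  intro m hm
  exact h3 (m.degree - N) m (by omega)

end LOWD
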