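import Pool.Agent.LOWD.StmtsH

/-!
# The numerical condition for the homology
-/

set_option autoImplicit false

namespace LOWD

/-- If all degrees are positive and one of them is at least two, the numerical condition of the
theorem in dimension `l` implies the one for the vanishing of the homology in degree `2 * j`,
`j ≤ l`. -/
theorem num2 (r l n j : ℕ) (d : Fin r → ℕ) (h1 : ∀ i, 1 ≤ d i) (h2 : ∃ i, 2 ≤ d i)
    (hn : l + ∑ i, cnt l (d i) < n) (hj : j ≤ l) : 2 * j + r < n := by
  classical
  have hc1 : ∀ i, 1 ≤ cnt l (d i) := by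
    intro i
    have h0 : d i ≠ 0 := by
      have := h1 i
      omega
    rw [cnt, if_neg h0]
    exact Nat.choose_pos (by have := h1 i; omega)
  obtain ⟨i₀, hi₀⟩ := h2
  have hc2 : l + 1 ≤ cnt l (d i₀) := by
    rw [cnt, if_neg (by omega)]
    calc l + 1 = (l + 1).choose l := (Nat.choose_succ_self_right l).symm
      _ ≤ (l + d i₀ - 1).choose l := Nat.choose_le_choose l (by omega)
  have h3 : ∑ i, cnt l (d i) = cnt l (d i₀) + ∑ i ∈ Finset.univ.erase i₀, cnt l (d i) :=
    (Finset.add_sum_erase _ _ (Finset.mem_univ i₀)).symm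
  have h4 : (Finset.univ.erase i₀ : Finset (Fin r)).card • 1 ≤
      ∑ i ∈ Finset.univ.erase i₀, cnt l (d i) :=
    Finset.card_nsmul_le_sum _ _ _ fun i _ => hc1 i
  have h5 : (Finset.univ.erase i₀ : Finset (Fin r)).card = r - 1 := by
    rw [Finset.card_erase_of_mem (Finset.mem_univ _), Finset.card_univ, Fintype.card_fin]
  rw [h5, smul_eq_mul, mul_one] at h4
  have h6 : 0 < r := Fin.pos i₀
  omega

end LOWD
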