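import Pool.Agent.LOWD.Stmts

/-!
# LOWD: module PTQ
-/

set_option autoImplicit false

open CUB

namespace LOWD

namespace PTQ

theorem aeval_scale {A σ K : Type} [CommRing A] [Field K] [Algebra A K]
    (F : MvPolynomial σ A) {e : ℕ} (hF : F.IsHomogeneous e) (w : σ → K) (c : K) :
    MvPolynomial.aeval (fun j => c * w j) F = c ^ e * MvPolynomial.aeval w F := by
  rw [MvPolynomial.aeval_def, MvPolynomial.aeval_def, MvPolynomial.eval₂_eq,
    MvPolynomial.eval₂_eq, Finset.mul_sum]
  refine Finset.sum_congr rfl fun m hm => ?_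
  have h1 : m.degree = e := by
    have := hF (MvPolynomial.mem_support_iff.mp hm)
    rw [Finsupp.degree_eq_weight_one]
    exact this
  have h2 : ∏ i ∈ m.support, (c * w i) ^ m i = c ^ e * ∏ i ∈ m.support, w i ^ m i := by
    rw [← h1, Finsupp.degree_apply, ← Finset.prod_pow_eq_pow_sum, ← Finset.prod_mul_distrib]
    refine Finset.prod_congr rfl fun i _ => ?_
    rw [mul_pow]
  rw [h2]
  ring

theorem trdeg_eq (k A : Type) [Field k] [CommRing A] [Algebra k A] (p : PrimeSpectrum A) :
    Algebra.trdeg k (AlgebraicClosure p.asIdeal.ResidueField) = rdim k p := by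
  unfold rdim
  have := p.isPrime
  have h1 : Algebra.IsAlgebraic (A ⧸ p.asIdeal) p.asIdeal.ResidueField := inferInstance
  have h2 : Algebra.IsAlgebraic (A ⧸ p.asIdeal) (AlgebraicClosure p.asIdeal.ResidueField) :=
    Algebra.IsAlgebraic.trans (A ⧸ p.asIdeal) p.asIdeal.ResidueField _
  have h3 : FaithfulSMul (A ⧸ p.asIdeal) (AlgebraicClosure p.asIdeal.ResidueField) := by
    rw [faithfulSMul_iff_algebraMap_injective, IsScalarTower.algebraMap_eq (A ⧸ p.asIdeal)
      p.asIdeal.ResidueField]
    exact (algebraMap p.asIdeal.ResidueField _).injective.comp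
      (IsFractionRing.injective (A ⧸ p.asIdeal) p.asIdeal.ResidueField)
  have h4 := trdeg_add_eq k (A ⧸ p.asIdeal) (A := AlgebraicClosure p.asIdeal.ResidueField)
  rw [trdeg_eq_zero_iff.2 h2, add_zero] at h4
  exact h4.symm

end PTQ

open PTQ

theorem t_PTQ : S_PTQ := by
  classical
  intro k A σ κ _ _ _ G e hG S a ha n p hsol hnot
  obtain ⟨w, hw0, hwS, hwG⟩ := hsol
  have hwa : w a ≠ 0 := by
    intro h
    refine hnot ⟨w, hw0, fun j hj => ?_, hwG⟩
    by_cases hja : j = a
    · rw [hja, h]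
    · exact hwS j fun h' => by
        rcases Set.mem_insert_iff.mp h' with h1 | h1
        · exact hja h1
        · exact hj h1
  let w' : σ → AlgebraicClosure p.1.asIdeal.ResidueField := fun j => (w a)⁻¹ * w j
  have hw'a : w' a = 1 := inv_mul_cancel₀ hwa
  have hw'S : ∀ j, j ∉ S → j ≠ a → w' j = 0 := by
    intro j hj hja
    show (w a)⁻¹ * w j = 0
    rw [hwS j fun h' => (Set.mem_insert_iff.mp h').elim hja hj, mul_zero]
  have hw'G : ∀ i, MvPolynomial.aeval w' (G i) = 0 := by
    intro i
    rw [aeval_scale (G i) (hG i) w (w a)⁻¹, hwG i, mul_zero]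
  have hle : ∀ x ∈ relB G S a, (MvPolynomial.aeval w' : MvPolynomial σ A →ₐ[A] _) x = 0 := by
    intro x hx
    have h1 : relB G S a ≤ RingHom.ker (MvPolynomial.aeval w' :
        MvPolynomial σ A →ₐ[A] AlgebraicClosure p.1.asIdeal.ResidueField) := by
      refine Ideal.span_le.mpr ?_
      rintro y (hy | hy | hy)
      · rw [Set.mem_singleton_iff] at hy
        rw [hy, SetLike.mem_coe, RingHom.mem_ker, map_sub, MvPolynomial.aeval_X, hw'a, map_one,
          sub_self]
      · obtain ⟨j, ⟨hj, hja⟩, rfl⟩ := hy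
        rw [SetLike.mem_coe, RingHom.mem_ker, MvPolynomial.aeval_X]
        exact hw'S j hj hja
      · obtain ⟨i, rfl⟩ := hy
        rw [SetLike.mem_coe, RingHom.mem_ker]
        exact hw'G i
    exact RingHom.mem_ker.mp (h1 hx)
  let ψ : BR G S a →ₐ[A] AlgebraicClosure p.1.asIdeal.ResidueField :=
    Ideal.Quotient.liftₐ (relB G S a) (MvPolynomial.aeval w') hle
  let ψk : BR G S a →ₐ[k] AlgebraicClosure p.1.asIdeal.ResidueField := ψ.restrictScalars k
  let q : PrimeSpectrum (BR G S a) := ⟨RingHom.ker ψk, RingHom.ker_isPrime ψk⟩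
  have hcomap : PrimeSpectrum.comap (BRh k G S a).toRingHom q = p.1 := by
    apply PrimeSpectrum.ext
    ext x
    show BRh k G S a x ∈ RingHom.ker ψk ↔ x ∈ p.1.asIdeal
    rw [RingHom.mem_ker]
    have h1 : ψk (BRh k G S a x) = algebraMap A (AlgebraicClosure p.1.asIdeal.ResidueField) x :=
      ψ.commutes x
    rw [h1, IsScalarTower.algebraMap_apply A p.1.asIdeal.ResidueField, map_eq_zero]
    exact Ideal.algebraMap_residueField_eq_zero
  have hd : rdim k q = n := by
    refine le_antisymm ?_ ?_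
    · have h1 : rdim k q ≤ Algebra.trdeg k (AlgebraicClosure p.1.asIdeal.ResidueField) :=
        trdeg_le_of_injective (Ideal.kerLiftAlg ψk) (Ideal.kerLiftAlg_injective ψk)
      rw [trdeg_eq, p.2] at h1
      exact h1
    · rw [← p.2, ← hcomap]
      have H : (PrimeSpectrum.comap (BRh k G S a).toRingHom q).asIdeal ≤
        q.asIdeal.comap (BRh k G S a) := le_refl _
      have h1 : Function.Injective (Ideal.quotientMapₐ q.asIdeal (BRh k G S a) H) :=
        Ideal.quotientMap_injective' (H := H) (le_refl _)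
      exact trdeg_le_of_injective (Ideal.quotientMapₐ q.asIdeal (BRh k G S a) H) h1
  exact ⟨⟨q, hd⟩, hcomap⟩

end LOWD
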