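import Pool.Agent.LOWD.NUM2

/-!
# LOWD: from rings to varieties
-/

set_option autoImplicit false

open Polynomial CategoryTheory AlgebraicGeometry

namespace LOWD

open CUB Pool.Agent.Lib_helper55.Beil

universe v

/-- If all cycles are rationally equivalent to zero, then the Chow group is zero. -/
lemma chow_subsingleton {k A E : Type} [Field k] [CommRing A] [Algebra k A]
    [Algebra.FiniteType k A] [Field E] (j : ℕ) (h : ∀ c : RP k A j →₀ E, c ∈ rat k A E j) :
    Subsingleton (Chow E j (aff k A)) := by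
  refine ⟨fun a b => ?_⟩
  obtain ⟨a, rfl⟩ := Submodule.Quotient.mk_surjective _ a
  obtain ⟨b, rfl⟩ := Submodule.Quotient.mk_surjective _ b
  rw [Submodule.Quotient.eq]
  obtain ⟨c, hc⟩ := (cyE (k := k) (A := A) E j).surjective (a - b)
  rw [← hc]
  exact (cyE_mem c).mpr (h c)

lemma inj_of_subsingleton {k E : Type} [Field k] [Field E] {j : ℕ} (T : Homology.{v} k E j)
    (X : Var k) (h : Subsingleton (Chow E j X)) : T.Inj X := by
  intro a b _
  exact Subsingleton.elim a b

lemma surj_of_subsingleton {k E : Type} [Field k] [Field E] {j : ℕ} (T : Homology.{v} k E j)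
    (X : Var k) (h : Subsingleton (T.H (2 * j) X)) : T.Surj X ∧ T.Semisimple X :=
  ⟨fun m _ => ⟨0, Subsingleton.elim _ _⟩, fun _ _ => Subsingleton.elim _ _⟩

/-- The theorem, from the statements of the modules. -/
theorem main (hALL : S_ALL) (hVA : S_VA.{v}) (hVB : S_VB.{v}) (k E R : Type) [Field k]
    [Finite k] [Field E] [CharZero E] [CommRing R] [Algebra k R]
    [Algebra.FiniteType k R] (n r l : ℕ) (f : Fin r → MvPolynomial (Fin n) R) (d : Fin r → ℕ)
    (hf : ∀ i, (f i).totalDegree ≤ d i) (h : l + ∑ i, cnt l (d i) < n) (j : ℕ) (hj : j ≤ l) :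
    Subsingleton (Chow E j (aff k (AR f))) ∧
    ((∀ i, 1 ≤ d i) → (∃ i, 2 ≤ d i) → ∀ T : Homology.{v} k E j,
      Subsingleton (T.H (2 * j) (aff k (AR f)))) := by
  refine ⟨chow_subsingleton j ?_, ?_⟩
  · exact hALL k R E (Fin n) (Fin r) f d hf l (by simpa using h) j hj
  · intro hd hd2 T
    have h1 : 2 * j + r < n := num2 r l n j d hd hd2 h hj
    have h2 := hVA k E j T R (Fin n)
    rw [Fintype.card_fin] at h2
    have : Algebra.FiniteType k (MvPolynomial (Fin n) R) := finiteType_mvp k (Fin n) R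
    exact hVB k E j T n r (MvPolynomial (Fin n) R) (AR f) f (Ideal.Quotient.mkₐ k _) h2
      Ideal.Quotient.mk_surjective Ideal.mk_ker (2 * j) h1

end LOWD
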