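import Pool.Agent.LOWD.Stmts

/-!
# LOWD, module STP: the induction step
-/

set_option autoImplicit false

open Polynomial

namespace LOWD

open CUB

theorem t_STP : M_STP := by
  intro hFLD hFPR hKRU hNUL hFNT hPTQ hHOM hCNT hCB l hl
  intro k R E σ ι _ _ _ _ _ _ _ _ _ f d hd hcard
  classical
  have hG : ∀ ie : (Σ i, Fin (d i)), (GG f d ie).IsHomogeneous (ie.2 + 1) := hHOM ι σ R f d
  have claim : ∀ (S : Finset σ) (p : RP k (AR f) (l + 1)), SolAt (GG f d) (S : Set σ) p.1 →
      Finsupp.single p (1 : E) ∈ rat k (AR f) E (l + 1) := by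
    intro S
    induction S using Finset.induction_on with
    | empty =>
      rintro p ⟨w, hw, h0, -⟩
      exact absurd (funext fun j => h0 j (by simp)) hw
    | insert a S haS ih =>
      intro p hp
      by_cases hS : SolAt (GG f d) (S : Set σ) p.1
      · exact ih p hS
      · have haS' : a ∉ (S : Set σ) := by simpa using haS
        rw [Finset.coe_insert] at hp
        obtain ⟨q, hq⟩ := hPTQ k (AR f) σ _ (GG f d) (fun ie => ie.2 + 1) hG S a haS' (l + 1) p
          hp hS
        have hJ : ¬ JJ (GG f d) (S : Set σ) ≤ p.1.asIdeal :=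
          hNUL (AR f) σ _ (GG f d) (fun ie => ie.2 + 1) hG S p.1 hS
        have hfin : FinOn (BRh k (GG f d) (S : Set σ) a) (JJ (GG f d) (S : Set σ)) :=
          hFNT k (AR f) σ _ (GG f d) (fun ie => ie.2 + 1) hG S a haS'
        have hq1 : Finsupp.single q (1 : E) ∈ rat k (BR (GG f d) (S : Set σ) a) E (l + 1) :=
          hCB l hl k R E σ ι f d hd hcard S a _
        obtain ⟨z, hz, hzp⟩ := hFPR k (AR f) (BR (GG f d) (S : Set σ) a) E
          (BRh k (GG f d) (S : Set σ) a) (JJ (GG f d) (S : Set σ)) hfin (l + 1) _ hq1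
        have hdg : dg (BRh k (GG f d) (S : Set σ) a) q.1 ≠ 0 := by
          refine (hFLD k (AR f) (BR (GG f d) (S : Set σ) a) (BRh k (GG f d) (S : Set σ) a)
            (JJ (GG f d) (S : Set σ)) hfin q.1 ?_).2.1
          rw [hq]
          exact hJ
        have hdgE : (dg (BRh k (GG f d) (S : Set σ) a) q.1 : E) ≠ 0 := Nat.cast_ne_zero.mpr hdg
        -- the rest of the cycle
        have hzv : ∀ p' : RP k (AR f) (l + 1), ¬ JJ (GG f d) (S : Set σ) ≤ p'.1.asIdeal →
            z p' = Finsupp.single p (dg (BRh k (GG f d) (S : Set σ) a) q.1 : E) p' := by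
          intro p' hp'
          rw [hzp p' hp', Finsupp.sum_single_index (by simp), Finsupp.single_apply]
          by_cases hpp : p = p'
          · rw [if_pos hpp, if_pos (by rw [hq, hpp]), mul_one]
          · rw [if_neg hpp, if_neg]
            intro h
            exact hpp (Subtype.ext (hq.symm.trans h))
        have hrest : z - Finsupp.single p (dg (BRh k (GG f d) (S : Set σ) a) q.1 : E) ∈
            rat k (AR f) E (l + 1) := by
          rw [← Finsupp.sum_single
            (z - Finsupp.single p (dg (BRh k (GG f d) (S : Set σ) a) q.1 : E))]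
          refine Submodule.sum_mem _ ?_
          intro p' hp'
          have hJ' : JJ (GG f d) (S : Set σ) ≤ p'.1.asIdeal := by
            by_contra hn
            rw [Finsupp.mem_support_iff, Finsupp.sub_apply, hzv p' hn, sub_self] at hp'
            exact hp' rfl
          have hsol : SolAt (GG f d) (S : Set σ) p'.1 := by
            by_contra hn
            exact hNUL (AR f) σ _ (GG f d) (fun ie => ie.2 + 1) hG S p'.1 hn hJ'
          have h1 := Submodule.smul_mem (rat k (AR f) E (l + 1))
            ((z - Finsupp.single p (dg (BRh k (GG f d) (S : Set σ) a) q.1 : E)) p') (ih p' hsol)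
          rwa [Finsupp.smul_single, smul_eq_mul, mul_one] at h1
        have h2 : Finsupp.single p (dg (BRh k (GG f d) (S : Set σ) a) q.1 : E) ∈
            rat k (AR f) E (l + 1) := by
          have h3 := Submodule.sub_mem _ hz hrest
          rwa [sub_sub_cancel] at h3
        have h4 := Submodule.smul_mem (rat k (AR f) E (l + 1))
          (dg (BRh k (GG f d) (S : Set σ) a) q.1 : E)⁻¹ h2
        rwa [Finsupp.smul_single, smul_eq_mul, inv_mul_cancel₀ hdgE] at h4
  intro c
  rw [← Finsupp.sum_single c]
  refine Submodule.sum_mem _ ?_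
  intro p _
  have hcard2 : Fintype.card (Σ i, Fin (d i)) < Fintype.card σ := by
    rw [Fintype.card_sigma]
    simp only [Fintype.card_fin]
    have h5 : ∑ i, d i ≤ ∑ i, cnt (l + 1) (d i) :=
      Finset.sum_le_sum fun i _ => hCNT.2.1 l (d i)
    omega
  have hsol : SolAt (GG f d) (Set.univ : Set σ) p.1 :=
    hKRU (AR f) σ _ (GG f d) (fun ie => ie.2 + 1) hG (fun _ => Nat.succ_pos _) hcard2 p.1
  have h1 := claim Finset.univ p (by rwa [Finset.coe_univ])
  have h2 := Submodule.smul_mem (rat k (AR f) E (l + 1)) (c p) h1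
  rwa [Finsupp.smul_single, smul_eq_mul, mul_one] at h2

end LOWD
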