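import Pool.Agent.LOWD.Stmts

/-! The substitution `x = x' + y v`. -/

set_option autoImplicit false

open Polynomial

namespace LOWD

open CUB

namespace SUB

section LiftB

variable {ι σ R T : Type} [CommRing R] [CommRing T] [Algebra R T]

/-- homomorphisms on `AR f` -/
noncomputable def liftA (f : ι → MvPolynomial σ R) (x : σ → T)
    (h : ∀ i, MvPolynomial.aeval x (f i) = 0) : AR f →ₐ[R] T :=
  Ideal.Quotient.liftₐ _ (MvPolynomial.aeval x) (by
    intro b hb
    have : Ideal.span (Set.range f) ≤ RingHom.ker (MvPolynomial.aeval (R := R) x).toRingHom := by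
      rw [Ideal.span_le]
      rintro _ ⟨i, rfl⟩
      exact h i
    exact this hb)

lemma liftA_xx (f : ι → MvPolynomial σ R) (x : σ → T)
    (h : ∀ i, MvPolynomial.aeval x (f i) = 0) (j : σ) : liftA f x h (xx f j) = x j := by
  unfold liftA xx
  rw [Ideal.Quotient.liftₐ_apply]
  simp

lemma coeff_zero_of (f : MvPolynomial σ R) (x v : σ → T) (h : ln f x v = 0) :
    MvPolynomial.aeval x f = 0 := by
  rw [← ln_coeff_zero f x v, h, coeff_zero]

/-- homomorphisms on `BR (GG f d) S a` -/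
noncomputable def liftB (f : ι → MvPolynomial σ R) (d : ι → ℕ) (S : Set σ) (a : σ)
    (x v : σ → T) (h : ∀ i, ln (f i) x v = 0) (ha : v a = 1) (hv : ∀ j, j ∉ S → j ≠ a → v j = 0) :
    BR (GG f d) S a →ₐ[R] T :=
  Ideal.Quotient.liftₐ _ (MvPolynomial.aevalTower (liftA f x (fun i => coeff_zero_of _ _ _ (h i))) v)
    (by
      intro b hb
      have : relB (GG f d) S a ≤ RingHom.ker
          (MvPolynomial.aevalTower (liftA f x (fun i => coeff_zero_of _ _ _ (h i))) v).toRingHom := by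
        unfold relB
        rw [Ideal.span_le]
        rintro _ (h1 | ⟨j, hj, rfl⟩ | ⟨ie, rfl⟩)
        · rw [Set.mem_singleton_iff] at h1
          subst h1
          simp [RingHom.mem_ker, ha]
        · simp [RingHom.mem_ker, hv j hj.1 hj.2]
        · change MvPolynomial.aevalTower (liftA f x (fun i => coeff_zero_of _ _ _ (h i))) v
            (GG f d ie) = 0
          have h2 := ln_map (MvPolynomial.aevalTower
            (liftA f x (fun i => coeff_zero_of _ _ _ (h i))) v) (f ie.1)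
            (fun j => MvPolynomial.C (xx f j)) (fun j => MvPolynomial.X j)
          simp only [MvPolynomial.aevalTower_C, MvPolynomial.aevalTower_X, liftA_xx] at h2
          rw [h ie.1] at h2
          have h3 := congrArg (fun p => Polynomial.coeff p (ie.2 + 1)) h2
          simp only [Polynomial.coeff_map, Polynomial.coeff_zero] at h3
          exact h3
      exact this hb)

/-- the coordinates `x` in `BR` -/
noncomputable def xB (f : ι → MvPolynomial σ R) (d : ι → ℕ) (S : Set σ) (a : σ) :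
    σ → BR (GG f d) S a :=
  fun j => Ideal.Quotient.mk _ (MvPolynomial.C (xx f j))

lemma liftB_xB (f : ι → MvPolynomial σ R) (d : ι → ℕ) (S : Set σ) (a : σ)
    (x v : σ → T) (h : ∀ i, ln (f i) x v = 0) (ha : v a = 1) (hv : ∀ j, j ∉ S → j ≠ a → v j = 0)
    (j : σ) : liftB f d S a x v h ha hv (xB f d S a j) = x j := by
  unfold liftB xB
  rw [Ideal.Quotient.liftₐ_apply]
  simp [liftA_xx]

lemma liftB_vB (f : ι → MvPolynomial σ R) (d : ι → ℕ) (S : Set σ) (a : σ)
    (x v : σ → T) (h : ∀ i, ln (f i) x v = 0) (ha : v a = 1) (hv : ∀ j, j ∉ S → j ≠ a → v j = 0)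
    (j : σ) : liftB f d S a x v h ha hv (vB (GG f d) S a j) = v j := by
  unfold liftB vB
  rw [Ideal.Quotient.liftₐ_apply]
  simp

lemma ext_B (f : ι → MvPolynomial σ R) (d : ι → ℕ) (S : Set σ) (a : σ)
    {g h : BR (GG f d) S a →ₐ[R] T} (hx : ∀ j, g (xB f d S a j) = h (xB f d S a j))
    (hv : ∀ j, g (vB (GG f d) S a j) = h (vB (GG f d) S a j)) : g = h := by
  apply Ideal.Quotient.algHom_ext
  apply MvPolynomial.algHom_ext'
  · apply Ideal.Quotient.algHom_ext
    apply MvPolynomial.algHom_ext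
    intro j
    exact hx j
  · intro j
    exact hv j

lemma ln_B (f : ι → MvPolynomial σ R) (d : ι → ℕ) (S : Set σ) (a : σ)
    (hd : ∀ i, (f i).totalDegree ≤ d i) (i : ι) :
    ln (f i) (xB f d S a) (vB (GG f d) S a) = 0 := by
  have h2 := ln_map (Ideal.Quotient.mkₐ R (relB (GG f d) S a)) (f i)
    (fun j => MvPolynomial.C (xx f j)) (fun j => MvPolynomial.X j)
  change _ = ln (f i) (xB f d S a) (vB (GG f d) S a) at h2
  ext e
  rw [← h2, Polynomial.coeff_map, Polynomial.coeff_zero]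
  rcases e with _ | e
  · rw [ln_coeff_zero]
    have h3 : MvPolynomial.aeval (fun j => (MvPolynomial.C (xx f j) : MvPolynomial σ (AR f)))
        (f i) = MvPolynomial.C (MvPolynomial.aeval (xx f) (f i)) := by
      have : (MvPolynomial.aeval (fun j => (MvPolynomial.C (xx f j) : MvPolynomial σ (AR f))) :
          MvPolynomial σ R →ₐ[R] MvPolynomial σ (AR f)) =
          (IsScalarTower.toAlgHom R (AR f) (MvPolynomial σ (AR f))).comp
            (MvPolynomial.aeval (xx f)) := by
        apply MvPolynomial.algHom_ext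
        intro j
        simp [MvPolynomial.algebraMap_eq]
      rw [this]
      simp [MvPolynomial.algebraMap_eq]
    rw [h3, aeval_xx]
    simp
  · by_cases he : e < d i
    · change Ideal.Quotient.mk _ (GG f d ⟨i, ⟨e, he⟩⟩) = 0
      rw [Ideal.Quotient.eq_zero_iff_mem]
      unfold relB
      exact Ideal.subset_span (Or.inr (Or.inr ⟨_, rfl⟩))
    · rw [ln_coeff_eq_zero _ _ _ _ (by have := hd i; omega), map_zero]

lemma vB_a (f : ι → MvPolynomial σ R) (d : ι → ℕ) (S : Set σ) (a : σ) :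
    vB (GG f d) S a a = 1 := by
  unfold vB
  rw [← map_one (Ideal.Quotient.mk _), Ideal.Quotient.eq]
  unfold relB
  exact Ideal.subset_span (Or.inl rfl)

lemma vB_j (f : ι → MvPolynomial σ R) (d : ι → ℕ) (S : Set σ) (a : σ) (j : σ) (h1 : j ∉ S)
    (h2 : j ≠ a) : vB (GG f d) S a j = 0 := by
  unfold vB
  rw [Ideal.Quotient.eq_zero_iff_mem]
  unfold relB
  exact Ideal.subset_span (Or.inr (Or.inl ⟨j, ⟨h1, h2⟩, rfl⟩))

end LiftB

section LiftC

variable {ι σ R T : Type} [CommRing R] [CommRing T] [Algebra R T]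

/-- homomorphisms on `RV R S a` -/
noncomputable def liftV (S : Set σ) (a : σ) (v : σ → T) (ha : v a = 1)
    (hv : ∀ j, j ∉ S → j ≠ a → v j = 0) : RV R S a →ₐ[R] T :=
  Ideal.Quotient.liftₐ _ (MvPolynomial.aeval v) (by
    intro b hb
    have : (Ideal.span ({MvPolynomial.X a - 1} ∪
        MvPolynomial.X '' {j : σ | j ∉ S ∧ j ≠ a} : Set (MvPolynomial σ R))) ≤
        RingHom.ker (MvPolynomial.aeval (R := R) v).toRingHom := by
      rw [Ideal.span_le]
      rintro _ (h1 | ⟨j, hj, rfl⟩)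
      · rw [Set.mem_singleton_iff] at h1
        subst h1
        simp [RingHom.mem_ker, ha]
      · simp [RingHom.mem_ker, hv j hj.1 hj.2]
    exact this hb)

lemma liftV_vR (S : Set σ) (a : σ) (v : σ → T) (ha : v a = 1)
    (hv : ∀ j, j ∉ S → j ≠ a → v j = 0) (j : σ) : liftV (R := R) S a v ha hv (vR R S a j) = v j := by
  unfold liftV vR
  rw [Ideal.Quotient.liftₐ_apply]
  exact MvPolynomial.aeval_X _ _

/-- homomorphisms on the polynomial ring over `RV R S a` -/
noncomputable def liftM (S : Set σ) (a : σ) (x v : σ → T) (ha : v a = 1)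
    (hv : ∀ j, j ∉ S → j ≠ a → v j = 0) : MvPolynomial {j : σ // j ≠ a} (RV R S a) →ₐ[R] T :=
  MvPolynomial.aevalTower (liftV S a v ha hv) (fun j => x j)

lemma liftM_x0 (S : Set σ) (a : σ) (x v : σ → T) (ha : v a = 1)
    (hv : ∀ j, j ∉ S → j ≠ a → v j = 0) (hx : x a = 0) (j : σ) :
    liftM (R := R) S a x v ha hv (x0 R S a j) = x j := by
  unfold liftM x0
  by_cases h : j ≠ a
  · rw [dif_pos h, MvPolynomial.aevalTower_X]
  · rw [dif_neg h, map_zero]
    push Not at h
    rw [h, hx]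

lemma liftM_vR (S : Set σ) (a : σ) (x v : σ → T) (ha : v a = 1)
    (hv : ∀ j, j ∉ S → j ≠ a → v j = 0) (j : σ) :
    liftM (R := R) S a x v ha hv (MvPolynomial.C (vR R S a j)) = v j := by
  unfold liftM
  rw [MvPolynomial.aevalTower_C, liftV_vR]

/-- homomorphisms on `AR (gg f d S a)` -/
noncomputable def liftC (f : ι → MvPolynomial σ R) (d : ι → ℕ) (S : Set σ) (a : σ) (x v : σ → T)
    (ha : v a = 1) (hv : ∀ j, j ∉ S → j ≠ a → v j = 0) (hx : x a = 0)
    (h : ∀ i, ln (f i) x v = 0) : AR (gg f d S a) →ₐ[R] T :=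
  Ideal.Quotient.liftₐ _ (liftM S a x v ha hv) (by
    intro b hb
    have : Ideal.span (Set.range (gg f d S a)) ≤
        RingHom.ker (liftM (R := R) S a x v ha hv).toRingHom := by
      rw [Ideal.span_le]
      rintro _ ⟨ie, rfl⟩
      change liftM (R := R) S a x v ha hv (gg f d S a ie) = 0
      have h2 := ln_map (liftM (R := R) S a x v ha hv) (f ie.1) (x0 R S a)
        (fun j => MvPolynomial.C (vR R S a j))
      simp only [liftM_x0 (R := R) S a x v ha hv hx, liftM_vR] at h2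
      have h4 : ln (f ie.1) (fun j => x j) (fun j => v j) = 0 := h ie.1
      rw [h4] at h2
      have h3 := congrArg (fun p => Polynomial.coeff p ie.2) h2
      simp only [Polynomial.coeff_map, Polynomial.coeff_zero] at h3
      exact h3
    exact this hb)

/-- the coordinates `x'` -/
noncomputable def xC (f : ι → MvPolynomial σ R) (d : ι → ℕ) (S : Set σ) (a : σ) :
    σ → AR (gg f d S a) :=
  fun j => Ideal.Quotient.mk _ (x0 R S a j)

/-- the coordinates `v` -/
noncomputable def vC (f : ι → MvPolynomial σ R) (d : ι → ℕ) (S : Set σ) (a : σ) :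
    σ → AR (gg f d S a) :=
  fun j => Ideal.Quotient.mk _ (MvPolynomial.C (vR R S a j))

lemma liftC_xC (f : ι → MvPolynomial σ R) (d : ι → ℕ) (S : Set σ) (a : σ) (x v : σ → T)
    (ha : v a = 1) (hv : ∀ j, j ∉ S → j ≠ a → v j = 0) (hx : x a = 0)
    (h : ∀ i, ln (f i) x v = 0) (j : σ) :
    liftC f d S a x v ha hv hx h (xC f d S a j) = x j := by
  unfold liftC xC
  rw [Ideal.Quotient.liftₐ_apply]
  exact liftM_x0 (R := R) S a x v ha hv hx j

lemma liftC_vC (f : ι → MvPolynomial σ R) (d : ι → ℕ) (S : Set σ) (a : σ) (x v : σ → T)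
    (ha : v a = 1) (hv : ∀ j, j ∉ S → j ≠ a → v j = 0) (hx : x a = 0)
    (h : ∀ i, ln (f i) x v = 0) (j : σ) :
    liftC f d S a x v ha hv hx h (vC f d S a j) = v j := by
  unfold liftC vC
  rw [Ideal.Quotient.liftₐ_apply]
  exact liftM_vR (R := R) S a x v ha hv j

lemma vR_a (S : Set σ) (a : σ) : vR R S a a = 1 := by
  unfold vR
  rw [← map_one (Ideal.Quotient.mk _), Ideal.Quotient.eq]
  exact Ideal.subset_span (Or.inl rfl)

lemma vR_j (S : Set σ) (a : σ) (j : σ) (h1 : j ∉ S) (h2 : j ≠ a) : vR R S a j = 0 := by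
  unfold vR
  rw [Ideal.Quotient.eq_zero_iff_mem]
  exact Ideal.subset_span (Or.inr ⟨j, ⟨h1, h2⟩, rfl⟩)

lemma vC_a (f : ι → MvPolynomial σ R) (d : ι → ℕ) (S : Set σ) (a : σ) : vC f d S a a = 1 := by
  unfold vC
  rw [vR_a, map_one, map_one]

lemma vC_j (f : ι → MvPolynomial σ R) (d : ι → ℕ) (S : Set σ) (a : σ) (j : σ) (h1 : j ∉ S)
    (h2 : j ≠ a) : vC f d S a j = 0 := by
  unfold vC
  rw [vR_j S a j h1 h2, map_zero, map_zero]

lemma xC_a (f : ι → MvPolynomial σ R) (d : ι → ℕ) (S : Set σ) (a : σ) : xC f d S a a = 0 := by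
  unfold xC x0
  rw [dif_neg (by simp), map_zero]

lemma ln_C (f : ι → MvPolynomial σ R) (d : ι → ℕ) (S : Set σ) (a : σ)
    (hd : ∀ i, (f i).totalDegree ≤ d i) (i : ι) :
    ln (f i) (xC f d S a) (vC f d S a) = 0 := by
  have h2 := ln_map (S := MvPolynomial {j : σ // j ≠ a} (RV R S a)) (T := AR (gg f d S a))
    (Ideal.Quotient.mkₐ R (Ideal.span (Set.range (gg f d S a)))) (f i)
    (x0 R S a) (fun j => MvPolynomial.C (vR R S a j))
  change _ = ln (f i) (xC f d S a) (vC f d S a) at h2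
  ext e
  rw [← h2, Polynomial.coeff_map, Polynomial.coeff_zero]
  by_cases he : e < d i + 1
  · change Ideal.Quotient.mk _ (gg f d S a ⟨i, ⟨e, he⟩⟩) = 0
    rw [Ideal.Quotient.eq_zero_iff_mem]
    exact Ideal.subset_span ⟨_, rfl⟩
  · rw [ln_coeff_eq_zero _ _ _ _ (by have := hd i; omega), map_zero]

lemma ext_C (f : ι → MvPolynomial σ R) (d : ι → ℕ) (S : Set σ) (a : σ)
    {g h : (AR (gg f d S a))[X] →ₐ[R] T}
    (hx : ∀ j, g (Polynomial.C (xC f d S a j)) = h (Polynomial.C (xC f d S a j)))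
    (hv : ∀ j, g (Polynomial.C (vC f d S a j)) = h (Polynomial.C (vC f d S a j)))
    (hX : g X = h X) : g = h := by
  apply Polynomial.algHom_ext' _ hX
  apply Ideal.Quotient.algHom_ext
  apply MvPolynomial.algHom_ext'
  · apply Ideal.Quotient.algHom_ext
    apply MvPolynomial.algHom_ext
    intro j
    exact hv j
  · intro j
    have := hx j
    unfold xC x0 at this
    rw [dif_pos j.2] at this
    exact this

end LiftC

section Maps

variable {ι σ R : Type} [CommRing R]

lemma ln_CX (f : ι → MvPolynomial σ R) (d : ι → ℕ) (S : Set σ) (a : σ)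
    (hd : ∀ i, (f i).totalDegree ≤ d i) (i : ι) :
    ln (f i) (fun j => (Polynomial.C (xC f d S a j) : (AR (gg f d S a))[X]) +
      X * Polynomial.C (vC f d S a j)) (fun j => Polynomial.C (vC f d S a j)) = 0 := by
  rw [← ln_shift]
  have h2 := ln_map (S := AR (gg f d S a)) (T := (AR (gg f d S a))[X])
    (Polynomial.CAlgHom (R := R)) (f i) (xC f d S a) (vC f d S a)
  rw [ln_C f d S a hd i, Polynomial.map_zero] at h2
  change (ln (f i) (fun j => Polynomial.CAlgHom (R := R) (xC f d S a j))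
    (fun j => Polynomial.CAlgHom (R := R) (vC f d S a j))).comp _ = 0
  rw [← h2, Polynomial.zero_comp]

/-- the map `Φ` -/
noncomputable def Phi (f : ι → MvPolynomial σ R) (d : ι → ℕ) (S : Set σ) (a : σ)
    (hd : ∀ i, (f i).totalDegree ≤ d i) : BR (GG f d) S a →ₐ[R] (AR (gg f d S a))[X] :=
  liftB f d S a (fun j => (Polynomial.C (xC f d S a j) : (AR (gg f d S a))[X]) +
      X * Polynomial.C (vC f d S a j)) (fun j => Polynomial.C (vC f d S a j))
    (ln_CX f d S a hd) (by simp [vC_a]) (fun j h1 h2 => by simp [vC_j f d S a j h1 h2])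

lemma ln_BX (f : ι → MvPolynomial σ R) (d : ι → ℕ) (S : Set σ) (a : σ)
    (hd : ∀ i, (f i).totalDegree ≤ d i) (i : ι) :
    ln (f i) (fun j => xB f d S a j + (-(xB f d S a a)) * vB (GG f d) S a j)
      (vB (GG f d) S a) = 0 := by
  rw [← ln_shift, ln_B f d S a hd, Polynomial.zero_comp]

/-- the map `Ψ` -/
noncomputable def Psi (f : ι → MvPolynomial σ R) (d : ι → ℕ) (S : Set σ) (a : σ)
    (hd : ∀ i, (f i).totalDegree ≤ d i) : (AR (gg f d S a))[X] →ₐ[R] BR (GG f d) S a :=
  Polynomial.eval₂AlgHom (liftC f d S a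
    (fun j => xB f d S a j + (-(xB f d S a a)) * vB (GG f d) S a j) (vB (GG f d) S a)
    (vB_a f d S a) (vB_j f d S a) (by simp [vB_a]) (ln_BX f d S a hd)) (xB f d S a a)
    (fun _ => Commute.all _ _)

lemma Psi_xC (f : ι → MvPolynomial σ R) (d : ι → ℕ) (S : Set σ) (a : σ)
    (hd : ∀ i, (f i).totalDegree ≤ d i) (j : σ) : Psi f d S a hd (Polynomial.C (xC f d S a j)) =
    xB f d S a j + (-(xB f d S a a)) * vB (GG f d) S a j := by
  unfold Psi
  rw [Polynomial.eval₂AlgHom_apply, Polynomial.eval₂_C]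
  exact liftC_xC f d S a (fun j => xB f d S a j + (-(xB f d S a a)) * vB (GG f d) S a j)
    (vB (GG f d) S a) (vB_a f d S a) (vB_j f d S a) (by simp [vB_a]) (ln_BX f d S a hd) j

lemma Psi_vC (f : ι → MvPolynomial σ R) (d : ι → ℕ) (S : Set σ) (a : σ)
    (hd : ∀ i, (f i).totalDegree ≤ d i) (j : σ) : Psi f d S a hd (Polynomial.C (vC f d S a j)) =
    vB (GG f d) S a j := by
  unfold Psi
  rw [Polynomial.eval₂AlgHom_apply, Polynomial.eval₂_C]
  exact liftC_vC f d S a (fun j => xB f d S a j + (-(xB f d S a a)) * vB (GG f d) S a j)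
    (vB (GG f d) S a) (vB_a f d S a) (vB_j f d S a) (by simp [vB_a]) (ln_BX f d S a hd) j

lemma Psi_X (f : ι → MvPolynomial σ R) (d : ι → ℕ) (S : Set σ) (a : σ)
    (hd : ∀ i, (f i).totalDegree ≤ d i) : Psi f d S a hd X = xB f d S a a := by
  unfold Psi
  rw [Polynomial.eval₂AlgHom_apply, Polynomial.eval₂_X]

lemma Phi_xB (f : ι → MvPolynomial σ R) (d : ι → ℕ) (S : Set σ) (a : σ)
    (hd : ∀ i, (f i).totalDegree ≤ d i) (j : σ) : Phi f d S a hd (xB f d S a j) =
    (Polynomial.C (xC f d S a j) : (AR (gg f d S a))[X]) + X * Polynomial.C (vC f d S a j) :=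
  liftB_xB f d S a _ _ _ _ _ j

lemma Phi_vB (f : ι → MvPolynomial σ R) (d : ι → ℕ) (S : Set σ) (a : σ)
    (hd : ∀ i, (f i).totalDegree ≤ d i) (j : σ) : Phi f d S a hd (vB (GG f d) S a j) =
    Polynomial.C (vC f d S a j) :=
  liftB_vB f d S a _ _ _ _ _ j

lemma Phi_Psi (f : ι → MvPolynomial σ R) (d : ι → ℕ) (S : Set σ) (a : σ)
    (hd : ∀ i, (f i).totalDegree ≤ d i) :
    (Phi f d S a hd).comp (Psi f d S a hd) = AlgHom.id R _ := by
  apply ext_C (T := (AR (gg f d S a))[X]) f d S a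
  · intro j
    simp only [AlgHom.comp_apply, AlgHom.id_apply, Psi_xC, map_add, map_mul, map_neg, Phi_xB,
      Phi_vB, vC_a, xC_a, map_one, map_zero]
    ring
  · intro j
    simp only [AlgHom.comp_apply, AlgHom.id_apply, Psi_vC, Phi_vB]
  · simp only [AlgHom.comp_apply, AlgHom.id_apply, Psi_X, Phi_xB, vC_a, xC_a, map_one, map_zero]
    ring

lemma Psi_Phi (f : ι → MvPolynomial σ R) (d : ι → ℕ) (S : Set σ) (a : σ)
    (hd : ∀ i, (f i).totalDegree ≤ d i) :
    (Psi f d S a hd).comp (Phi f d S a hd) = AlgHom.id R _ := by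
  apply ext_B (T := BR (GG f d) S a) f d S a
  · intro j
    simp only [AlgHom.comp_apply, AlgHom.id_apply, Phi_xB, map_add, map_mul, Psi_xC, Psi_vC, Psi_X]
    ring
  · intro j
    simp only [AlgHom.comp_apply, AlgHom.id_apply, Psi_vC, Phi_vB]

end Maps

end SUB

theorem t_SUB : S_SUB := by
  intro k R ι σ _ _ _ f d S a hd
  exact ⟨(AlgEquiv.ofAlgHom (SUB.Phi f d S a hd) (SUB.Psi f d S a hd)
    (SUB.Phi_Psi f d S a hd) (SUB.Psi_Phi f d S a hd)).restrictScalars k⟩

end LOWD
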