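import Pool.Agent.LOWD.StmtsH

/-!
# LOWD: the module VA
-/

set_option autoImplicit false

open Polynomial CategoryTheory AlgebraicGeometry

namespace LOWD

open CUB Pool.Agent.Lib_helper55.Beil

universe v

namespace VA

variable {k : Type} [Field k]

lemma loc {A U : Type} [CommRing A] [Algebra k A] [CommRing U] [Algebra k U] [Algebra A U]
    [IsScalarTower k A U] (x : A) [IsLocalization.Away x U] :
    @IsLocalization.Away A _ x U _ (IsScalarTower.toAlgHom k A U).toRingHom.toAlgebra := by
  have h : (IsScalarTower.toAlgHom k A U).toRingHom.toAlgebra =
      (inferInstance : Algebra A U) := by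
    apply Algebra.algebra_ext
    intro r
    rfl
  rw [h]
  infer_instance

variable {S S' σ : Type} [CommRing S] [CommRing S'] [Algebra k S] [Algebra k S']

/-- Localisation of a surjection. -/
lemma zeta (π : S →ₐ[k] S') (hπ : Function.Surjective π) (g : MvPolynomial σ S) :
    ∃ ζ : Localization.Away g →ₐ[k] Localization.Away (MvPolynomial.mapAlgHom (σ := σ) π g),
      Function.Surjective ζ ∧
      RingHom.ker ζ.toRingHom =
        (RingHom.ker π.toRingHom).map ((algebraMap (MvPolynomial σ S) (Localization.Away g)).comp
          MvPolynomial.C) := by
  refine ⟨Localization.awayMapₐ (MvPolynomial.mapAlgHom (σ := σ) π) g, ?_, ?_⟩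
  · apply IsLocalization.Away.mapₐ_surjective_of_surjective
    exact MvPolynomial.map_surjective _ hπ
  · have hT : Submonoid.map (MvPolynomial.mapAlgHom (σ := σ) π).toRingHom (Submonoid.powers g) =
        Submonoid.powers (MvPolynomial.mapAlgHom (σ := σ) π g) := by
      rw [Submonoid.map_powers]
      rfl
    have h1 := IsLocalization.ker_map (S := Localization.Away g)
      (Localization.Away (MvPolynomial.mapAlgHom (σ := σ) π g))
      (MvPolynomial.mapAlgHom (σ := σ) π).toRingHom hT
    have h2 : RingHom.ker (MvPolynomial.mapAlgHom (σ := σ) π).toRingHom =
        (RingHom.ker π.toRingHom).map MvPolynomial.C := MvPolynomial.ker_map π.toRingHom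
    rw [h2, Ideal.map_map] at h1
    exact h1

/-- The localisation which is smooth. -/
lemma big [Fintype σ] (h : S) [IsDomain (Localization.Away h)]
    [Algebra.Smooth k (Localization.Away h)] (g : MvPolynomial σ S) :
    Subsingleton (Localization.Away
      (algebraMap (MvPolynomial σ S) (Localization.Away g) (MvPolynomial.C h))) ∨
    (IsDomain (Localization.Away
      (algebraMap (MvPolynomial σ S) (Localization.Away g) (MvPolynomial.C h))) ∧
     Algebra.Smooth k (Localization.Away
      (algebraMap (MvPolynomial σ S) (Localization.Away g) (MvPolynomial.C h))) ∧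
     (Fintype.card σ : Cardinal) ≤ Algebra.trdeg k (Localization.Away
      (algebraMap (MvPolynomial σ S) (Localization.Away g) (MvPolynomial.C h)))) := by
  let _ : Algebra (MvPolynomial σ S) (MvPolynomial σ (Localization.Away h)) :=
    MvPolynomial.algebraMvPolynomial
  have hst : IsScalarTower k (MvPolynomial σ S) (MvPolynomial σ (Localization.Away h)) := by
    apply IsScalarTower.of_algebraMap_eq'
    rw [MvPolynomial.algebraMap_def]
    ext x
    simp only [RingHom.comp_apply, MvPolynomial.algebraMap_apply, MvPolynomial.map_C,
      ← IsScalarTower.algebraMap_apply]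
  have hQ : IsLocalization.Away (MvPolynomial.C h : MvPolynomial σ S)
      (MvPolynomial σ (Localization.Away h)) := by
    have h1 : IsLocalization ((Submonoid.powers h).map (MvPolynomial.C (σ := σ)))
        (MvPolynomial σ (Localization.Away h)) :=
      MvPolynomial.isLocalization (Submonoid.powers h) (Localization.Away h)
    rw [Submonoid.map_powers] at h1
    exact h1
  let gh : MvPolynomial σ (Localization.Away h) :=
    algebraMap (MvPolynomial σ S) (MvPolynomial σ (Localization.Away h)) g
  have hV : IsLocalization.Away (MvPolynomial.C h * g) (Localization.Away gh) :=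
    IsLocalization.Away.mul' (MvPolynomial σ (Localization.Away h)) (Localization.Away gh)
      (MvPolynomial.C h) g
  have hW : IsLocalization.Away (MvPolynomial.C h * g) (Localization.Away
      (algebraMap (MvPolynomial σ S) (Localization.Away g) (MvPolynomial.C h))) := inferInstance
  let e : Localization.Away gh ≃ₐ[MvPolynomial σ S] Localization.Away
      (algebraMap (MvPolynomial σ S) (Localization.Away g) (MvPolynomial.C h)) :=
    IsLocalization.algEquiv (Submonoid.powers (MvPolynomial.C h * g)) _ _
  let e' := e.restrictScalars k
  rcases subsingleton_or_nontrivial (Localization.Away gh) with hs | hn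
  · left
    exact e.symm.injective.subsingleton
  · right
    have hgh : gh ≠ 0 := by
      intro h0
      have h1 : algebraMap _ (Localization.Away gh) gh ≠ 0 :=
        (IsLocalization.Away.algebraMap_isUnit gh).ne_zero
      have h2 : algebraMap (MvPolynomial σ (Localization.Away h)) (Localization.Away gh) gh =
          algebraMap (MvPolynomial σ (Localization.Away h)) (Localization.Away gh) 0 :=
        congrArg _ h0
      exact h1 (h2.trans (map_zero _))
    have hle : Submonoid.powers gh ≤ nonZeroDivisors _ :=
      powers_le_nonZeroDivisors_of_noZeroDivisors hgh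
    have hdom : IsDomain (Localization.Away gh) :=
      IsLocalization.isDomain_of_le_nonZeroDivisors _ hle
    have hinj : Function.Injective (algebraMap (MvPolynomial σ (Localization.Away h))
        (Localization.Away gh)) := IsLocalization.injective _ hle
    have hsm : Algebra.Smooth k (Localization.Away gh) := by
      have h1 : Algebra.Smooth (Localization.Away h) (MvPolynomial σ (Localization.Away h)) := {}
      have h2 : Algebra.Smooth k (MvPolynomial σ (Localization.Away h)) :=
        Algebra.Smooth.comp k (Localization.Away h) _
      exact Algebra.Smooth.comp k (MvPolynomial σ (Localization.Away h)) _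
    refine ⟨e.symm.toMulEquiv.isDomain _, Algebra.Smooth.of_equiv e', ?_⟩
    have h1 : AlgebraicIndependent k
        (MvPolynomial.X : σ → MvPolynomial σ (Localization.Away h)) :=
      (MvPolynomial.algebraicIndependent_X σ (Localization.Away h)).restrictScalars
        (algebraMap k (Localization.Away h)).injective
    have h2 := h1.map' (f := e'.toAlgHom.comp (IsScalarTower.toAlgHom k
      (MvPolynomial σ (Localization.Away h)) (Localization.Away gh)))
      (e'.injective.comp hinj)
    have h3 := h2.cardinalMk_le_trdeg
    rwa [Cardinal.mk_fintype] at h3

lemma finType [Fintype σ] [Algebra.FiniteType k S] (g : MvPolynomial σ S) :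
    Algebra.FiniteType k (Localization.Away g) := by
  have h1 := finiteType_mvp k σ S
  have h2 : Algebra.FiniteType (MvPolynomial σ S) (Localization.Away g) :=
    IsLocalization.finiteType_of_monoid_fg (Submonoid.powers g) _
  exact Algebra.FiniteType.trans (S := MvPolynomial σ S) h1 h2

end VA

open VA in
theorem t_VA : M_VA.{v} := by
  intro hHEX hNICE k E _ _ _ i T R σ _ _ _ _
  have hN : IsNoetherianRing R := Algebra.FiniteType.isNoetherianRing k R
  have main : ∀ I : Ideal R, ∀ (S : Type) [CommRing S] [Algebra k S] [Algebra.FiniteType k S]
      (π : R →ₐ[k] S), Function.Surjective π → RingHom.ker π.toRingHom = I →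
      ∀ (g : MvPolynomial σ S) [Algebra.FiniteType k (Localization.Away g)] (m : ℕ),
        m < Fintype.card σ → Subsingleton (T.H m (aff k (Localization.Away g))) := by
    intro I
    induction I using IsNoetherian.induction with
    | hgt I ih =>
      intro S _ _ _ π hπ hker g _ m hm
      obtain ⟨H1, H2, H3, H4, H5⟩ := hHEX k E i T m
      -- the induction hypothesis for a quotient of `S`
      have step : ∀ (K : Ideal S), K ≠ ⊥ → ∀ (g' : MvPolynomial σ (S ⧸ K))
          [Algebra.FiniteType k (Localization.Away g')],
          Subsingleton (T.H m (aff k (Localization.Away g'))) := by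
        intro K hK g' _
        have : Algebra.FiniteType k (S ⧸ K) := finiteType_quo k S K
        refine ih (RingHom.ker ((Ideal.Quotient.mkₐ k K).comp π).toRingHom) ?_ (S ⧸ K)
          ((Ideal.Quotient.mkₐ k K).comp π)
          ((Ideal.Quotient.mkₐ_surjective k K).comp hπ) rfl g' m hm
        rw [← hker]
        obtain ⟨s, hs, hs0⟩ := Submodule.exists_mem_ne_zero_of_ne_bot hK
        obtain ⟨r, hr⟩ := hπ s
        refine lt_of_le_of_ne ?_ ?_
        · intro x hx
          have hx' : π x = 0 := hx
          change Ideal.Quotient.mk K (π x) = 0
          rw [hx', map_zero]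
        · intro heq
          have h1 : r ∈ RingHom.ker ((Ideal.Quotient.mkₐ k K).comp π).toRingHom := by
            change Ideal.Quotient.mk K (π r) = 0
            rw [hr]
            exact Ideal.Quotient.eq_zero_iff_mem.2 hs
          rw [← heq] at h1
          have h2 : π r = 0 := h1
          exact hs0 (hr ▸ h2)
      rcases subsingleton_or_nontrivial S with hS | hS
      · exact H4 _ (algebraMap S (Localization.Away g)).codomain_trivial
      by_cases hred : nilradical S = ⊥
      · have : IsReduced S := nilradical_eq_bot_iff.1 hred
        obtain ⟨h, hdom, hsm⟩ := hNICE k S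
        have hh : h ≠ 0 := by
          intro h0
          have h1 : algebraMap S (Localization.Away h) h ≠ 0 :=
            (IsLocalization.Away.algebraMap_isUnit h).ne_zero
          have h2 : algebraMap S (Localization.Away h) h = algebraMap S (Localization.Away h) 0 :=
            congrArg _ h0
          rw [map_zero] at h2
          exact h1 h2
        have hK : Ideal.span {h} ≠ ⊥ := by
          rw [Ne, Ideal.span_singleton_eq_bot]
          exact hh
        obtain ⟨ζ, hζ, hζk⟩ := zeta (k := k) (σ := σ)
          (Ideal.Quotient.mkₐ k (Ideal.span {h})) (Ideal.Quotient.mkₐ_surjective k _) g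
        have : Algebra.FiniteType k (S ⧸ Ideal.span {h}) := finiteType_quo k S _
        have := finType (k := k)
          (MvPolynomial.mapAlgHom (σ := σ) (Ideal.Quotient.mkₐ k (Ideal.span {h})) g)
        have hfU : Algebra.FiniteType k (Localization.Away
            (algebraMap (MvPolynomial σ S) (Localization.Away g) (MvPolynomial.C h))) := by
          have h2 : Algebra.FiniteType (Localization.Away g) (Localization.Away
            (algebraMap (MvPolynomial σ S) (Localization.Away g) (MvPolynomial.C h))) :=
            IsLocalization.finiteType_of_monoid_fg (Submonoid.powers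
              (algebraMap (MvPolynomial σ S) (Localization.Away g) (MvPolynomial.C h))) _
          exact Algebra.FiniteType.trans (S := Localization.Away g) inferInstance h2
        refine (H2 (Localization.Away g) _ (Localization.Away
          (algebraMap (MvPolynomial σ S) (Localization.Away g) (MvPolynomial.C h)))
          (algebraMap (MvPolynomial σ S) (Localization.Away g) (MvPolynomial.C h)) ζ
          (IsScalarTower.toAlgHom k _ _) hζ ?_ (loc _)).1 (step _ hK _) ?_
        · rw [hζk]
          have h1 : RingHom.ker (Ideal.Quotient.mkₐ k (Ideal.span {h})).toRingHom =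
              Ideal.span {h} := Ideal.mk_ker
          rw [h1, Ideal.map_span, Set.image_singleton]
          rfl
        · rcases big (k := k) h g with hs | ⟨h1, h2, h3⟩
          · exact H4 _ hs
          · refine H5 _ (lt_of_lt_of_le ?_ h3)
            exact_mod_cast hm
      · obtain ⟨ζ, hζ, hζk⟩ := zeta (k := k) (σ := σ)
          (Ideal.Quotient.mkₐ k (nilradical S)) (Ideal.Quotient.mkₐ_surjective k _) g
        have : Algebra.FiniteType k (S ⧸ nilradical S) := finiteType_quo k S _
        have := finType (k := k)
          (MvPolynomial.mapAlgHom (σ := σ) (Ideal.Quotient.mkₐ k (nilradical S)) g)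
        refine H3 _ _ ζ hζ ?_ (step _ hred _)
        intro x hx
        have h1 : x ∈ RingHom.ker ζ.toRingHom := hx
        rw [hζk] at h1
        have h2 : RingHom.ker (Ideal.Quotient.mkₐ k (nilradical S)).toRingHom =
            nilradical S := Ideal.mk_ker
        rw [h2] at h1
        have h3 : (nilradical S).map ((algebraMap (MvPolynomial σ S) (Localization.Away g)).comp
            MvPolynomial.C) ≤ nilradical (Localization.Away g) := by
          rw [Ideal.map_le_iff_le_comap]
          intro y hy
          rw [Ideal.mem_comap, mem_nilradical]
          exact (mem_nilradical.1 hy).map _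
        exact mem_nilradical.1 (h3 h1)
  intro g B' _ _ _ φ hloc m hm
  have hfg := finType (k := k) g
  have h1 := main ⊥ R (AlgHom.id k R) Function.surjective_id
    ((RingHom.injective_iff_ker_eq_bot _).1 Function.injective_id) g m hm
  let _ : Algebra (MvPolynomial σ R) B' := φ.toRingHom.toAlgebra
  have hst : IsScalarTower k (MvPolynomial σ R) B' :=
    IsScalarTower.of_algebraMap_eq (fun x => (φ.commutes x).symm)
  have hloc' : IsLocalization.Away g B' := hloc
  let e : Localization.Away g ≃ₐ[MvPolynomial σ R] B' :=
    IsLocalization.algEquiv (Submonoid.powers g) _ _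
  exact (hHEX k E i T m).1 _ _ (e.restrictScalars k) h1

end LOWD
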