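import Pool.Agent.LOWD.StmtsH

/-!
# Vanishing of the homology of closed subsets defined by few equations (module VB)
-/

set_option autoImplicit false

open Polynomial CategoryTheory AlgebraicGeometry

namespace LOWD

open CUB Pool.Agent.Lib_helper55.Beil

universe v

namespace VB

/-- A localisation of a localisation away from one element is a localisation away from one
element. -/
lemma away_trans {B B1 B' : Type} [CommRing B] [CommRing B1] [CommRing B'] [Algebra B B1]
    [Algebra B1 B'] [Algebra B B'] [IsScalarTower B B1 B'] (a : B) [IsLocalization.Away a B1]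
    (g : B1) [IsLocalization.Away g B'] :
    ∃ g' : B, IsLocalization.Away g' B' := by
  refine ⟨a * (IsLocalization.Away.sec a g).1, ?_⟩
  exact IsLocalization.Away.mul_of_associated a (IsLocalization.Away.sec a g).1 g
    (IsLocalization.Away.associated_sec_fst a g)

/-- Localisations inherit the vanishing. -/
lemma van_away {k E : Type} [Field k] [Field E] {i : ℕ} (T : Homology.{v} k E i) (N : ℕ)
    (B : Type) [CommRing B] [Algebra k B] (hB : Van T N B) (a : B) :
    Van T N (Localization.Away a) := by
  intro g B' _ _ _ φ hφ m hm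
  let _ := φ.toRingHom.toAlgebra
  let _alg2 : Algebra B B' :=
    (φ.toRingHom.comp (algebraMap B (Localization.Away a))).toAlgebra
  have : IsScalarTower B (Localization.Away a) B' := IsScalarTower.of_algebraMap_eq' rfl
  have : IsLocalization.Away g B' := hφ
  obtain ⟨g', hg'⟩ := away_trans (B' := B') a g
  exact hB g' B' (φ.comp (IsScalarTower.toAlgHom k B (Localization.Away a))) hg' m hm

end VB

theorem t_VB : M_VB.{v} := by
  intro hex k E _ _ i T N r
  induction r with
  | zero =>
    intro B A _ _ _ _ _ _ f ψ hB hψ hker m hm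
    have h0 : RingHom.ker ψ.toRingHom = ⊥ := by
      rw [hker]
      simp
    have hinj : Function.Injective ψ.toRingHom := (RingHom.injective_iff_ker_eq_bot _).mpr h0
    refine hB 1 A ψ ?_ m (by omega)
    let _ := ψ.toRingHom.toAlgebra
    exact IsLocalization.away_of_isUnit_of_bijective A isUnit_one ⟨hinj, hψ⟩
  | succ r ih =>
    intro B A _ _ _ _ _ _ f ψ hB hψ hker m hm
    let I : Ideal B := Ideal.span (Set.range fun j : Fin r => f j.castSucc)
    let a : B := f (Fin.last r)
    have hI : Ideal.span (Set.range f) = I ⊔ Ideal.span {a} := by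
      rw [← Ideal.span_union]
      congr 1
      ext x
      constructor
      · rintro ⟨j, rfl⟩
        refine Fin.lastCases ?_ (fun j => ?_) j
        · exact Or.inr rfl
        · exact Or.inl ⟨j, rfl⟩
      · rintro (⟨j, rfl⟩ | rfl)
        · exact ⟨j.castSucc, rfl⟩
        · exact ⟨Fin.last r, rfl⟩
    -- the closed subset defined by the first equations
    have hA' : Subsingleton (T.H m (aff k (B ⧸ I))) :=
      ih B (B ⧸ I) (fun j => f j.castSucc) (Ideal.Quotient.mkₐ k I) hB
        (Ideal.Quotient.mkₐ_surjective k I) (Ideal.Quotient.mkₐ_ker k I) m (by omega)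
    -- its open subset where `a` does not vanish
    let Ba := Localization.Away a
    let Ia : Ideal Ba := I.map (algebraMap B Ba)
    have hIa : Ia = Ideal.span (Set.range fun j : Fin r => algebraMap B Ba (f j.castSucc)) := by
      change Ideal.map _ (Ideal.span _) = _
      rw [Ideal.map_span, ← Set.range_comp]
      rfl
    have hU : Subsingleton (T.H (m + 1) (aff k (Ba ⧸ Ia))) :=
      ih Ba (Ba ⧸ Ia) (fun j => algebraMap B Ba (f j.castSucc)) (Ideal.Quotient.mkₐ k Ia)
        (VB.van_away T N B hB a) (Ideal.Quotient.mkₐ_surjective k Ia)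
        ((Ideal.Quotient.mkₐ_ker k Ia).trans hIa) (m + 1) (by omega)
    let υ : (B ⧸ I) →ₐ[k] (Ba ⧸ Ia) :=
      Ideal.quotientMapₐ Ia (IsScalarTower.toAlgHom k B Ba) (Ideal.le_comap_map)
    have hυ : @IsLocalization.Away (B ⧸ I) _ (Ideal.Quotient.mk I a) (Ba ⧸ Ia) _
        υ.toRingHom.toAlgebra := by
      let _ := υ.toRingHom.toAlgebra
      have h1 := IsLocalization.of_surjective (Submonoid.powers a) Ba (Ideal.Quotient.mk I)
        Ideal.Quotient.mk_surjective (Ideal.Quotient.mk Ia) Ideal.Quotient.mk_surjective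
        (by rfl) (by rw [Ideal.mk_ker, Ideal.mk_ker])
      rw [Submonoid.map_powers] at h1
      exact h1
    have hIker : ∀ x ∈ I, ψ x = 0 := by
      intro x hx
      have h1 : x ∈ RingHom.ker ψ.toRingHom := by
        rw [hker, hI]
        exact Submodule.mem_sup_left hx
      exact h1
    let ζ : (B ⧸ I) →ₐ[k] A := Ideal.Quotient.liftₐ I ψ hIker
    have hζ : Function.Surjective ζ := by
      intro y
      obtain ⟨x, rfl⟩ := hψ y
      exact ⟨Ideal.Quotient.mk I x, rfl⟩
    have hζker : RingHom.ker ζ.toRingHom = Ideal.span {Ideal.Quotient.mk I a} := by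
      ext y
      obtain ⟨x, rfl⟩ := Ideal.Quotient.mk_surjective y
      have h1 : Ideal.Quotient.mk I x ∈ RingHom.ker ζ.toRingHom ↔
          x ∈ RingHom.ker ψ.toRingHom := Iff.rfl
      have h2 : Ideal.span {Ideal.Quotient.mk I a} =
          Ideal.map (Ideal.Quotient.mk I) (Ideal.span {a}) := by
        rw [Ideal.map_span, Set.image_singleton]
      rw [h1, h2, hker, hI, Ideal.mem_map_iff_of_surjective _ Ideal.Quotient.mk_surjective,
        Submodule.mem_sup]
      constructor
      · rintro ⟨y, hy, z, hz, rfl⟩
        refine ⟨z, hz, ?_⟩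
        rw [map_add, Ideal.Quotient.eq_zero_iff_mem.mpr hy, zero_add]
      · rintro ⟨z, hz, h2⟩
        refine ⟨x - z, ?_, z, hz, sub_add_cancel _ _⟩
        rw [← Ideal.Quotient.eq_zero_iff_mem, map_sub, h2, sub_self]
    exact ((hex k E i T m).2.1 (B ⧸ I) A (Ba ⧸ Ia) (Ideal.Quotient.mk I a) ζ υ hζ hζker hυ).2
      hU hA'

end LOWD
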