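import Pool.Agent.LOWD.Stmts
import Pool.Agent.CUB.Dim1

/-!
# LOWD, module ZER: zero-cycles
-/

set_option autoImplicit false

namespace LOWD

open CUB

namespace ZER

/-- A domain of transcendence degree zero over a field is a field. -/
lemma isField_of_trdeg {k A : Type} [Field k] [CommRing A] [IsDomain A] [Algebra k A]
    (h : Algebra.trdeg k A = 0) : IsField A := by
  have h1 : Algebra.IsAlgebraic k A := (_root_.trdeg_eq_zero_iff).1 h
  have : Algebra.IsIntegral k A := Algebra.isAlgebraic_iff_isIntegral.1 h1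
  exact isField_of_isIntegral_of_isField' (Field.toIsField k)

/-- A subring of an algebraic domain over a field is a field. -/
lemma isField_of_injective {k A B : Type} [Field k] [CommRing A] [CommRing B] [IsDomain A]
    [IsDomain B] [Algebra k A] [Algebra k B] (h : Algebra.trdeg k B = 0) (φ : A →ₐ[k] B)
    (hφ : Function.Injective φ) : IsField A := by
  have h1 : Algebra.IsAlgebraic k B := (_root_.trdeg_eq_zero_iff).1 h
  have h2 : Algebra.IsAlgebraic k A := Algebra.IsAlgebraic.of_injective φ hφ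
  have : Algebra.IsIntegral k A := Algebra.isAlgebraic_iff_isIntegral.1 h2
  exact isField_of_isIntegral_of_isField' (Field.toIsField k)

/-- In a Noetherian ring a prime which is not minimal covers a prime. -/
lemma exists_covBy {A : Type} [CommRing A] [IsNoetherianRing A] (p : PrimeSpectrum A)
    (q₀ : Ideal A) (hq : q₀.IsPrime) (hlt : q₀ < p.asIdeal) : ∃ q : PrimeSpectrum A, q ⋖ p := by
  obtain ⟨m, ⟨hm1, hm2⟩, hm3⟩ := 
    (wellFounded_gt : WellFounded ((· > ·) : Ideal A → Ideal A → Prop)).has_min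
    {I : Ideal A | I.IsPrime ∧ I < p.asIdeal} ⟨q₀, hq, hlt⟩
  refine ⟨⟨m, hm1⟩, ?_, ?_⟩
  · exact hm2
  · intro c hc1 hc2
    exact hm3 c.asIdeal ⟨c.isPrime, hc2⟩ hc1

/-- The prime below a point. -/
lemma exists_lt (hHTM : S_HTM) {k R σ ι : Type} [Field k] [CommRing R] [Algebra k R]
    [Fintype σ] (f : ι → MvPolynomial σ R) (S : Finset ι)
    (hc : ∀ i, i ∉ S → ∃ c : R, f i = MvPolynomial.C c) (hcard : S.card < Fintype.card σ)
    (p : PrimeSpectrum (AR f)) (hp : rdim k p = 0) :
    ∃ q₀ : Ideal (AR f), q₀.IsPrime ∧ q₀ < p.asIdeal := by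
  classical
  set π : MvPolynomial σ R →+* AR f := Ideal.Quotient.mk _ with hπ
  have hπs : Function.Surjective π := Ideal.Quotient.mk_surjective
  set P : Ideal (MvPolynomial σ R) := p.asIdeal.comap π with hP
  have hPp : P.IsPrime := Ideal.comap_isPrime π p.asIdeal
  have hpp : p.asIdeal.IsPrime := p.isPrime
  set m : Ideal R := P.comap MvPolynomial.C with hm
  have hmp : m.IsPrime := Ideal.comap_isPrime MvPolynomial.C P
  have hp' : Algebra.trdeg k (AR f ⧸ p.asIdeal) = 0 := hp
  have hpmax : p.asIdeal.IsMaximal :=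
    Ideal.Quotient.maximal_of_isField _ (isField_of_trdeg hp')
  have hPmax : P.IsMaximal := Ideal.comap_isMaximal_of_surjective π hπs
  have hmmax : m.IsMaximal := by
    apply Ideal.Quotient.maximal_of_isField
    have hle : m ≤ p.asIdeal.comap (IsScalarTower.toAlgHom k R (AR f)) := by
      intro x hx
      exact hx
    refine isField_of_injective hp' (Ideal.quotientMapₐ p.asIdeal
      (IsScalarTower.toAlgHom k R (AR f)) hle) ?_
    refine Ideal.quotientMap_injective' (H := hle) ?_
    intro x hx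
    exact hx
  letI : Field (R ⧸ m) := Ideal.Quotient.field m
  set g : MvPolynomial σ R →+* MvPolynomial σ (R ⧸ m) :=
    MvPolynomial.map (Ideal.Quotient.mk m) with hg
  have hgs : Function.Surjective g := MvPolynomial.map_surjective _ Ideal.Quotient.mk_surjective
  have hker : RingHom.ker g ≤ P := by
    rw [hg, MvPolynomial.ker_map, Ideal.mk_ker]
    rw [Ideal.map_le_iff_le_comap]
  have hcm : (P.map g).comap g = P := by
    rw [Ideal.comap_map_of_surjective g hgs]
    exact sup_eq_left.mpr hker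
  have hP'max : (P.map g).IsMaximal := by
    rcases Ideal.map_eq_top_or_isMaximal_of_surjective g hgs hPmax with h | h
    · exfalso
      apply hPmax.ne_top
      rw [← hcm, h, Ideal.comap_top]
    · exact h
  have hfP : ∀ i, f i ∈ P := by
    intro i
    have h0 : π (f i) = 0 := Ideal.Quotient.eq_zero_iff_mem.mpr (Ideal.subset_span ⟨i, rfl⟩)
    change π (f i) ∈ p.asIdeal
    rw [h0]
    exact zero_mem _
  obtain ⟨Q', hQ'p, hQ'lt, hQ'F⟩ := hHTM (R ⧸ m) σ {i // i ∈ S} (fun i => g (f i.1)) (P.map g)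
    hP'max (fun i => Ideal.mem_map_of_mem g (hfP i.1)) (by
      rw [Fintype.card_coe]; exact hcard)
  have := hQ'p
  have hfQ : ∀ i, g (f i) ∈ Q' := by
    intro i
    by_cases hi : i ∈ S
    · exact hQ'F ⟨i, hi⟩
    · obtain ⟨c, hc'⟩ := hc i hi
      have hcm' : c ∈ m := by
        have h1 := hfP i
        rw [hc'] at h1
        exact h1
      have h0 : g (f i) = 0 := by
        rw [hc', hg, MvPolynomial.map_C, Ideal.Quotient.eq_zero_iff_mem.mpr hcm', map_zero]
      rw [h0]
      exact zero_mem _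
  set Q : Ideal (MvPolynomial σ R) := Q'.comap g with hQ
  have hQp : Q.IsPrime := Ideal.comap_isPrime g Q'
  have hQP : Q ≤ P := by
    rw [← hcm]
    exact Ideal.comap_mono hQ'lt.le
  have hPQ : ¬ P ≤ Q := by
    intro h
    apply hQ'lt.not_ge
    rw [Ideal.map_le_iff_le_comap]
    exact h
  have hspan : RingHom.ker π ≤ Q := by
    rw [hπ, Ideal.mk_ker, Ideal.span_le]
    rintro _ ⟨i, rfl⟩
    exact hfQ i
  have hcmQ : (Q.map π).comap π = Q := by
    rw [Ideal.comap_map_of_surjective π hπs]
    exact sup_eq_left.mpr hspan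
  refine ⟨Q.map π, Ideal.map_isPrime_of_surjective hπs hspan, ?_, ?_⟩
  · rw [Ideal.map_le_iff_le_comap]
    exact hQP
  · intro h
    apply hPQ
    rw [← hcmQ]
    exact Ideal.comap_mono h

end ZER

theorem t_ZER : M_ZER := by
  intro _ hDIM2 hHTM hCLG k R E σ ι _ _ _ _ _ _ _ _ _ f S hc hcard c
  have : Algebra.FiniteType k (AR f) := inferInstance
  have : IsNoetherianRing (AR f) := Algebra.FiniteType.isNoetherianRing k (AR f)
  have key : ∀ p : RP k (AR f) 0, Finsupp.single p (1 : E) ∈ rat k (AR f) E 0 := by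
    intro p
    have hp0 : rdim k p.1 = 0 := by
      have := p.2
      simpa using this
    obtain ⟨q₀, hq₀, hlt⟩ := ZER.exists_lt hHTM f S hc hcard p.1 hp0
    obtain ⟨q, hq⟩ := ZER.exists_covBy p.1 q₀ hq₀ hlt
    have h1 := hDIM2 k (AR f) q p.1 hq
    rw [hp0, zero_add] at h1
    have h2 : rdim k q = ((1 : ℕ) : Cardinal) := by
      rw [← h1]; simp
    exact hCLG k (AR f) E ⟨q, h2⟩ p hq.lt.le
  rw [← Finsupp.sum_single c]
  refine Submodule.sum_mem _ (fun p _ => ?_)
  have h3 : Finsupp.single p (c p) = (c p) • Finsupp.single p (1 : E) := by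
    simp
  rw [h3]
  exact Submodule.smul_mem _ _ (key p)

end LOWD
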