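import Pool.Agent.CUB.A_DIM1
import Pool.Agent.CUB.A_DIM2
import Pool.Agent.CUB.A_DVX
import Pool.Agent.CUB.A_FP
import Pool.Agent.CUB.A_FPX
import Pool.Agent.CUB.A_GCO
import Pool.Agent.CUB.A_GX
import Pool.Agent.CUB.A_HER
import Pool.Agent.CUB.A_LENA
import Pool.Agent.CUB.A_LENB
import Pool.Agent.CUB.A_LENC
import Pool.Agent.CUB.A_PLIN
import Pool.Agent.CUB.A_PUSH
import Pool.Agent.CUB.B_L0
import Pool.Agent.CUB.B_PCO
import Pool.Agent.CUB.R_FIN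
import Pool.Agent.CUB.R_NORM
import Pool.Agent.LOWD.ALL
import Pool.Agent.LOWD.CB
import Pool.Agent.LOWD.CLF
import Pool.Agent.LOWD.CLG
import Pool.Agent.LOWD.CNT
import Pool.Agent.LOWD.DEG
import Pool.Agent.LOWD.DGL
import Pool.Agent.LOWD.FLD
import Pool.Agent.LOWD.FNT
import Pool.Agent.LOWD.FPD
import Pool.Agent.LOWD.FPR
import Pool.Agent.LOWD.HEX
import Pool.Agent.LOWD.HOM
import Pool.Agent.LOWD.HTM
import Pool.Agent.LOWD.KRU
import Pool.Agent.LOWD.LTH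
import Pool.Agent.LOWD.NICE
import Pool.Agent.LOWD.NULM
import Pool.Agent.LOWD.NUM2
import Pool.Agent.LOWD.PTQ
import Pool.Agent.LOWD.RES
import Pool.Agent.LOWD.STP
import Pool.Agent.LOWD.SUB
import Pool.Agent.LOWD.VA
import Pool.Agent.LOWD.VB
import Pool.Agent.LOWD.ZER

/-!
# LOWD: assembly of all modules
-/

set_option autoImplicit false

namespace LOWD

namespace Asm

open CUB

universe v

theorem c_DIM1 : S_DIM1 := t_DIM1

theorem c_DIM2 : S_DIM2 := t_DIM2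

theorem c_GCO : S_GCO := t_GCO

theorem c_GX : S_GX := t_GX c_DIM1 c_GCO

theorem c_FPX : S_FPX := t_FPX c_DIM1

theorem c_PLIN : S_PLIN := t_PLIN

theorem c_LENA : S_LENA := t_LENA

theorem c_LENB : S_LENB := t_LENB

theorem c_LENC : S_LENC := t_LENC c_DIM1

theorem c_DVX : S_DVX := t_DVX c_DIM1 c_LENC

theorem c_HER : S_HER := t_HER

theorem c_FP : S_FP := t_FP c_DIM1 c_LENB c_LENC c_DVX c_HER c_FPX

theorem c_PUSH : S_PUSH := t_PUSH c_LENA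

theorem c_PCO : S_PCO := t_PCO c_PUSH c_PLIN

theorem c_L0 : S_L0 := t_L0 c_DIM1 c_LENC c_DVX c_GX c_FPX c_PLIN

theorem c_NORM : S_NORM := t_NORM

theorem c_FIN : S_FIN := t_FIN

theorem s_LTH : S_LTH := t_LTH

theorem s_DGL : S_DGL := t_DGL

theorem s_FLD : S_FLD := t_FLD

theorem s_FPD : S_FPD :=
  LOWD.t_FPD c_DIM1 c_DIM2 c_LENA c_LENB c_LENC c_NORM s_LTH s_DGL s_FLD

theorem s_FPR : S_FPR := t_FPR c_LENC c_DVX s_FLD s_FPD

theorem s_CLF : S_CLF := t_CLF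

theorem s_CLG : S_CLG := t_CLG c_DIM1 c_LENC c_DVX c_FIN s_FLD s_FPR s_CLF

theorem s_HTM : S_HTM := t_HTM

theorem s_ZER : S_ZER := t_ZER c_DIM1 c_DIM2 s_HTM s_CLG

theorem s_KRU : S_KRU := t_KRU s_HTM

theorem s_NUL : S_NUL := t_NUL

theorem s_FNT : S_FNT := t_FNT

theorem s_PTQ : S_PTQ := t_PTQ

theorem s_HOM : S_HOM := t_HOM

theorem s_DEG : S_DEG := t_DEG

theorem s_SUB : S_SUB := t_SUB

theorem s_CNT : S_CNT := t_CNT

theorem s_CB : S_CB := t_CB c_PCO c_PLIN c_L0 c_GX c_FP s_SUB s_DEG s_CNT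

theorem s_STP : S_STP := t_STP s_FLD s_FPR s_KRU s_NUL s_FNT s_PTQ s_HOM s_CNT s_CB

theorem s_ALL : S_ALL := t_ALL s_ZER s_STP s_CNT

theorem s_HEX : S_HEX.{v} := t_HEX

theorem s_NICE : S_NICE := t_NICE

theorem s_VA : S_VA.{v} := t_VA s_HEX s_NICE

theorem s_VB : S_VB.{v} := t_VB s_HEX

end Asm

end LOWD
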