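import Pool.Agent.CUB.StmtsR

/-!
# LOWD: Chow groups of small dimension of affine varieties defined by polynomials of small degree
over finite fields (definitions)

`k` is a finite field, `R` an algebra of finite type over `k`, `f i` are polynomials over `R` in the variables
`σ` (a finite type), `AR f = R[σ] / (f i)`.  The theorem: if `deg (f i) ≤ d i` and `l + ∑ cnt l (d i) < |σ|` then every cycle of
dimension `l` on `Spec (AR f)` is rationally equivalent to zero modulo torsion.  See `PAPER.md`.
-/

set_option autoImplicit false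

open Polynomial

namespace LOWD

open CUB

/-! ## 1. Expansion along a line -/

section Ln

variable {σ R S T : Type} [CommRing R] [CommRing S] [CommRing T] [Algebra R S] [Algebra R T]

/-- The polynomial `f (x + t v)` in one variable `t`. -/
noncomputable def ln (f : MvPolynomial σ R) (x v : σ → S) : S[X] :=
  MvPolynomial.aeval (fun j => C (x j) + C (v j) * X) f

lemma ln_map (φ : S →ₐ[R] T) (f : MvPolynomial σ R) (x v : σ → S) :
    (ln f x v).map φ.toRingHom = ln f (fun j => φ (x j)) (fun j => φ (v j)) := by
  have h : (Polynomial.mapAlgHom φ).comp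
      (MvPolynomial.aeval (fun j => C (x j) + C (v j) * X) : MvPolynomial σ R →ₐ[R] S[X]) =
      MvPolynomial.aeval (fun j => C (φ (x j)) + C (φ (v j)) * X) := by
    apply MvPolynomial.algHom_ext
    intro j
    simp
  exact DFunLike.congr_fun h f

/-- Translation of the parameter. -/
lemma ln_shift (f : MvPolynomial σ R) (x v : σ → S) (y : S) :
    (ln f x v).comp (X + C y) = ln f (fun j => x j + y * v j) v := by
  have h : (Polynomial.compRingHom (X + C y)).comp
      (MvPolynomial.aeval (fun j => C (x j) + C (v j) * X) :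
        MvPolynomial σ R →ₐ[R] S[X]).toRingHom =
      (MvPolynomial.aeval (fun j => C (x j + y * v j) + C (v j) * X) :
        MvPolynomial σ R →ₐ[R] S[X]).toRingHom := by
    apply MvPolynomial.ringHom_ext
    · intro r
      simp [Polynomial.algebraMap_apply]
    · intro j
      simp
      ring
  exact RingHom.congr_fun h f

/-- The constant coefficient. -/
lemma ln_coeff_zero (f : MvPolynomial σ R) (x v : σ → S) :
    (ln f x v).coeff 0 = MvPolynomial.aeval x f := by
  have h : (Polynomial.constantCoeff).comp
      (MvPolynomial.aeval (fun j => C (x j) + C (v j) * X) :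
        MvPolynomial σ R →ₐ[R] S[X]).toRingHom =
      (MvPolynomial.aeval x : MvPolynomial σ R →ₐ[R] S).toRingHom := by
    apply MvPolynomial.ringHom_ext
    · intro r
      simp [Polynomial.algebraMap_apply]
    · intro j
      simp
  exact RingHom.congr_fun h f

/-- The degree of `f (x + t v)` is at most the degree of `f`. -/
lemma ln_natDegree_le (f : MvPolynomial σ R) (x v : σ → S) :
    (ln f x v).natDegree ≤ f.totalDegree := by
  unfold ln
  rw [MvPolynomial.aeval_def, MvPolynomial.eval₂_eq]
  apply Polynomial.natDegree_sum_le_of_forall_le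
  intro m hm
  refine (Polynomial.natDegree_mul_le).trans ?_
  have h1 : (algebraMap R S[X] (MvPolynomial.coeff m f)).natDegree = 0 := by
    rw [Polynomial.algebraMap_apply]
    exact natDegree_C _
  rw [h1, zero_add]
  refine (Polynomial.natDegree_prod_le _ _).trans ?_
  refine le_trans (Finset.sum_le_sum (g := fun i => m i) ?_) (MvPolynomial.le_totalDegree hm)
  intro i _
  refine (Polynomial.natDegree_pow_le).trans ?_
  have h2 : (C (x i) + C (v i) * X : S[X]).natDegree ≤ 1 := by
    compute_degree
  calc m i * _ ≤ m i * 1 := Nat.mul_le_mul_left _ h2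
    _ = m i := mul_one _

lemma ln_coeff_eq_zero (f : MvPolynomial σ R) (x v : σ → S) (e : ℕ) (he : f.totalDegree < e) :
    (ln f x v).coeff e = 0 :=
  coeff_eq_zero_of_natDegree_lt (lt_of_le_of_lt (ln_natDegree_le f x v) he)

end Ln

/-! ## 2. The rings -/

section Rings

variable {ι κ σ R A : Type} [CommRing R] [CommRing A]

/-- The ring `R[σ] / (f i)`. -/
abbrev AR (f : ι → MvPolynomial σ R) : Type := MvPolynomial σ R ⧸ Ideal.span (Set.range f)

/-- The coordinates in `AR f`. -/
noncomputable def xx (f : ι → MvPolynomial σ R) : σ → AR f :=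
  fun j => Ideal.Quotient.mk _ (MvPolynomial.X j)

lemma aeval_xx (f : ι → MvPolynomial σ R) (i : ι) : MvPolynomial.aeval (xx f) (f i) = 0 := by
  have h : (MvPolynomial.aeval (xx f) : MvPolynomial σ R →ₐ[R] AR f) =
      Ideal.Quotient.mkₐ R _ := by
    apply MvPolynomial.algHom_ext
    intro j
    simp [xx]
  rw [h]
  exact Ideal.Quotient.eq_zero_iff_mem.mpr (Ideal.subset_span ⟨i, rfl⟩)

/-- The coefficients of `t ^ (e + 1)`, `e < d i`, in `f i (x + t v)`, where `x` are the coordinates
of `Spec (AR f)` and `v` are the variables. -/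
noncomputable def GG (f : ι → MvPolynomial σ R) (d : ι → ℕ) :
    (Σ i, Fin (d i)) → MvPolynomial σ (AR f) :=
  fun ie => (ln (f ie.1) (fun j => MvPolynomial.C (xx f j)) (fun j => MvPolynomial.X j)).coeff
    (ie.2 + 1)

/-- The ideal of the equations `G i (v) = 0`, `v j = 0` for `j ∉ S`, `j ≠ a`, and `v a = 1`. -/
noncomputable def relB (G : κ → MvPolynomial σ A) (S : Set σ) (a : σ) :
    Ideal (MvPolynomial σ A) :=
  Ideal.span ({MvPolynomial.X a - 1} ∪ (MvPolynomial.X '' {j | j ∉ S ∧ j ≠ a} ∪ Set.range G))

/-- The ring `A[v] / (G i (v), v a - 1, v j (j ∉ S, j ≠ a))`. -/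
abbrev BR (G : κ → MvPolynomial σ A) (S : Set σ) (a : σ) : Type :=
  MvPolynomial σ A ⧸ relB G S a

/-- The homomorphism `A → BR G S a`. -/
noncomputable def BRh (k : Type) [Field k] [Algebra k A] (G : κ → MvPolynomial σ A) (S : Set σ)
    (a : σ) : A →ₐ[k] BR G S a := IsScalarTower.toAlgHom k A (BR G S a)

/-- The elements `v j` of `BR G S a`. -/
noncomputable def vB (G : κ → MvPolynomial σ A) (S : Set σ) (a : σ) : σ → BR G S a :=
  fun j => Ideal.Quotient.mk _ (MvPolynomial.X j)

variable (R) in
/-- The ring `R[v] / (v a - 1, v j (j ∉ S, j ≠ a))`, the functions on the set of directions. -/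
abbrev RV (S : Set σ) (a : σ) : Type :=
  MvPolynomial σ R ⧸ Ideal.span ({MvPolynomial.X a - 1} ∪
    MvPolynomial.X '' {j : σ | j ∉ S ∧ j ≠ a} : Set (MvPolynomial σ R))

variable (R) in
/-- The elements `v j` of `RV R S a`. -/
noncomputable def vR (S : Set σ) (a : σ) : σ → RV R S a :=
  fun j => Ideal.Quotient.mk _ (MvPolynomial.X j)

open Classical in
variable (R) in
/-- The coordinates of the hyperplane `x a = 0`, over the ring `RV R S a`. -/
noncomputable def x0 (S : Set σ) (a : σ) : σ → MvPolynomial {j : σ // j ≠ a} (RV R S a) :=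
  fun j => if h : j ≠ a then MvPolynomial.X ⟨j, h⟩ else 0

/-- The coefficients of `t ^ e`, `e ≤ d i`, in `f i (x + t v)`, where `x` is in the hyperplane
`x a = 0` and `v` is a direction with `v a = 1`, `v j = 0` for `j ∉ S`, `j ≠ a`. -/
noncomputable def gg (f : ι → MvPolynomial σ R) (d : ι → ℕ) (S : Set σ) (a : σ) :
    (Σ i, Fin (d i + 1)) → MvPolynomial {j : σ // j ≠ a} (RV R S a) :=
  fun ie => (ln (f ie.1) (x0 R S a) (fun j => MvPolynomial.C (vR R S a j))).coeff ie.2

end Rings

section Instances

variable {k : Type} [Field k] {ι κ σ R A : Type} [CommRing R] [CommRing A] [Algebra k R]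
  [Algebra k A]

lemma finiteType_mvp (k σ R : Type) [Field k] [CommRing R] [Algebra k R] [Algebra.FiniteType k R]
    [Finite σ] : Algebra.FiniteType k (MvPolynomial σ R) :=
  Algebra.FiniteType.trans (S := R) inferInstance inferInstance

lemma finiteType_quo (k R : Type) [Field k] [CommRing R] [Algebra k R] [Algebra.FiniteType k R]
    (I : Ideal R) : Algebra.FiniteType k (R ⧸ I) :=
  Algebra.FiniteType.of_surjective (Ideal.Quotient.mkₐ k I) Ideal.Quotient.mk_surjective

instance finiteType_AR [Finite σ] [Algebra.FiniteType k R] (f : ι → MvPolynomial σ R) :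
    Algebra.FiniteType k (AR f) :=
  have := finiteType_mvp k σ R
  finiteType_quo k _ _

instance finiteType_BR [Finite σ] [Algebra.FiniteType k A] (G : κ → MvPolynomial σ A) (S : Set σ)
    (a : σ) : Algebra.FiniteType k (BR G S a) :=
  have := finiteType_mvp k σ A
  finiteType_quo k _ _

instance finiteType_RV [Finite σ] [Algebra.FiniteType k R] (S : Set σ) (a : σ) :
    Algebra.FiniteType k (RV R S a) :=
  have := finiteType_mvp k σ R
  finiteType_quo k _ _

end Instances

/-! ## 3. Solutions and the ideals `JJ` -/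

section Sol

variable {κ σ A : Type} [CommRing A]

/-- The forms `G i` have a nonzero common zero over the algebraic closure of the residue field of
`p`, with `v j = 0` for `j ∉ S`. -/
def SolAt (G : κ → MvPolynomial σ A) (S : Set σ) (p : PrimeSpectrum A) : Prop :=
  ∃ w : σ → AlgebraicClosure p.asIdeal.ResidueField, w ≠ 0 ∧ (∀ j, j ∉ S → w j = 0) ∧
    ∀ i, MvPolynomial.aeval w (G i) = 0

/-- The ideal of the `G i` and the variables `v j`, `j ∉ S`. -/
noncomputable def relS (G : κ → MvPolynomial σ A) (S : Set σ) : Ideal (MvPolynomial σ A) :=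
  Ideal.span (MvPolynomial.X '' {j | j ∉ S} ∪ Set.range G)

/-- The elements `h` of `A` such that `h` times every monomial of degree `N` is in `relS G S`, for some `N`. -/
noncomputable def JJ (G : κ → MvPolynomial σ A) (S : Set σ) : Ideal A where
  carrier := {h | ∃ N : ℕ, ∀ m : σ →₀ ℕ, N ≤ m.degree →
    MvPolynomial.monomial m h ∈ relS G S}
  zero_mem' := ⟨0, fun m _ => by simp⟩
  add_mem' := by
    rintro a b ⟨N, hN⟩ ⟨M, hM⟩
    refine ⟨max N M, fun m hm => ?_⟩
    rw [map_add]
    exact Ideal.add_mem _ (hN m (le_trans (le_max_left _ _) hm))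
      (hM m (le_trans (le_max_right _ _) hm))
  smul_mem' := by
    rintro c a ⟨N, hN⟩
    refine ⟨N, fun m hm => ?_⟩
    have h : MvPolynomial.monomial m (c • a) =
        MvPolynomial.C c * MvPolynomial.monomial m a := by
      rw [MvPolynomial.C_mul_monomial, smul_eq_mul]
    rw [h]
    exact Ideal.mul_mem_left _ _ (hN m hm)

lemma mem_JJ (G : κ → MvPolynomial σ A) (S : Set σ) (h : A) :
    h ∈ JJ G S ↔ ∃ N : ℕ, ∀ m : σ →₀ ℕ, N ≤ m.degree →
      MvPolynomial.monomial m h ∈ relS G S := Iff.rfl

end Sol

/-! ## 4. Finite homomorphisms outside a closed subset, degrees -/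

section Fin

variable {k : Type} [Field k] {A B : Type} [CommRing A] [CommRing B] [Algebra k A] [Algebra k B]

/-- `B` is a finite algebra over `A` outside the closed subset `V(J)`. -/
def FinOn (φ : A →ₐ[k] B) (J : Ideal A) : Prop :=
  ∀ h ∈ J, ∃ M : Finset B, ∀ b : B, ∃ (s : ℕ) (c : B → A), φ h ^ s * b = ∑ m ∈ M, φ (c m) * m

/-- The homomorphism from `A` to the residue field of the prime `q` of `B`. -/
noncomputable def rho (φ : A →ₐ[k] B) (q : PrimeSpectrum B) : A →+* q.asIdeal.ResidueField :=
  (algebraMap B q.asIdeal.ResidueField).comp φ.toRingHom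

/-- The degree of the residue field of `q` over the residue field of its image. -/
noncomputable def dg (φ : A →ₐ[k] B) (q : PrimeSpectrum B) : ℕ :=
  Module.finrank (Subfield.closure (Set.range (rho φ q))) q.asIdeal.ResidueField

end Fin

/-! ## 5. Numbers -/

/-- The number of the equations of degree `l` obtained from an equation of degree `d`: `0` if `d = 0`, and the binomial
coefficient `(l + d - 1 choose l)` if `d > 0`. -/
def cnt (l d : ℕ) : ℕ := if d = 0 then 0 else Nat.choose (l + d - 1) l

end LOWD
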