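import Pool.Agent.LOWD.Stmts

/-!
# LTH: lengths over a subring
-/

set_option autoImplicit false

open TensorProduct

namespace LOWD

open CUB

namespace LTH

section

variable {D : Type} [CommRing D]

/-- The length of the localisation. -/
noncomputable def lq (q : PrimeSpectrum D) (M : Type) [AddCommGroup M] [Module D M] : ℕ∞ :=
  Module.length (Localization.AtPrime q.asIdeal) (Localization.AtPrime q.asIdeal ⊗[D] M)

lemma lq_sub (q : PrimeSpectrum D) (M : Type) [AddCommGroup M] [Module D M] [Subsingleton M] :
    lq q M = 0 := by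
  unfold lq
  have : Subsingleton (Localization.AtPrime q.asIdeal ⊗[D] M) := by
    refine subsingleton_of_forall_eq 0 fun x => ?_
    induction x using TensorProduct.induction_on with
    | zero => rfl
    | tmul a m => rw [Subsingleton.elim m 0, TensorProduct.tmul_zero]
    | add x y hx hy => rw [hx, hy, add_zero]
  exact Module.length_eq_zero

lemma lq_add (q : PrimeSpectrum D) {M : Type} [AddCommGroup M] [Module D M] (N : Submodule D M) :
    lq q M = lq q N + lq q (M ⧸ N) := by
  unfold lq
  refine Module.length_eq_add_of_exact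
    (N.subtype.baseChange (Localization.AtPrime q.asIdeal))
    (N.mkQ.baseChange (Localization.AtPrime q.asIdeal)) ?_ ?_ ?_
  · exact Module.Flat.lTensor_preserves_injective_linearMap _ (Submodule.subtype_injective N)
  · exact LinearMap.lTensor_surjective _ (Submodule.mkQ_surjective N)
  · exact lTensor_exact _ (LinearMap.exact_subtype_mkQ N) (Submodule.mkQ_surjective N)

lemma lq_congr (q : PrimeSpectrum D) {M N : Type} [AddCommGroup M] [Module D M] [AddCommGroup N]
    [Module D N] (e : M ≃ₗ[D] N) : lq q M = lq q N := by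
  unfold lq
  exact (e.baseChange D (Localization.AtPrime q.asIdeal) M N).length_eq

lemma lq_quot (q : PrimeSpectrum D) (I : Ideal D) : lq q (D ⧸ I) =
    Module.length (Localization.AtPrime q.asIdeal) (Localization.AtPrime q.asIdeal ⧸
      I.map (algebraMap D (Localization.AtPrime q.asIdeal))) := by
  unfold lq
  exact ((Algebra.TensorProduct.quotIdealMapEquivTensorQuot (Localization.AtPrime q.asIdeal)
    I).toLinearEquiv.length_eq).symm

lemma lq_self (q : PrimeSpectrum D) : lq q (D ⧸ q.asIdeal) = 1 := by
  rw [lq_quot, Localization.AtPrime.map_eq_maximalIdeal, Module.length_eq_one_iff,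
    isSimpleModule_iff_isCoatom]
  exact Ideal.isMaximal_def.1 (IsLocalRing.maximalIdeal.isMaximal _)

lemma lq_ne {q p : PrimeSpectrum D} (hp : p.asIdeal.IsMaximal) (hq : q.asIdeal.IsMaximal)
    (h : q ≠ p) : lq q (D ⧸ p.asIdeal) = 0 := by
  rw [lq_quot]
  have h1 : ¬ p.asIdeal ≤ q.asIdeal := fun h2 =>
    h (PrimeSpectrum.ext (hp.eq_of_le hq.ne_top h2).symm)
  obtain ⟨x, hxp, hxq⟩ := SetLike.not_le_iff_exists.1 h1
  have h2 : Ideal.map (algebraMap D (Localization.AtPrime q.asIdeal)) p.asIdeal = ⊤ := by
    refine Ideal.eq_top_of_isUnit_mem _ (Ideal.mem_map_of_mem _ hxp) ?_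
    exact IsLocalization.map_units (Localization.AtPrime q.asIdeal)
      (⟨x, hxq⟩ : q.asIdeal.primeCompl)
  rw [h2, Module.length_eq_zero_iff]
  exact Ideal.Quotient.subsingleton_iff.2 rfl

end

section

variable {C D : Type} [CommRing C] [CommRing D] [Algebra C D] {I : Ideal D}
  {W : Finset (PrimeSpectrum D)}

lemma lC_add {M : Type} [AddCommGroup M] [Module D M] [Module C M] [IsScalarTower C D M]
    (N : Submodule D M) :
    Module.length C M = Module.length C N + Module.length C (M ⧸ N) :=
  Module.length_eq_add_of_exact (N.subtype.restrictScalars C) (N.mkQ.restrictScalars C)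
    (Submodule.subtype_injective N) (Submodule.mkQ_surjective N) (LinearMap.exact_subtype_mkQ N)

theorem claim (hW : ∀ q : PrimeSpectrum D, q ∈ W ↔ (q.asIdeal.IsMaximal ∧ I ≤ q.asIdeal)) (n : ℕ) :
    ∀ (M : Type) [AddCommGroup M] [Module D M] [Module C M] [IsScalarTower C D M],
      Module.length D M = n → (∀ i ∈ I, ∀ m : M, i • m = 0) →
      Module.length C M = ∑ q ∈ W, lq q M * Module.length C (D ⧸ q.asIdeal) := by
  induction n with
  | zero =>
    intro M _ _ _ _ hn hI
    have hs : Subsingleton M := Module.length_eq_zero_iff.1 (by simpa using hn)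
    rw [Module.length_eq_zero]
    refine (Finset.sum_eq_zero fun q _ => ?_).symm
    rw [lq_sub, zero_mul]
  | succ n ih =>
    intro M _ _ _ _ hn hI
    have hfl : IsFiniteLength D M := by
      rw [← Module.length_ne_top_iff, hn]
      exact ENat.natCast_ne_top _
    have hNoe : IsNoetherian D M := (isFiniteLength_iff_isNoetherian_isArtinian.1 hfl).1
    have hne : (⊥ : Submodule D M) ≠ ⊤ := by
      intro h
      have hs : Subsingleton M := (Submodule.subsingleton_iff D).1 (subsingleton_of_bot_eq_top h)
      rw [Module.length_eq_zero] at hn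
      exact absurd hn (by exact_mod_cast (Nat.succ_ne_zero n).symm)
    obtain ⟨N, hN, -⟩ := (eq_top_or_exists_le_coatom (⊥ : Submodule D M)).resolve_left hne
    have hsimple : IsSimpleModule D (M ⧸ N) := isSimpleModule_iff_isCoatom.2 hN
    obtain ⟨J, hJ, ⟨e⟩⟩ := isSimpleModule_iff_quot_maximal.1 hsimple
    obtain ⟨p, hp⟩ : ∃ p : PrimeSpectrum D, p.asIdeal = J := ⟨⟨J, hJ.isPrime⟩, rfl⟩
    subst hp
    have hpI : I ≤ p.asIdeal := by
      intro i hi
      have h1 : i • (e.symm (Ideal.Quotient.mk p.asIdeal 1)) = 0 := by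
        obtain ⟨m, hm⟩ := Submodule.mkQ_surjective N (e.symm (Ideal.Quotient.mk p.asIdeal 1))
        rw [← hm, ← map_smul, hI i hi, map_zero]
      rw [← map_smul, LinearEquiv.map_eq_zero_iff] at h1
      have h2 : Ideal.Quotient.mk p.asIdeal i = 0 := by
        rw [← h1, ← Ideal.Quotient.mk_eq_mk, ← Ideal.Quotient.mk_eq_mk, ← Submodule.Quotient.mk_smul,
          smul_eq_mul, mul_one]
      exact Ideal.Quotient.eq_zero_iff_mem.1 h2
    have hpW : p ∈ W := (hW p).2 ⟨hJ, hpI⟩
    have hlen : Module.length D N = n := by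
      have h1 : Module.length D M = Module.length D N + Module.length D (M ⧸ N) :=
        Module.length_eq_add_of_exact N.subtype N.mkQ (Submodule.subtype_injective N)
          (Submodule.mkQ_surjective N) (LinearMap.exact_subtype_mkQ N)
      have h0 : Module.length D (M ⧸ N) = 1 := Module.length_eq_one D (M ⧸ N)
      rw [hn, h0] at h1
      push_cast at h1
      exact (ENat.add_left_injective_of_ne_top (by simp) h1).symm
    have h1 := ih N hlen fun i hi m => by
      apply Subtype.ext
      exact hI i hi m
    rw [lC_add (C := C) N, h1]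
    have h2 : Module.length C (M ⧸ N) = Module.length C (D ⧸ p.asIdeal) :=
      (e.restrictScalars C).length_eq
    have h3 : ∑ q ∈ W, lq q (M ⧸ N) * Module.length C (D ⧸ q.asIdeal)
        = Module.length C (D ⧸ p.asIdeal) := by
      rw [Finset.sum_eq_single p]
      · rw [lq_congr p e, lq_self, one_mul]
      · intro q hq hqp
        rw [lq_congr q e, lq_ne hJ ((hW q).1 hq).1 hqp, zero_mul]
      · intro h
        exact absurd hpW h
    rw [h2, ← h3, ← Finset.sum_add_distrib]
    refine Finset.sum_congr rfl fun q _ => ?_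
    rw [lq_add q N, add_mul]

end

end LTH

open LTH in
theorem t_LTH : S_LTH := by
  intro C D _ _ _ I hlen W hW
  have hD : Module.length D (D ⧸ I) ≠ ⊤ := by
    have h1 := Submodule.length_le_length_restrictScalars (R := D) (M := D ⧸ I) C ⊤
    rw [Module.length_top, Submodule.restrictScalars_top, Module.length_top] at h1
    exact ne_top_of_le_ne_top hlen h1
  obtain ⟨n, hn⟩ := ENat.ne_top_iff_exists.1 hD
  have h := claim (C := C) hW n (D ⧸ I) hn.symm (by
    intro i hi m
    obtain ⟨m, rfl⟩ := Ideal.Quotient.mk_surjective m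
    rw [← Ideal.Quotient.mk_eq_mk, ← Submodule.Quotient.mk_smul, Submodule.Quotient.mk_eq_zero,
      smul_eq_mul]
    exact Ideal.mul_mem_right _ _ hi)
  unfold lC
  rw [h] at hlen ⊢
  rw [ENat.toNat_sum]
  · refine Finset.sum_congr rfl fun q _ => ?_
    rw [ENat.toNat_mul, lq_quot]
    rfl
  · intro q hq h2
    apply hlen
    exact top_le_iff.1 (h2 ▸ Finset.single_le_sum (f := fun q => lq q (D ⧸ I) *
      Module.length C (D ⧸ q.asIdeal)) (fun _ _ => zero_le) hq)

end LOWD
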