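import Pool.Agent.LOWD.StmtsH

set_option autoImplicit false

/-! LOWD, module NUM: the numerical condition. -/

namespace LOWD

namespace NUM

theorem le_cnt (l d : ℕ) (hd : 2 ≤ d) : l + 1 ≤ cnt l d := by
  unfold cnt
  rw [if_neg (by omega)]
  calc l + 1 = (l + 1).choose l := by
        rw [Nat.choose_succ_self_right]
    _ ≤ (l + d - 1).choose l := Nat.choose_le_choose l (by omega)

end NUM

theorem t_NUM : S_NUM := by
  intro r l n j d hr hd hlt hj
  have h1 : r * (l + 1) ≤ ∑ i, cnt l (d i) := by
    calc r * (l + 1) = ∑ _i : Fin r, (l + 1) := by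
          rw [Finset.sum_const, Finset.card_univ, Fintype.card_fin, smul_eq_mul]
      _ ≤ ∑ i, cnt l (d i) := Finset.sum_le_sum fun i _ => NUM.le_cnt l (d i) (hd i)
  have h2 : l ≤ r * l := Nat.le_mul_of_pos_left l hr
  have h3 : r * (l + 1) = r * l + r := by ring
  omega

end LOWD
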