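import Pool.Agent.LOWD.Stmts
import Pool.Agent.CUB.Bridge

/-!
# LOWD, part 2: vanishing of the homology in small degrees (statements)

Module `X` proves `theorem t_X : M_X` (or `t_X : S_X` if there is no `M_X`) in the namespace `LOWD`, in the file
`Pool/Agent/LOWD/X.lean`, importing this file.  `Homology k E i` is the structure of `Pool/Agent/Lib_helper55/Beil/Defs.lean` (localisation
sequences, Artin vanishing); `aff k A` is the affine variety `Spec A` (`CUB/Defs2.lean`); lemmas on it in `CUB/BR1.lean`, ..., `CUB/Bridge.lean`
(`complementary_away`, `isOpenImmersion_spm`, `clo`, `opn`, `viso`, `VIso.cl`, `push_viso_bijective`).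
-/

set_option autoImplicit false

open Polynomial CategoryTheory AlgebraicGeometry

namespace LOWD

open CUB Pool.Agent.Lib_helper55.Beil

universe v

/-- HEX. Homology of affine varieties. (1) `push_viso_bijective` in `BR5` or exactness (localisation with empty complement). (2) `clo ζ`, `opn υ` are complementary (`complementary_away`); `T.exact_X`: `H_m Z → H_m A → H_m U` is exact, and `(T.localisation ..).2`: `H_(m+1) U → H_m Z → H_m A` is exact for some boundary map. (3) `clo ζ` is surjective on points (the kernel is nilpotent, contained in every prime), so it is complementary to the empty open subvariety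
(for instance the localisation at `0`, the zero ring); exactness. (4) the spectrum is empty, `T.empty`. (5) `T.artin`: `(aff k A).X` is integral and affine, `(aff k A).f` is smooth (see `Pool/Agent/CUB/V_SMOOTH.lean`, `V_SMO.lean` for `Algebra.Smooth` and `Smooth (aff k A).f`), the dimension of the generic point is `Algebra.trdeg k A` (the generic point corresponds to the ideal `0`; `dim_toPt` in `BR1`). -/
def S_HEX : Prop := ∀ (k E : Type) [Field k] [Field E] (i : ℕ) (T : Homology.{v} k E i) (m : ℕ),
  (∀ (A B : Type) [CommRing A] [CommRing B] [Algebra k A] [Algebra k B]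
    [Algebra.FiniteType k A] [Algebra.FiniteType k B], (A ≃ₐ[k] B) →
    Subsingleton (T.H m (aff k A)) → Subsingleton (T.H m (aff k B))) ∧
  (∀ (A Z U : Type) [CommRing A] [CommRing Z] [CommRing U] [Algebra k A] [Algebra k Z]
    [Algebra k U] [Algebra.FiniteType k A] [Algebra.FiniteType k Z] [Algebra.FiniteType k U]
    (a : A) (ζ : A →ₐ[k] Z) (υ : A →ₐ[k] U), Function.Surjective ζ →
    RingHom.ker ζ.toRingHom = Ideal.span {a} →
    (@IsLocalization.Away A _ a U _ υ.toRingHom.toAlgebra) →
    (Subsingleton (T.H m (aff k Z)) → Subsingleton (T.H m (aff k U)) →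
      Subsingleton (T.H m (aff k A))) ∧
    (Subsingleton (T.H (m + 1) (aff k U)) → Subsingleton (T.H m (aff k A)) →
      Subsingleton (T.H m (aff k Z)))) ∧
  (∀ (A Z : Type) [CommRing A] [CommRing Z] [Algebra k A] [Algebra k Z]
    [Algebra.FiniteType k A] [Algebra.FiniteType k Z] (ζ : A →ₐ[k] Z), Function.Surjective ζ →
    (∀ x, ζ x = 0 → IsNilpotent x) → Subsingleton (T.H m (aff k Z)) →
    Subsingleton (T.H m (aff k A))) ∧
  (∀ (A : Type) [CommRing A] [Algebra k A] [Algebra.FiniteType k A], Subsingleton A →
    Subsingleton (T.H m (aff k A))) ∧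
  (∀ (A : Type) [CommRing A] [Algebra k A] [Algebra.FiniteType k A] [IsDomain A]
    [Algebra.Smooth k A], (m : Cardinal) < Algebra.trdeg k A → Subsingleton (T.H m (aff k A)))

/-- NICE. A nonzero reduced algebra of finite type over a perfect field has a nonzero localisation which is a smooth domain. From `exists_nice` in `Pool/Agent/Lib_helper55/Beil/Geom.lean` for `X = aff k A` (reduced) and a maximal point `η` (a minimal prime): an open neighbourhood `U` of `η` which is smooth, affine and integral; choose a basic open set `D(h) ⊆ U` containing `η`: `A_h` is the ring of functions on an open subscheme of `U`, so a domain, and smooth. (Or algebraically: choose `h`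
in all minimal primes but one, so that `A_h` is a domain; generic smoothness over a perfect field if Mathlib has it for rings.) -/
def S_NICE : Prop := ∀ (k A : Type) [Field k] [PerfectField k] [CommRing A] [Algebra k A]
  [Algebra.FiniteType k A] [IsReduced A] [Nontrivial A],
  ∃ h : A, IsDomain (Localization.Away h) ∧ Algebra.Smooth k (Localization.Away h)

/-- All localisations `B[1/g]` of the algebra `B` have no homology in degrees smaller than `N`. -/
def Van {k E : Type} [Field k] [Field E] {i : ℕ} (T : Homology.{v} k E i) (N : ℕ) (B : Type)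
    [CommRing B] [Algebra k B] : Prop :=
  ∀ (g : B) (B' : Type) [CommRing B'] [Algebra k B'] [Algebra.FiniteType k B'] (φ : B →ₐ[k] B'),
    (@IsLocalization.Away B _ g B' _ φ.toRingHom.toAlgebra) → ∀ m < N,
    Subsingleton (T.H m (aff k B'))

/-- VA. Affine spaces over an arbitrary affine variety. By S_HEX (1) it is enough to treat `B' = Localization.Away g`, `g ∈ R[σ]`. Noetherian induction on the ideal `I` of `R`: claim `P(I)`: for all `g ∈ (R/I)[σ]` and `m < |σ|` the homology `H_m` of `(R/I)[σ][1/g]` vanishes. Assume `P(I')` for all `I' > I`. If `I = ⊤`: the zero ring, S_HEX (4). If `I` is not radical: let `I'` be its radical; the homomorphism `(R/I)[σ][1/g] → (R/I')[σ][1/g]` is surjective with nilpotent kernel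
(every element of the kernel is nilpotent), S_HEX (3). If `R/I` is reduced and not zero: S_NICE gives `h ∈ R/I` with `(R/I)_h` a smooth domain. `A = (R/I)[σ][1/g]`, `Z = A / h`, which is the ring `(R/I')[σ][1/g]` for the preimage `I' > I` of `(h)` (`h ≠ 0`), so `H_m(Z) = 0`; `U = A_h = (R/I)_h[σ][1/g]` is zero (S_HEX (4)) or a smooth domain of transcendence degree `≥ |σ| > m`: S_HEX (5) (`MvPolynomial σ` over a smooth algebra is smooth, see
`V_SMOOTH.lean` for `Fin m`; a localisation of a smooth algebra is smooth; the variables are algebraically independent over `k`). S_HEX (2). (It may be convenient to do the induction for all finite type algebras `R` with the statement: for every surjection from a fixed Noetherian ring.) -/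
def S_VA : Prop := ∀ (k E : Type) [Field k] [PerfectField k] [Field E] (i : ℕ)
  (T : Homology.{v} k E i) (R σ : Type) [CommRing R] [Algebra k R] [Algebra.FiniteType k R]
  [Fintype σ], Van T (Fintype.card σ) (MvPolynomial σ R)

def M_VA : Prop := S_HEX.{v} → S_NICE → S_VA.{v}

/-- VB. Closed subsets defined by `r` equations. Induction on `r`. `r = 0`: `ψ` is an isomorphism, and `B` is its own localisation at `1`. `r + 1`: let `f' : Fin r → B` be the first `r` equations and `a` the last one. `A' = B / (f')`, `H_m(A') = 0` by induction (`m + r < N`). `A = A' / a`. `U = A'_a = B_a / (f')`: `B_a` satisfies `Van T N` (a localisation `(B_a)_g` is a localisation of `B` away from one element, `g = g' / a^s`: away from `a g'`), so `H_(m+1)(U) = 0` by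
induction (`m + 1 + r < N`). S_HEX (2). -/
def S_VB : Prop := ∀ (k E : Type) [Field k] [Field E] (i : ℕ) (T : Homology.{v} k E i)
  (N r : ℕ) (B A : Type) [CommRing B] [CommRing A] [Algebra k B] [Algebra k A]
  [Algebra.FiniteType k B] [Algebra.FiniteType k A] (f : Fin r → B) (ψ : B →ₐ[k] A), Van T N B →
  Function.Surjective ψ → RingHom.ker ψ.toRingHom = Ideal.span (Set.range f) →
  ∀ m : ℕ, m + r < N → Subsingleton (T.H m (aff k A))

def M_VB : Prop := S_HEX.{v} → S_VB.{v}

/-- NUM. `cnt l d ≥ l + 1` for `d ≥ 2`: `(l + d - 1 choose l) ≥ (l + 1 choose l)`. So `l + r (l + 1) ≤ l + ∑ cnt l (d i) < n` and `2 j + r ≤ 2 l + r ≤ l + r (l + 1)` as `r ≥ 1`. -/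
def S_NUM : Prop := ∀ (r l n j : ℕ) (d : Fin r → ℕ), 0 < r → (∀ i, 2 ≤ d i) →
  l + ∑ i, cnt l (d i) < n → j ≤ l → 2 * j + r < n

end LOWD
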